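import Pool.Agent.H83.X.T2

/-!
Theorem X: targets for the sections 6-8 (page `H83_X.md`): windows and labels, the two sides,
decoupling, the last step.
-/

set_option autoImplicit false

open MeasureTheory ProbabilityTheory Filter Topology Finset
open scoped Nat ENNReal

namespace Pool.Agent.H83.X

open Pool.Agent.H24.T2 (Pset)
open Pool.Agent.H24.AG (ee)
open Pool.Agent.H28.MCL (ldB Aw)
open Pool.Agent.H67.AG (avgP ul Inv Rt Av)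
open Pool.Agent.H28.LF (lt ng SS ptS LX Xi LY Yi shX shY lX lY btY flY xiY SysX SysY CompY LwY ExY
  Wa DcO)
open Pool.Agent.H83.V (vl fz)

/-! ### Section 6: windows and labels -/

open Classical in
/-- XWN: disjoint long windows on which the statement fails. -/
def T_XWN : Prop := ∀ (z : Bool) (h : ℕ) (Φ : ℝ → ℝ) (δ : ℝ), ¬ CoreX z h Φ δ →
  ∃ (ε ρ : ℝ) (x y : ℕ → ℕ), 0 < ε ∧ 0 < ρ ∧ (∀ j, 0 < x j ∧ x j ≤ y j ∧ y j < x (j + 1)) ∧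
    (∀ j : ℕ, (j : ℝ) * (j + 1) ≤ Real.log ((y j : ℝ) / x j)) ∧
    ∀ j, ρ * Real.log ((y j : ℝ) / x j) ≤
      ∑ N ∈ (Icc (x j) (y j)).filter (fun N => cU Φ δ + ε < mH z h Φ (j + 1) N), (1 : ℝ) / N

/-- XWT: the weight of a set of scales on one window, constant on blocks of length `H`. -/
def T_XWT : Prop := ∀ (H x y : ℕ) (S : Finset ℕ), 0 < H → 0 < x → x ≤ y → S ⊆ Icc x y →
  ∃ v : ℕ → ℝ, (∀ n, 0 ≤ v n ∧ v n ≤ 1) ∧ (∀ n, ¬ H ∣ n + 1 → v (n + 1) = v n) ∧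
    (∀ (B : ℝ) (g : ℕ → ℝ), 0 ≤ B → (∀ n, |g n| ≤ B) →
      |(∑ N ∈ S, (1 : ℝ) / N * ((∑ n ∈ Icc 1 N, g n) / N)) / 2 -
        ∑ n ∈ Icc x y, v n * g n / n| ≤ 10 * B * (H + 1)) ∧
    (∀ (B : ℝ) (g : ℕ → ℝ) (i : ℕ), 0 ≤ B → (∀ n, |g n| ≤ B) → i ≤ H →
      |∑ n ∈ Icc x y, v n * g (n + i) / n - ∑ n ∈ Icc x y, v n * g n / n| ≤ 10 * B * (H + 1)) ∧
    ∀ R p p' n : ℕ, 0 < R → 0 < p → p < p' → n ≤ y → p' * x ≤ n → 10 * R * p' * (H + 1) ≤ n →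
      p * v (n / p) ≤ p' * v (n / p') + p' / R

/-- XL1: labels on one window (from `T_XWT`). -/
def T_XL1 : Prop := ∀ (z : Bool) (h : ℕ) (Φ : ℝ → ℝ) (δ : ℝ), ConvexOn ℝ Set.univ Φ →
  0 ≤ δ → δ ≤ 1 → ∃ B : ℝ, 0 < B ∧ ∀ (ε : ℝ) (R H x y : ℕ) (S : Finset ℕ), 0 < ε → 0 < R → 0 < H →
  0 < x → x ≤ y → S ⊆ Icc x y → (∀ N ∈ S, cU Φ δ + ε < mH z h Φ H N) →
  ∃ τ : ℕ → ℕ → Bool, (∀ n, ¬ H ∣ n + 1 → τ (n + 1) = τ n) ∧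
    (∀ K : ℕ, 0 < K → K ≤ H → ε / 2 * ∑ N ∈ S, (1 : ℝ) / N ≤
      ∑ n ∈ Icc x y, vR R (τ n) * (Φ (aH z h K n) - cU Φ δ) / n +
        B * ((1 / R + (K : ℝ) / H) * (1 + Real.log ((y : ℝ) / x)) + H + K)) ∧
    ∀ p p' n : ℕ, 0 < p → p < p' → n ≤ y → p' * x ≤ n → 10 * R * p' * (H + 1) ≤ n →
      p * vR R (τ (n / p)) ≤ p' * vR R (τ (n / p')) + 2 * p' / R

/-- XLB: the labels (from `T_XWN`, `T_XL1`). -/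
def T_XLB : Prop := ∀ (z : Bool) (h : ℕ) (Φ : ℝ → ℝ) (δ : ℝ), ConvexOn ℝ Set.univ Φ →
  0 ≤ δ → δ ≤ 1 → ¬ CoreX z h Φ δ → ∃ (η₀ : ℝ) (R₀ : ℕ), 0 < η₀ ∧ ∀ R : ℕ, R₀ ≤ R →
  ∃ (U : Ultrafilter ℕ) (x y : ℕ → ℕ) (τ : ℕ → ℕ → Bool), Aw U x y ∧
    ldB U x y {n | τ n ≠ τ (n + 1)} = 0 ∧
    (∀ p p' : ℕ, 0 < p → p < p' → ldB U x y
      {n | ¬ (p * vR R (τ (n / p)) ≤ p' * vR R (τ (n / p')) + 2 * p' / R)} = 0) ∧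
    ∀ K : ℕ, 0 < K → η₀ ≤ ldI U x y (fun n => vR R (τ n) * (Φ (aH z h K n) - cU Φ δ))

/-! ### Section 7: the two sides -/

/-- XLI: logarithmic means and integrals. -/
def T_XLI : Prop := ∀ (U : Ultrafilter ℕ) (x y : ℕ → ℕ) (τ : ℕ → ℕ → Bool) (PX : Measure Xi),
  Aw U x y → IsProbabilityMeasure PX →
  (∀ C : Set Xi, IsClopen C → PX.real C = ldB U x y {n | ptS (lX τ) n ∈ C}) →
  ∀ G : Xi → ℝ, Continuous G → (Set.range G).Finite →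
    ldI U x y (fun n => G (ptS (lX τ) n)) = ∫ ξ, G ξ ∂PX

/-- XSX: the measure on the `n`-side (from `T_SHP`, `T_XLI`; compare `Pool.Agent.H83.V.T_VSX`). -/
def T_XSX : Prop := ∀ (z : Bool) (h : ℕ) (Φ : ℝ → ℝ) (c η₀ : ℝ) (R : ℕ) (U : Ultrafilter ℕ)
  (x y : ℕ → ℕ) (τ : ℕ → ℕ → Bool), 0 < R → Aw U x y → ldB U x y {n | τ n ≠ τ (n + 1)} = 0 →
  (∀ K : ℕ, 0 < K → η₀ ≤ ldI U x y (fun n => vR R (τ n) * (Φ (aH z h K n) - c))) →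
  ∃ PX : Measure Xi, SysX (fun _ => 1) 0 PX ∧
    (∀ C : Set Xi, IsClopen C → PX.real C = ldB U x y {n | ptS (lX τ) n ∈ C}) ∧
    ∀ K : ℕ, 0 < K → η₀ ≤ ∫ ξ, vR R (ξ 0).2 * (Φ (Av shX 1 K (gX z h) ξ) - c) ∂PX

/-- XLN: a convex function is a maximum of lines. -/
def T_XLN : Prop := ∀ (Φ : ℝ → ℝ) (η : ℝ), ConvexOn ℝ Set.univ Φ → 0 < η →
  ∃ (L : ℕ) (a b : Fin L → ℝ), Lin Φ η a b

/-- XFS: the invariant sets of the `n`-side (from `T_BK`). -/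
def T_XFS : Prop := ∀ (z : Bool) (h R L : ℕ) (Φ : ℝ → ℝ) (c η η₀ : ℝ) (a b : Fin L → ℝ)
  (PX : Measure Xi), ConvexOn ℝ Set.univ Φ → 0 < R → 0 ≤ η → Lin Φ η a b →
  SysX (fun _ => 1) 0 PX →
  (∀ K : ℕ, 0 < K → η₀ ≤ ∫ ξ, vR R (ξ 0).2 * (Φ (Av shX 1 K (gX z h) ξ) - c) ∂PX) →
  ∃ F : Fin L → Set Xi, PtX F ∧ η₀ - η ≤ ∑ l, ∫ ξ in F l, fL z h R c a b l ξ ∂PX

/-- XMO: the labels along the primes on the `y`-side. -/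
def T_XMO : Prop := ∀ (R : ℕ) (U : Ultrafilter ℕ) (x y : ℕ → ℕ) (τ : ℕ → ℕ → Bool)
  (P : Measure Yi), Aw U x y → LwY U x y τ P →
  (∀ p p' : ℕ, 0 < p → p < p' → ldB U x y
    {n | ¬ (p * vR R (τ (n / p)) ≤ p' * vR R (τ (n / p')) + 2 * p' / R)} = 0) →
  ∀ᵐ ω ∂P, ∀ p p' : ℕ, 0 < p → p < p' →
    p * vR R (xiY p ω 0).2 ≤ p' * vR R (xiY p' ω 0).2 + 2 * p' / R

/-- XMT: monotone weights. -/
def T_XMT : Prop := ∀ (R : ℕ) (v : ℕ → ℝ), 0 < R → (∀ p, 0 ≤ v p ∧ v p ≤ 1) →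
  (∀ p p' : ℕ, p.Prime → p'.Prime → p < p' → p * v p ≤ p' * v p' + 2 * p' / R) →
  ∃ w : ℕ → ℝ, Wt w ∧ ∀ m : ℕ, ∀ p ∈ Pset 2 m, |w p - v p| ≤ 2 / R

/-- XEQ: the `n`-side in terms of the components of the `y`-side. -/
def T_XEQ : Prop := ∀ (PX : Measure Xi) (P : Measure Yi) (κ : Kernel Yi Yi) [IsMarkovKernel κ]
  (L m : ℕ) (F : Fin L → Set Xi) (f : Fin L → Xi → ℝ), IsProbabilityMeasure PX → SysY PX P →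
  (∀ B, MeasurableSet B → P B = ∫⁻ ω, κ ω B ∂P) → (∀ l, MeasurableSet (F l)) →
  (∀ l, Measurable (f l)) → (∃ C, ∀ l ξ, |f l ξ| ≤ C) → (Pset 2 m).Nonempty →
  Measurable (fun ω => avgP 2 m (fun p => ∑ l, p *
    ∫ ω' in flY p ∩ xiY p ⁻¹' (F l), f l (xiY p ω') ∂(κ ω))) ∧
  ∑ l, ∫ ξ in F l, f l ξ ∂PX = ∫ ω, avgP 2 m (fun p => ∑ l, p *
    ∫ ω' in flY p ∩ xiY p ⁻¹' (F l), f l (xiY p ω') ∂(κ ω)) ∂P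

/-- XEX: the exceptional sets. -/
def T_XEX : Prop := ∀ (PX : Measure Xi) (P : Measure Yi) (κ : Kernel Yi Yi) [IsMarkovKernel κ]
  (h m : ℕ), SysY PX P → (∀ B, MeasurableSet B → P B = ∫⁻ ω, κ ω B ∂P) → (Pset 2 m).Nonempty →
  Measurable (fun ω => avgP 2 m (fun p =>
    p * (κ ω).real (flY p ∩ (ExY p 1 ∪ ExY p (h + 1))))) ∧
  (∃ C : ℝ, ∀ ω, |avgP 2 m (fun p =>
    p * (κ ω).real (flY p ∩ (ExY p 1 ∪ ExY p (h + 1))))| ≤ C) ∧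
  ∫ ω, avgP 2 m (fun p => p * (κ ω).real (flY p ∩ (ExY p 1 ∪ ExY p (h + 1)))) ∂P ≤ 2 / 2 ^ m

/-- XJM: the main term is measurable and bounded. -/
def T_XJM : Prop := ∀ (z : Bool) (h R m : ℕ) (Φ : ℝ → ℝ) (c B : ℝ) (κ : Kernel Yi Yi)
  [IsMarkovKernel κ], 0 < R → ConvexOn ℝ Set.univ Φ → (∀ t, |t| ≤ 1 → |Φ t| + |c| ≤ B) →
  Measurable (jX z h R Φ c κ m) ∧ ∀ ω, |jX z h R Φ c κ m ω| ≤ B

/-- XJL: the limit of the main term on a component (from `T_KCP`, `T_XMT`, `T_LBV`). -/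
def T_XJL : Prop := ∀ (z : Bool) (h R : ℕ) (Φ : ℝ → ℝ) (δ B : ℝ) (κ : Kernel Yi Yi)
  [IsMarkovKernel κ] (ω : Yi), 0 < h → 0 < R → ConvexOn ℝ Set.univ Φ → DnX z h δ →
  (∀ t, |t| ≤ 1 → |Φ t| + |cU Φ δ| ≤ B) → CompY (κ ω) →
  (∀ᵐ ω' ∂(κ ω), ∀ p p' : ℕ, 0 < p → p < p' →
    p * vR R (xiY p ω' 0).2 ≤ p' * vR R (xiY p' ω' 0).2 + 2 * p' / R) →
  ∀ η : ℝ, 0 < η → ∃ m₀ : ℕ, ∀ m, m₀ ≤ m → jX z h R Φ (cU Φ δ) κ m ω ≤ 2 * B / R + η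

/-- XWS: the weight of the scales which do not decouple. -/
def T_XWS : Prop := ∀ (Ω : Type) [MeasurableSpace Ω] (P : Measure Ω) [IsProbabilityMeasure P]
  (D : ℕ → Set Ω) (M : Finset ℕ) (wt : ℕ → ℝ) (ρ : ℝ), (∀ m, MeasurableSet (D m)) →
  (∀ m ∈ M, 0 ≤ wt m) →
  (∀ᵐ ω ∂P, ∀ B ⊆ M, (∀ m ∈ B, ω ∉ D m) → ∑ m ∈ B, wt m ≤ ρ) →
  ∑ m ∈ M, wt m * P.real (D m)ᶜ ≤ ρ

/-- XCI: the inequality on a component at a scale which decouples (from `T_DVS`, `T_THC`). -/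
def T_XCI : Prop := ∀ (z : Bool) (h R L m : ℕ) (Φ : ℝ → ℝ) (c η θ B : ℝ) (a b : Fin L → ℝ)
  (F : Fin L → Set Xi) (ν : Measure Yi) (lb : ℕ → ℕ → Bool), 0 < R → 0 ≤ θ → Lin Φ η a b →
  PtX F → (∀ l, |a l| + |b l| + |c| ≤ B) → (∀ t, |t| ≤ 1 → |Φ t| + |c| ≤ B) → CompY ν →
  (∀ p : ℕ, p.Prime → ∀ᵐ ω ∂ν, (xiY p ω 0).2 = lb p) → (Pset 2 m).Nonempty →
  DcX shY btY flY (h + 1) θ ν m →
  avgP 2 m (fun p => ∑ l, p * ∫ ω in flY p ∩ xiY p ⁻¹' (F l), fL z h R c a b l (xiY p ω) ∂ν) ≤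
    avgP 2 m (fun p => vR R (lb p) * (Φ (gC z ν (p * h)) - c)) + 4 * B * θ +
      4 * B * avgP 2 m (fun p => p * ν.real (flY p ∩ (ExY p 1 ∪ ExY p (h + 1))))

/-- XCB: the trivial bound on a component (from `T_DVS`). -/
def T_XCB : Prop := ∀ (z : Bool) (h R L m : ℕ) (c B : ℝ) (a b : Fin L → ℝ)
  (F : Fin L → Set Xi) (ν : Measure Yi), 0 < R → PtX F → (∀ l, |a l| + |b l| + |c| ≤ B) →
  CompY ν → (Pset 2 m).Nonempty →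
  |avgP 2 m (fun p => ∑ l, p * ∫ ω in flY p ∩ xiY p ⁻¹' (F l), fL z h R c a b l (xiY p ω) ∂ν)| ≤ B

/-! ### Section 8: decoupling -/

/-- DCX: entropy decrement, two-sided (the proof of `T_DCC` with a better inequality). -/
def T_DCX : Prop := ∀ (α : Type) [Fintype α] [MeasurableSpace α] [MeasurableSingletonClass α]
  (R m₀ : ℕ) (θ ρ : ℝ), 0 < θ → 0 < ρ →
  ∃ (M : Finset ℕ) (wt : ℕ → ℝ),
    (∀ m ∈ M, m₀ ≤ m ∧ (Pset 2 m).Nonempty ∧ 0 ≤ wt m) ∧ ∑ m ∈ M, wt m = 1 ∧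
    ∀ (Ω : Type) [MeasurableSpace Ω] (κ : Measure Ω) [IsProbabilityMeasure κ] (T : Ω ≃ᵐ Ω)
      (a : Ω → α) (fl : ℕ → Set Ω), Ergodic T κ → Measurable a → (∀ p, MeasurableSet (fl p)) →
      (∀ p : ℕ, p.Prime → ∀ᵐ ω ∂κ, (ω ∈ fl p ↔ T^[p] ω ∈ fl p) ∧
        ∃! i : ℕ, i < p ∧ T^[i] ω ∈ fl p) →
      ∀ B ⊆ M, (∀ m ∈ B, ¬ DcX T a fl R θ κ m) → ∑ m ∈ B, wt m ≤ ρ

/-- SDX: measurability of the set of the components which decouple (as `T_SDM`). -/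
def T_SDX : Prop := ∀ (κ : Kernel Yi Yi) [IsMarkovKernel κ] (R m : ℕ) (θ : ℝ),
  MeasurableSet {ω | DcX shY btY flY R θ (κ ω) m}

/-- XLM: limits of integrals. -/
def T_XLM : Prop := ∀ (Ω : Type) [MeasurableSpace Ω] (P : Measure Ω) [IsProbabilityMeasure P]
  (J : ℕ → Ω → ℝ) (B t : ℝ), (∀ m, Measurable (J m)) → (∀ m ω, |J m ω| ≤ B) →
  (∀ᵐ ω ∂P, ∀ η : ℝ, 0 < η → ∃ m₀ : ℕ, ∀ m, m₀ ≤ m → J m ω ≤ t + η) →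
  ∀ η : ℝ, 0 < η → ∃ m₀ : ℕ, ∀ m, m₀ ≤ m → ∫ ω, J m ω ∂P ≤ t + η

/-- XJN: from one window length to all (Jensen). -/
def T_XJN : Prop := ∀ (z : Bool) (h : ℕ) (Φ : ℝ → ℝ) (δ : ℝ), ConvexOn ℝ Set.univ Φ →
  CoreX z h Φ δ → ThmX z h Φ δ

end Pool.Agent.H83.X
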