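import Pool.Agent.H83.V.FV
import Pool.Agent.H40.AG.TargetsE
import Pool.Agent.H67.AG.T1
import Pool.Agent.H24.AG.Targets

/-!
Theorem X (local two-point correlations are dominated by the uniform law): definitions.
-/

set_option autoImplicit false

open MeasureTheory ProbabilityTheory Filter Topology Finset
open scoped Nat ENNReal

namespace Pool.Agent.H83.X

open Pool.Agent.H24.T2 (Pset)
open Pool.Agent.H24.AG (ee)
open Pool.Agent.H28.MCL (ldB Aw)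
open Pool.Agent.H67.AG (avgP ul Inv Rt Av)
open Pool.Agent.H28.LF (lt ng SS ptS LX Xi LY Yi shX shY lX lY btY flY xiY SysX SysY CompY LwY ExY
  Wa DcO)
open Pool.Agent.H83.V (vl fz)

/-! ### the statement -/

/-- half of the integral of `Φ(δ t)` over `[-1, 1]` -/
noncomputable def cU (Φ : ℝ → ℝ) (δ : ℝ) : ℝ := (∫ t in (-1 : ℝ)..1, Φ (δ * t)) / 2

/-- the mean of `f(m) f(m + h)` over `n < m ≤ n + H` (`f = λ` for `z = true`, `f = μ` for
`z = false`) -/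
noncomputable def aH (z : Bool) (h H n : ℕ) : ℝ :=
  (∑ j ∈ range H, ((fz z (n + j + 1) * fz z (n + j + 1 + h) : ℤ) : ℝ)) / H

/-- the mean over `n ≤ N` of `Φ` of the local correlation -/
noncomputable def mH (z : Bool) (h : ℕ) (Φ : ℝ → ℝ) (H N : ℕ) : ℝ :=
  (∑ n ∈ Icc 1 N, Φ (aH z h H n)) / N

open Classical in
/-- the core of Theorem X: one window length -/
def CoreX (z : Bool) (h : ℕ) (Φ : ℝ → ℝ) (δ : ℝ) : Prop := ∀ ε ρ : ℝ, 0 < ε → 0 < ρ →
  ∃ K C : ℕ, 0 < K ∧ ∀ x y : ℕ, 0 < x → C * x ≤ y →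
    ∑ N ∈ (Icc x y).filter (fun N => cU Φ δ + ε < mH z h Φ K N), (1 : ℝ) / N ≤
      ρ * Real.log ((y : ℝ) / x)

open Classical in
/-- **Theorem X** -/
def ThmX (z : Bool) (h : ℕ) (Φ : ℝ → ℝ) (δ : ℝ) : Prop := ∀ ε ρ : ℝ, 0 < ε → 0 < ρ →
  ∃ K : ℕ, ∀ H x y : ℕ, K ≤ H → H ≤ x → K * x ≤ y →
    ∑ N ∈ (Icc x y).filter (fun N => cU Φ δ + ε < mH z h Φ H N), (1 : ℝ) / N ≤
      ρ * Real.log ((y : ℝ) / x)

open Classical in
/-- `δ` is the density of the `n` with `f(n) f(n + h) ≠ 0` -/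
def DnX (z : Bool) (h : ℕ) (δ : ℝ) : Prop :=
  Tendsto (fun N : ℕ => (((Icc 1 N).filter fun n => fz z n * fz z (n + h) ≠ 0).card : ℝ) / N)
    atTop (𝓝 δ)

/-! ### weights on the primes -/

/-- admissible weights on the primes: `0 ≤ w ≤ 1` and `p w(p)` does not decrease in
`(2 ^ m, 2 ^ (m + 1)]` -/
structure Wt (w : ℕ → ℝ) : Prop where
  nn : ∀ p, 0 ≤ w p
  le : ∀ p, w p ≤ 1
  mo : ∀ m : ℕ, ∀ p ∈ Pset 2 m, ∀ p' ∈ Pset 2 m, p ≤ p' → p * w p ≤ p' * w p'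

/-! ### trigonometric polynomials -/

/-- `1, α_1, ..., α_a` are linearly independent over the rationals -/
def Ind {a : ℕ} (α : Fin a → ℝ) : Prop :=
  ∀ (k : Fin a → ℤ) (l : ℤ), ∑ i, (k i : ℝ) * α i = l → k = 0

/-- the value at `n` of the trigonometric polynomial with the coefficients `c` at the frequencies
`k · α`, `k ∈ s` -/
noncomputable def tv {a : ℕ} (α : Fin a → ℝ) (s : Finset (Fin a → ℤ)) (c : (Fin a → ℤ) → ℂ)
    (n : ℕ) : ℂ :=
  ∑ k ∈ s, c k * ee (n * ∑ i, (k i : ℝ) * α i)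

theorem ee_add (x y : ℝ) : ee (x + y) = ee x * ee y := by
  unfold ee
  rw [← Complex.exp_add]
  congr 1
  push_cast
  ring

theorem ee_zero : ee 0 = 1 := by
  unfold ee
  simp

/-- the character `k ↦ e(n (k · α))` -/
noncomputable def chr {a : ℕ} (α : Fin a → ℝ) (n : ℕ) : Multiplicative (Fin a → ℤ) →* ℂ where
  toFun k := ee (n * ∑ i, ((Multiplicative.toAdd k) i : ℝ) * α i)
  map_one' := by
    rw [toAdd_one]
    simp [ee_zero]
  map_mul' k l := by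
    rw [toAdd_mul, ← ee_add, ← mul_add, ← Finset.sum_add_distrib]
    congr 2
    refine Finset.sum_congr rfl fun i _ => ?_
    rw [Pi.add_apply]
    push_cast
    ring

/-- evaluation of a trigonometric polynomial, as an element of the group algebra -/
noncomputable def ev {a : ℕ} (α : Fin a → ℝ) (n : ℕ) :
    AddMonoidAlgebra ℂ (Fin a → ℤ) →ₐ[ℂ] ℂ :=
  AddMonoidAlgebra.lift ℂ ℂ (Fin a → ℤ) (chr α n)

/-! ### eigenfunctions -/

/-- `g` is the projection of `f` to the functions with eigenvalue `e(θ)` -/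
structure Eig {Ω : Type} [MeasurableSpace Ω] (P : Measure Ω) (T : Ω ≃ᵐ Ω) (f : Ω → ℝ) (θ : ℝ)
    (g : Ω → ℂ) : Prop where
  meas : Measurable g
  bd : ∀ ω, ‖g ω‖ ≤ 2
  eq : ∀ᵐ ω ∂P, g (T ω) = ee θ * g ω
  lim : Tendsto (fun N : ℕ => ∫ ω, ‖(∑ n ∈ range N, ee (-(n * θ)) * (f (T^[n] ω) : ℂ)) / N -
    g ω‖ ^ 2 ∂P) atTop (𝓝 0)

/-! ### squarefree numbers -/

/-- the product of the squares of the primes up to `w` -/
def Qw (w : ℕ) : ℕ := ∏ p ∈ (range (w + 1)).filter Nat.Prime, p ^ 2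

/-- not divisible by the square of a prime up to `w` -/
def gd (w r : ℕ) : Prop := ∀ p : ℕ, p.Prime → p ≤ w → ¬ p ^ 2 ∣ r

open Classical in
/-- density of the `r` with `gd w r` and `gd w (r + n)` -/
noncomputable def Dw (w n : ℕ) : ℝ :=
  (((range (Qw w)).filter fun r => gd w r ∧ gd w (r + n)).card : ℝ) / Qw w

/-! ### the systems -/

/-- value of a label -/
noncomputable def vR (R : ℕ) (b : ℕ → Bool) : ℝ := (∑ s ∈ range R, if b s then (1 : ℝ) else 0) / R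

/-- logarithmic mean along an ultrafilter and the windows `[x j, y j]` -/
noncomputable def ldI (U : Ultrafilter ℕ) (x y : ℕ → ℕ) (F : ℕ → ℝ) : ℝ :=
  limUnder (U : Filter ℕ)
    (fun j => (∑ n ∈ Icc (x j) (y j), F n / n) / Real.log ((y j : ℝ) / x j))

/-- the product of two values on the `n`-side -/
noncomputable def gX (z : Bool) (h : ℕ) (ξ : Xi) : ℝ :=
  (vl z (ξ 1).1 : ℝ) * (vl z (ξ (1 + h)).1 : ℝ)

/-- the correlation on the `y`-side -/
noncomputable def gC (z : Bool) (ν : Measure Yi) (n : ℕ) : ℝ :=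
  ∫ ω, (vl z (btY ω) : ℝ) * (vl z (btY (shY^[n] ω)) : ℝ) ∂ν

/-- decoupling at the scale `m`, in both directions -/
def DcX {Ω α : Type} [MeasurableSpace Ω] (T : Ω → Ω) (a : Ω → α) (fl : ℕ → Set Ω) (R : ℕ) (θ : ℝ)
    (κ : Measure Ω) (m : ℕ) : Prop :=
  ∃ X : Finset ℕ, (X.card : ℝ) ≤ θ * (Pset 2 m).card ∧ ∀ p ∈ Pset 2 m, p ∉ X →
    ∀ G : Set (Fin R → α), |κ.real {ω | Wa T a R p ω ∈ G} -
      p * κ.real (fl p ∩ {ω | Wa T a R p ω ∈ G})| ≤ θ

/-- below the graph of `Φ`, up to `η`: the lines `a l t + b l` -/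
structure Lin (Φ : ℝ → ℝ) (η : ℝ) {L : ℕ} (a b : Fin L → ℝ) : Prop where
  le : ∀ l t, |t| ≤ 1 → a l * t + b l ≤ Φ t
  ge : ∀ t, |t| ≤ 1 → ∃ l, Φ t ≤ a l * t + b l + η

/-- the partition of the `n`-side -/
structure PtX {L : ℕ} (F : Fin L → Set Xi) : Prop where
  meas : ∀ l, MeasurableSet (F l)
  inv : ∀ l, shX ⁻¹' (F l) = F l
  par : ∀ ξ, ∃! l, ξ ∈ F l

/-- the function which is integrated over `F l` -/
noncomputable def fL (z : Bool) (h R : ℕ) (c : ℝ) {L : ℕ} (a b : Fin L → ℝ) (l : Fin L)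
    (ξ : Xi) : ℝ :=
  vR R (ξ 0).2 * (a l * gX z h ξ + b l - c)

/-- the main term on the components -/
noncomputable def jX (z : Bool) (h R : ℕ) (Φ : ℝ → ℝ) (c : ℝ) (κ : Kernel Yi Yi) (m : ℕ)
    (ω : Yi) : ℝ :=
  avgP 2 m (fun p => (∫ ω', vR R (xiY p ω' 0).2 ∂(κ ω)) * (Φ (gC z (κ ω) (p * h)) - c))

end Pool.Agent.H83.X
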