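import Pool.Agent.H83.X.T2

set_option autoImplicit false

open MeasureTheory ProbabilityTheory Filter Topology Finset
open scoped Nat ENNReal

namespace Pool.Agent.H83.X

open Pool.Agent.H24.T2 (Pset)
open Pool.Agent.H24.AG (ee)
open Pool.Agent.H67.AG (avgP ul Inv Rt Av)

theorem ee_norm (x : ℝ) : ‖ee x‖ = 1 := by
  unfold ee
  have : 2 * (Real.pi : ℂ) * Complex.I * (x : ℂ) = ((2 * Real.pi * x : ℝ) : ℂ) * Complex.I := by
    push_cast; ring
  rw [this, Complex.norm_exp_ofReal_mul_I]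

theorem ee_pow (x : ℝ) (n : ℕ) : ee x ^ n = ee (n * x) := by
  unfold ee
  rw [← Complex.exp_nat_mul]
  congr 1
  push_cast
  ring

theorem ee_eq_one {x : ℝ} (h : ee x = 1) : ∃ n : ℤ, x = n := by
  unfold ee at h
  obtain ⟨n, hn⟩ := Complex.exp_eq_one_iff.1 h
  refine ⟨n, ?_⟩
  have h2 : (2 * (Real.pi : ℂ) * Complex.I) ≠ 0 := by
    simp [Real.pi_ne_zero, Complex.I_ne_zero]
  have h3 : (2 * (Real.pi : ℂ) * Complex.I) * ((x : ℂ) - n) = 0 := by
    linear_combination hn
  rcases mul_eq_zero.1 h3 with h4 | h4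
  · exact absurd h4 h2
  · have : (x : ℂ) = ((n : ℝ) : ℂ) := by
      rw [sub_eq_zero] at h4
      rw [h4]; push_cast; rfl
    exact_mod_cast this

theorem geom_bd {x : ℝ} (h : ee x ≠ 1) (N : ℕ) :
    ‖∑ n ∈ range N, ee (n * x)‖ ≤ 2 / ‖ee x - 1‖ := by
  have e1 : ∑ n ∈ range N, ee (n * x) = ∑ n ∈ range N, ee x ^ n :=
    sum_congr rfl fun n _ => (ee_pow x n).symm
  rw [e1, geom_sum_eq h, norm_div]
  refine div_le_div_of_nonneg_right ?_ (norm_nonneg _)
  calc ‖ee x ^ N - 1‖ ≤ ‖ee x ^ N‖ + ‖(1 : ℂ)‖ := norm_sub_le _ _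
    _ = 2 := by rw [norm_pow, ee_norm]; norm_num

/-- the iterates of an eigenfunction -/
theorem eig_iter {Ω : Type} [MeasurableSpace Ω] {P : Measure Ω} {T : Ω ≃ᵐ Ω}
    (mp : MeasurePreserving T P P) {f : Ω → ℝ} {θ : ℝ} {g : Ω → ℂ} (h : Eig P T f θ g) (n : ℕ) :
    ∀ᵐ ω ∂P, g (T^[n] ω) = ee (n * θ) * g ω := by
  induction n with
  | zero => exact Eventually.of_forall fun ω => by simp [ee_zero]
  | succ n ih =>
    have h1 := (mp.iterate n).quasiMeasurePreserving.ae h.eq
    filter_upwards [ih, h1] with ω h2 h3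
    rw [Function.iterate_succ_apply', h3, h2, ← mul_assoc, ← ee_add]
    congr 2
    push_cast
    ring

/-- APB: the projections of `s - F` -/
theorem pf_APB : T_APB := by
  classical
  intro Ω _ P _ T s F A k g θ mp hs hsb hF hFb hA hg hFe h0 h1 hgθ
  -- the bound for the function `F`
  set c : ℝ → ℝ := fun γ => if γ = θ then 0 else 2 / ‖ee (γ - θ) - 1‖ with hc
  set C : ℝ := ∑ γ ∈ A, 2 * c γ with hC
  have hc0 : ∀ γ, 0 ≤ c γ := by
    intro γ
    simp only [hc]
    split_ifs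
    · exact le_rfl
    · positivity
  have hFn : ∀ᵐ ω ∂P, ∀ n : ℕ, (F (T^[n] ω) : ℂ) = ∑ γ ∈ A, (k γ : ℂ) * (ee (n * γ) * g γ ω) := by
    rw [ae_all_iff]
    intro n
    have h2 := (mp.iterate n).quasiMeasurePreserving.ae hFe
    have h3 : ∀ᵐ ω ∂P, ∀ γ ∈ A, g γ (T^[n] ω) = ee (n * γ) * g γ ω :=
      (Filter.eventually_all_finset A).2 fun γ hγ => eig_iter mp (hg γ hγ) n
    filter_upwards [h2, h3] with ω h4 h5
    rw [h4]
    exact sum_congr rfl fun γ hγ => by rw [h5 γ hγ]
  set G : Ω → ℂ := fun ω => if θ ∈ A then (k θ : ℂ) * g θ ω else 0 with hG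
  have hFb2 : ∀ᵐ ω ∂P, ∀ N : ℕ, 0 < N →
      ‖(∑ n ∈ range N, ee (-(n * θ)) * (F (T^[n] ω) : ℂ)) / N - G ω‖ ≤ C / N := by
    filter_upwards [hFn] with ω hω N hN
    have hN' : (0 : ℝ) < N := by exact_mod_cast hN
    have hNc : (N : ℂ) ≠ 0 := by exact_mod_cast hN.ne'
    have e1 : ∑ n ∈ range N, ee (-(n * θ)) * (F (T^[n] ω) : ℂ) =
        ∑ γ ∈ A, (k γ : ℂ) * g γ ω * ∑ n ∈ range N, ee (n * (γ - θ)) := by
      simp only [hω, mul_sum]
      rw [sum_comm]
      refine sum_congr rfl fun γ _ => sum_congr rfl fun n _ => ?_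
      have : ee (n * (γ - θ)) = ee (-(n * θ)) * ee (n * γ) := by
        rw [← ee_add]; congr 1; ring
      rw [this]; ring
    have e2 : G ω = ∑ γ ∈ A, (if γ = θ then (k γ : ℂ) * g γ ω else 0) := by
      rw [sum_ite_eq' A θ (fun γ => (k γ : ℂ) * g γ ω)]
    have e3 : (∑ n ∈ range N, ee (-(n * θ)) * (F (T^[n] ω) : ℂ)) / N - G ω =
        ∑ γ ∈ A, (if γ = θ then 0 else
          (k γ : ℂ) * g γ ω * (∑ n ∈ range N, ee (n * (γ - θ))) / N) := by
      rw [e1, e2, sum_div, ← sum_sub_distrib]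
      refine sum_congr rfl fun γ _ => ?_
      split_ifs with hγ
      · subst hγ
        simp only [sub_self, mul_zero, ee_zero, sum_const, card_range, nsmul_eq_mul, mul_one]
        field_simp
        ring
      · ring
    rw [e3]
    calc _ ≤ ∑ γ ∈ A, ‖(if γ = θ then (0 : ℂ) else
          (k γ : ℂ) * g γ ω * (∑ n ∈ range N, ee (n * (γ - θ))) / N)‖ := norm_sum_le _ _
      _ ≤ ∑ γ ∈ A, 2 * c γ / N := by
          refine sum_le_sum fun γ hγ => ?_
          simp only [hc]
          split_ifs with hγθ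
          · simp
          · have hne : ee (γ - θ) ≠ 1 := by
              intro h
              obtain ⟨n, hn⟩ := ee_eq_one h
              obtain ⟨a1, a2, -, -⟩ := hA γ hγ
              have h3 : (-1 : ℝ) < n := by rw [← hn]; linarith
              have h4 : (n : ℝ) < 1 := by rw [← hn]; linarith
              have h5 : -1 < n := by exact_mod_cast h3
              have h6 : n < 1 := by exact_mod_cast h4
              have h7 : n = 0 := by omega
              rw [h7] at hn
              exact hγθ (by push_cast at hn; linarith)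
            rw [norm_div, norm_mul, norm_mul, Complex.norm_real, Real.norm_eq_abs,
              Complex.norm_natCast]
            refine div_le_div_of_nonneg_right ?_ hN'.le
            obtain ⟨-, -, a3, a4⟩ := hA γ hγ
            have h8 : |k γ| * ‖g γ ω‖ ≤ 1 * 2 :=
              mul_le_mul (by rw [abs_of_nonneg a3]; exact a4) ((hg γ hγ).bd ω) (norm_nonneg _)
                zero_le_one
            calc _ ≤ 1 * 2 * (2 / ‖ee (γ - θ) - 1‖) :=
                  mul_le_mul h8 (geom_bd hne N) (norm_nonneg _) (by norm_num)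
              _ = _ := by ring
      _ = C / N := by rw [hC, sum_div]
  have hkθ : θ ∈ A → ‖(1 : ℂ) - (k θ : ℂ)‖ ≤ 1 := by
    intro h
    obtain ⟨-, -, a3, a4⟩ := hA θ h
    have : (1 : ℂ) - (k θ : ℂ) = ((1 - k θ : ℝ) : ℂ) := by push_cast; ring
    rw [this, Complex.norm_real, Real.norm_eq_abs, abs_of_nonneg (by linarith)]
    linarith
  refine ⟨?_, ?_, ?_, ?_⟩
  · split_ifs
    · exact measurable_const.mul hgθ.meas
    · exact hgθ.meas
  · intro ω
    by_cases h : θ ∈ A
    · simp only [h, if_true]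
      rw [norm_mul]
      calc _ ≤ 1 * 2 := mul_le_mul (hkθ h) (hgθ.bd ω) (norm_nonneg _) zero_le_one
        _ = 2 := by ring
    · simp only [h, if_false]
      exact hgθ.bd ω
  · filter_upwards [hgθ.eq] with ω hω
    rw [hω]
    split_ifs <;> ring
  · have hC0 : 0 ≤ C := sum_nonneg fun γ _ => mul_nonneg (by norm_num) (hc0 γ)
    have hlim : Tendsto (fun N : ℕ => 2 * (∫ ω, ‖(∑ n ∈ range N, ee (-(n * θ)) *
        (s (T^[n] ω) : ℂ)) / N - g θ ω‖ ^ 2 ∂P) + 2 * (C / N) ^ 2) atTop (𝓝 0) := by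
      have h2 : Tendsto (fun N : ℕ => C / (N : ℝ)) atTop (𝓝 0) :=
        tendsto_const_div_atTop_nhds_zero_nat C
      have h3 := (hgθ.lim.const_mul 2).add ((h2.pow 2).const_mul 2)
      simpa using h3
    refine tendsto_of_tendsto_of_tendsto_of_le_of_le' tendsto_const_nhds hlim
      (Eventually.of_forall fun N => integral_nonneg fun ω => by positivity) ?_
    filter_upwards [eventually_gt_atTop 0] with N hN
    have hms : ∀ n : ℕ, Measurable fun ω => ee (-(n * θ)) * (s (T^[n] ω) : ℂ) := fun n =>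
      measurable_const.mul (Complex.measurable_ofReal.comp (hs.comp (T.measurable.iterate n)))
    have hbs : ∀ ω, ‖(∑ n ∈ range N, ee (-(n * θ)) * (s (T^[n] ω) : ℂ)) / N - g θ ω‖ ≤ 3 := by
      intro ω
      have hN' : (0 : ℝ) < N := by exact_mod_cast hN
      have h3 : ‖(∑ n ∈ range N, ee (-(n * θ)) * (s (T^[n] ω) : ℂ)) / N‖ ≤ 1 := by
        rw [norm_div, Complex.norm_natCast, div_le_one hN']
        calc _ ≤ ∑ n ∈ range N, ‖ee (-(n * θ)) * (s (T^[n] ω) : ℂ)‖ := norm_sum_le _ _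
          _ ≤ ∑ n ∈ range N, (1 : ℝ) := by
              refine sum_le_sum fun n _ => ?_
              rw [norm_mul, ee_norm, one_mul, Complex.norm_real, Real.norm_eq_abs]
              exact hsb _
          _ = N := by simp
      have h4 := norm_sub_le ((∑ n ∈ range N, ee (-(n * θ)) * (s (T^[n] ω) : ℂ)) / N) (g θ ω)
      have h5 := hgθ.bd ω
      linarith
    have hint : Integrable (fun ω => ‖(∑ n ∈ range N, ee (-(n * θ)) * (s (T^[n] ω) : ℂ)) / N -
        g θ ω‖ ^ 2) P := by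
      refine Integrable.of_bound (C := 9) ?_ (Eventually.of_forall fun ω => ?_)
      · exact ((((Finset.measurable_sum _ fun n _ => hms n).div_const _).sub
          hgθ.meas).norm.pow_const 2).aestronglyMeasurable
      · rw [Real.norm_eq_abs, abs_of_nonneg (by positivity)]
        have := hbs ω
        have h6 := norm_nonneg ((∑ n ∈ range N, ee (-(n * θ)) * (s (T^[n] ω) : ℂ)) / N - g θ ω)
        nlinarith
    rw [← integral_const_mul]
    have e5 : ∫ _ω : Ω, 2 * (C / (N : ℝ)) ^ 2 ∂P = 2 * (C / (N : ℝ)) ^ 2 := by simp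
    rw [← e5, ← integral_add (hint.const_mul 2) (integrable_const _)]
    refine integral_mono_of_nonneg (Eventually.of_forall fun ω => by positivity)
      ((hint.const_mul 2).add (integrable_const _)) ?_
    filter_upwards [hFb2] with ω hω
    have h6 := hω N hN
    set a := (∑ n ∈ range N, ee (-(n * θ)) * (s (T^[n] ω) : ℂ)) / N - g θ ω with ha
    set b := (∑ n ∈ range N, ee (-(n * θ)) * (F (T^[n] ω) : ℂ)) / N - G ω with hb
    have e6 : (∑ n ∈ range N, ee (-(n * θ)) * ((s (T^[n] ω) - F (T^[n] ω) : ℝ) : ℂ)) / N -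
        (if θ ∈ A then (1 - (k θ : ℂ)) * g θ ω else g θ ω) = a - b := by
      rw [ha, hb]
      have e7 : ∑ n ∈ range N, ee (-(n * θ)) * ((s (T^[n] ω) - F (T^[n] ω) : ℝ) : ℂ) =
          ∑ n ∈ range N, ee (-(n * θ)) * (s (T^[n] ω) : ℂ) -
            ∑ n ∈ range N, ee (-(n * θ)) * (F (T^[n] ω) : ℂ) := by
        rw [← sum_sub_distrib]
        refine sum_congr rfl fun n _ => ?_
        push_cast
        ring
      rw [e7]
      simp only [hG]
      split_ifs <;> ring
    rw [e6]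
    have h7 : ‖a - b‖ ≤ ‖a‖ + ‖b‖ := norm_sub_le _ _
    have h8 : ‖b‖ ^ 2 ≤ (C / N) ^ 2 := by
      have := norm_nonneg b
      exact pow_le_pow_left₀ this h6 2
    have h9 : 0 ≤ ‖a - b‖ := norm_nonneg _
    have h10 : ‖a - b‖ ^ 2 ≤ (‖a‖ + ‖b‖) ^ 2 := pow_le_pow_left₀ h9 h7 2
    nlinarith [sq_nonneg (‖a‖ - ‖b‖)]

end Pool.Agent.H83.X
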