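import Pool.Agent.H83.X.T2

set_option autoImplicit false

open MeasureTheory ProbabilityTheory Filter Topology Finset
open scoped Nat ENNReal

namespace Pool.Agent.H83.X

open Pool.Agent.H24.T2 (Pset)
open Pool.Agent.H24.AG (ee)
open Pool.Agent.H67.AG (avgP ul Inv Rt Av)

theorem ee_nz_one : ee 0 = 1 := ee_zero

/-- APX: the approximation exists -/
theorem pf_APX (h1 : T_EIG) (h2 : T_EGR) (h3 : T_SPX) (h4 : T_FOL) (h5 : T_APA) (h6 : T_APB) :
    T_APX := by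
  classical
  intro Ω _ P _ T s η hT hs hb hz hη
  have mp := hT.toMeasurePreserving
  have hb2 : ∀ ω, |s ω| ≤ 2 := fun ω => (hb ω).trans (by norm_num)
  choose g hg using fun θ : ℝ => h1 Ω P T s θ mp hs hb2
  obtain ⟨σs, hσf, hσr, hσa⟩ := h3 Ω P T s mp hs hb2
  set I : ℝ → ℝ := fun θ => ∫ ω, ‖g θ ω‖ ^ 2 ∂P with hI
  have hI0 : ∀ θ, 0 ≤ I θ := fun θ => integral_nonneg fun ω => by positivity
  -- total mass of the spectral measure of `s`
  have hs1 : σs.real Set.univ ≤ 1 := by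
    have e1 := hσr 0
    have e2 : ∫ x : Set.Ico (0 : ℝ) 1, ee ((x : ℝ) * ((0 : ℕ) : ℝ)) ∂σs =
        (σs.real Set.univ : ℂ) := by
      simp [ee_zero]
    rw [e2] at e1
    have e3 : ∫ ω, s ω * s (T^[0] ω) ∂P = σs.real Set.univ := by exact_mod_cast e1
    rw [← e3]
    have e4 : ∫ ω, s ω * s (T^[0] ω) ∂P ≤ ∫ _ω : Ω, (1 : ℝ) ∂P := by
      refine integral_mono_of_nonneg (Eventually.of_forall fun ω => ?_) (integrable_const _)
        (Eventually.of_forall fun ω => ?_)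
      · simp only [Function.iterate_zero, id_eq, Pi.zero_apply]
        exact mul_self_nonneg _
      · simp only [Function.iterate_zero, id_eq]
        have := abs_le.1 (hb ω)
        nlinarith
    simpa using e4
  have hfin : ∀ (τ : Measure (Set.Ico (0 : ℝ) 1)) [IsFiniteMeasure τ] (A : Finset ℝ),
      τ.real {x | (x : ℝ) ∈ A} = ∑ θ ∈ A, τ.real {x | (x : ℝ) = θ} := by
    intro τ _ A
    have e1 : {x : Set.Ico (0 : ℝ) 1 | (x : ℝ) ∈ A} =
        ⋃ θ ∈ A, {x : Set.Ico (0 : ℝ) 1 | (x : ℝ) = θ} := by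
      ext x
      simp
    rw [e1, measureReal_biUnion_finset]
    · intro a _ b _ hab
      rw [Function.onFun, Set.disjoint_left]
      intro x hx hx'
      exact hab (hx.symm.trans hx')
    · intro θ _
      exact measurableSet_eq_fun measurable_subtype_coe measurable_const
  have hsum : ∀ A : Finset ℝ, (∀ θ ∈ A, 0 ≤ θ ∧ θ < 1) → ∑ θ ∈ A, I θ ≤ 1 := by
    intro A hA
    have e1 : ∑ θ ∈ A, I θ = σs.real {x | (x : ℝ) ∈ A} := by
      rw [hfin σs A]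
      exact sum_congr rfl fun θ hθ => (hσa θ (g θ) (hA θ hθ).1 (hA θ hθ).2 (hg θ)).symm
    rw [e1]
    exact (measureReal_mono (Set.subset_univ _)).trans hs1
  -- a set which captures the atoms
  obtain ⟨A₀, hA₀, hmax⟩ : ∃ A₀ : Finset ℝ, (∀ θ ∈ A₀, 0 ≤ θ ∧ θ < 1) ∧
      ∀ A : Finset ℝ, (∀ θ ∈ A, 0 ≤ θ ∧ θ < 1) → ∑ θ ∈ A, I θ ≤ ∑ θ ∈ A₀, I θ + η / 2 := by
    set V : Set ℝ := {v | ∃ A : Finset ℝ, (∀ θ ∈ A, 0 ≤ θ ∧ θ < 1) ∧ v = ∑ θ ∈ A, I θ} with hV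
    have hne : V.Nonempty := ⟨0, ∅, by simp, by simp⟩
    have hbd : BddAbove V := ⟨1, by
      rintro v ⟨A, hA, rfl⟩
      exact hsum A hA⟩
    obtain ⟨v, ⟨A₀, hA₀, rfl⟩, hv⟩ := exists_lt_of_lt_csSup hne
      (show sSup V - η / 2 < sSup V by linarith)
    refine ⟨A₀, hA₀, fun A hA => ?_⟩
    have := le_csSup hbd (⟨A, hA, rfl⟩ : ∑ θ ∈ A, I θ ∈ V)
    linarith
  set e := min (η / 2) (1 / 2) with he
  have he0 : 0 < e := lt_min (by positivity) (by norm_num)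
  have he1 : e ≤ 1 / 2 := min_le_right _ _
  have he2 : e ≤ η / 2 := min_le_left _ _
  obtain ⟨A, k, hA, h0A, hk0, hk, hkS, hpos⟩ := h4 A₀ e he0
  obtain ⟨F, hFm, hFb, hFe⟩ := h5 Ω P T s A k g mp hs hb hA h0A hk0 hpos fun γ _ => hg γ
  have hFs : ∀ ω, |s ω - F ω| ≤ 2 := fun ω => by
    have := abs_sub (s ω) (F ω)
    linarith [hb ω, hFb ω]
  obtain ⟨σ, hσ1, hσ2, hσ3⟩ := h3 Ω P T (fun ω => s ω - F ω) mp (hs.sub hFm) hFs
  refine ⟨F, hFm, hFb, ⟨A.filter Irrational, fun β ω => (k β : ℂ) * g β ω, ?_, ?_, ?_⟩,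
    ⟨σ, hσ1, hσ2, ?_⟩⟩
  · intro β hβ
    exact (mem_filter.1 hβ).2
  · intro β _
    filter_upwards [(hg β).eq] with ω hω
    rw [hω]
    ring
  · have h7 : ∀ᵐ ω ∂P, ∀ γ ∈ A, ¬ Irrational γ → g γ ω = 0 := by
      refine (Filter.eventually_all_finset A).2 fun γ _ => ?_
      by_cases hγ : ¬ Irrational γ
      · filter_upwards [h2 Ω P T s γ (g γ) mp hs hb2 hz hγ (hg γ)] with ω hω _
        exact hω
      · exact Eventually.of_forall fun ω b => absurd b hγ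
    filter_upwards [hFe, h7] with ω h8 h9
    rw [h8, sum_filter]
    refine sum_congr rfl fun γ hγ => ?_
    split_ifs with hi
    · rfl
    · rw [h9 γ hγ hi, mul_zero]
  · intro A₁
    set A₂ := A₁.filter fun θ : ℝ => 0 ≤ θ ∧ θ < 1 with hA₂
    have hA₂' : ∀ θ ∈ A₂, 0 ≤ θ ∧ θ < 1 := fun θ hθ => (mem_filter.1 hθ).2
    have e1 : {x : Set.Ico (0 : ℝ) 1 | (x : ℝ) ∈ A₁} =
        {x : Set.Ico (0 : ℝ) 1 | (x : ℝ) ∈ A₂} := by
      ext x
      simp only [Set.mem_setOf_eq, hA₂, mem_filter]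
      exact ⟨fun h => ⟨h, x.2.1, x.2.2⟩, fun h => h.1⟩
    rw [e1, hfin σ A₂]
    have e2 : ∀ θ ∈ A₂, σ.real {x | (x : ℝ) = θ} ≤
        (if θ ∈ A₀ then e ^ 2 * I θ else I θ) := by
      intro θ hθ
      obtain ⟨h0, h1'⟩ := hA₂' θ hθ
      have h7 := h6 Ω P T s F A k g θ mp hs hb hFm hFb
        (fun γ hγ => ⟨(hA γ hγ).1, (hA γ hγ).2, (hk γ hγ).1, (hk γ hγ).2⟩) (fun γ _ => hg γ) hFe
        h0 h1' (hg θ)
      rw [hσ3 θ _ h0 h1' h7]
      have hfr : Int.fract θ = θ := Int.fract_eq_self.2 ⟨h0, h1'⟩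
      by_cases hθA : θ ∈ A
      · have e3 : ∫ ω, ‖(if θ ∈ A then (1 - (k θ : ℂ)) * g θ ω else g θ ω)‖ ^ 2 ∂P =
            (1 - k θ) ^ 2 * I θ := by
          simp only [hθA, if_true, hI]
          rw [← integral_const_mul]
          refine integral_congr_ae (Eventually.of_forall fun ω => ?_)
          simp only
          rw [norm_mul, mul_pow]
          congr 1
          have : (1 - (k θ : ℂ)) = ((1 - k θ : ℝ) : ℂ) := by push_cast; ring
          rw [this, Complex.norm_real, Real.norm_eq_abs, sq_abs]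
        rw [e3]
        have hk1 := hk θ hθA
        split_ifs with hθ0
        · have hk2 := (hkS θ hθ0).2
          rw [hfr] at hk2
          exact mul_le_mul_of_nonneg_right (by nlinarith) (hI0 θ)
        · have : (1 - k θ) ^ 2 ≤ 1 := by nlinarith
          nlinarith [hI0 θ]
      · have hθ0 : θ ∉ A₀ := fun h => hθA (by
          have := (hkS θ h).1
          rwa [hfr] at this)
        simp only [hθA, hθ0, if_false]
        exact le_rfl
    refine (sum_le_sum e2).trans ?_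
    have e3 : ∑ θ ∈ A₂, (if θ ∈ A₀ then e ^ 2 * I θ else I θ) =
        e ^ 2 * ∑ θ ∈ A₂ ∩ A₀, I θ + ∑ θ ∈ A₂ \ A₀, I θ := by
      rw [sum_ite, mul_sum]
      congr 1
      · refine sum_congr ?_ fun _ _ => rfl
        ext θ; simp
    rw [e3]
    have e4 : ∑ θ ∈ A₂ ∩ A₀, I θ ≤ 1 :=
      hsum _ fun θ hθ => hA₂' θ (mem_inter.1 hθ).1
    have e5 : ∑ θ ∈ A₂ \ A₀, I θ ≤ η / 2 := by
      have h7 := hmax (A₂ ∪ A₀) fun θ hθ => by
        rcases mem_union.1 hθ with h | h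
        · exact hA₂' θ h
        · exact hA₀ θ h
      have h8 : ∑ θ ∈ A₂ ∪ A₀, I θ = ∑ θ ∈ A₂ \ A₀, I θ + ∑ θ ∈ A₀, I θ := by
        rw [← sum_union sdiff_disjoint]
        congr 1
        ext θ; simp
      linarith
    have e6 : e ^ 2 ≤ η / 4 := by nlinarith
    have e7 : 0 ≤ e ^ 2 := by positivity
    have e8 : e ^ 2 * ∑ θ ∈ A₂ ∩ A₀, I θ ≤ e ^ 2 * 1 := mul_le_mul_of_nonneg_left e4 e7
    linarith

end Pool.Agent.H83.X
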