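import Pool.Agent.H83.X.T3
import Pool.Agent.H28.LF.FIN

/-!
Theorem X: from the targets to the statement.
-/

set_option autoImplicit false

open MeasureTheory ProbabilityTheory Filter Topology Finset
open scoped Nat ENNReal

namespace Pool.Agent.H83.X

open Pool.Agent.H24.T2 (Pset)
open Pool.Agent.H24.AG (ee)
open Pool.Agent.H28.MCL (ldB Aw)
open Pool.Agent.H67.AG (avgP ul Inv Rt Av)
open Pool.Agent.H28.LF (lt ng SS ptS LX Xi LY Yi shX shY lX lY btY flY xiY SysX SysY CompY LwY ExY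
  Wa DcO)
open Pool.Agent.H83.V (vl fz)

/-- the density is in `[0, 1]` -/
theorem dn_mem {z : Bool} {h : ℕ} {δ : ℝ} (hδ : DnX z h δ) : 0 ≤ δ ∧ δ ≤ 1 := by
  classical
  constructor
  · exact ge_of_tendsto' hδ fun N => by positivity
  · refine le_of_tendsto' hδ fun N => ?_
    rcases Nat.eq_zero_or_pos N with h0 | h0
    · subst h0; simp
    · have hN : (0 : ℝ) < N := by exact_mod_cast h0
      rw [div_le_one hN]
      have h1 := Finset.card_filter_le (Icc 1 N) (fun n => fz z n * fz z (n + h) ≠ 0)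
      rw [Nat.card_Icc] at h1
      have h2 : ((Icc 1 N).filter fun n => fz z n * fz z (n + h) ≠ 0).card ≤ N := by omega
      exact_mod_cast h2

theorem phi_bd {Φ : ℝ → ℝ} (hΦ : ConvexOn ℝ Set.univ Φ) (c : ℝ) :
    ∃ B : ℝ, 0 < B ∧ ∀ t, |t| ≤ 1 → |Φ t| + |c| ≤ B := by
  have hc : Continuous Φ := by
    have := hΦ.continuousOn isOpen_univ
    exact continuousOn_univ.1 this
  obtain ⟨C, hC⟩ := (isCompact_Icc (a := (-1 : ℝ)) (b := 1)).exists_bound_of_continuousOn
    hc.continuousOn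
  refine ⟨|C| + |c| + 1, by positivity, fun t ht => ?_⟩
  have h1 := hC t (abs_le.1 ht)
  rw [Real.norm_eq_abs] at h1
  have := le_abs_self C
  linarith

theorem coreX_of (hLB : T_XLB) (hSX : T_XSX) (hLN : T_XLN) (hFS : T_XFS) (hMO : T_XMO)
    (hEQ : T_XEQ) (hEX : T_XEX) (hJM : T_XJM) (hJL : T_XJL) (hWS : T_XWS) (hCI : T_XCI)
    (hCB : T_XCB) (hDC : T_DCX) (hSD : T_SDX) (hLM : T_XLM)
    (hLV : Pool.Agent.H83.V.T_LBV) (hE : Pool.Agent.H28.LF.T_YEX)
    (hW : Pool.Agent.H28.LF.T_YLW) (hRl : Pool.Agent.H28.LF.T_YRL) (hS : Pool.Agent.H28.LF.T_YST)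
    (hQ : Pool.Agent.H28.LF.T_YSQ) (hMR : Pool.Agent.H28.LF.T_YMR) (hC : Pool.Agent.H28.LF.T_CMP)
    (z : Bool) (h : ℕ) (Φ : ℝ → ℝ) (δ : ℝ) (hh : 0 < h) (hΦ : ConvexOn ℝ Set.univ Φ)
    (hδ : DnX z h δ) : CoreX z h Φ δ := by
  classical
  by_contra hcon
  obtain ⟨hδ0, hδ1⟩ := dn_mem hδ
  obtain ⟨η₀, R₀, hη, hLB⟩ := hLB z h Φ δ hΦ hδ0 hδ1 hcon
  set c := cU Φ δ with hc
  obtain ⟨B₀, hB0, hB⟩ := phi_bd hΦ c
  obtain ⟨R₁, hR₁⟩ := exists_nat_gt (40 * B₀ / η₀)
  set R := max R₀ (R₁ + 1) with hR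
  have hR0 : 0 < R := lt_of_lt_of_le (Nat.succ_pos _) (le_max_right _ _)
  have hRr : (0 : ℝ) < R := by exact_mod_cast hR0
  have hRB : 2 * B₀ / R ≤ η₀ / 20 := by
    rw [div_le_div_iff₀ hRr (by norm_num)]
    have h1 : (R₁ : ℝ) ≤ R := by
      have : R₁ ≤ R := (Nat.le_succ _).trans (le_max_right _ _)
      exact_mod_cast this
    have h2 : 40 * B₀ / η₀ ≤ R := hR₁.le.trans h1
    rw [div_le_iff₀ hη] at h2
    linarith
  obtain ⟨U, x, y, τ, hA, hτ, hmono, hmass⟩ := hLB R (le_max_left _ _)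
  obtain ⟨PX, hPX, hcl, hmX⟩ := hSX z h Φ c η₀ R U x y τ hR0 hA hτ hmass
  have hpX := hPX.prob
  obtain ⟨L, a, b, hLin⟩ := hLN Φ (η₀ / 20) hΦ (by positivity)
  obtain ⟨F, hF, hI⟩ := hFS z h R L Φ c (η₀ / 20) η₀ a b PX hΦ hR0 (by positivity) hLin hPX hmX
  obtain ⟨P, hL⟩ := hE U x y τ hA
  have hP : SysY PX P := by
    have h1 := hW U x y τ PX P hA hpX hcl hL
    have h2 := hS U x y τ P hA hL
    exact
      { prob := hL.prob
        inv := hL.inv
        law := fun p hp => (h1 p hp).1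
        div := fun p hp => (h1 p hp).2
        rel := hRl U x y τ P hA hL
        stp := h2.1
        stf := h2.2.1
        per := h2.2.2
        sqf := hQ U x y τ P hA hL
        mr := hMR U x y τ P hA hL }
  have hpP := hP.prob
  obtain ⟨κ, hκ, hdis, hcomp⟩ := hC (fun _ => 1) 0 PX P hPX hP
  have hmo := hMO R U x y τ P hA hL hmono
  have hmo' : ∀ᵐ ω ∂P, ∀ᵐ ω' ∂(κ ω), ∀ p p' : ℕ, 0 < p → p < p' →
      p * vR R (xiY p ω' 0).2 ≤ p' * vR R (xiY p' ω' 0).2 + 2 * p' / R := by
    rw [ae_iff] at hmo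
    obtain ⟨N, hN1, hN2, hN3⟩ := exists_measurable_superset_of_null hmo
    rw [hdis N hN2, lintegral_eq_zero_iff (κ.measurable_coe hN2)] at hN3
    filter_upwards [hN3] with ω hω
    rw [ae_iff]
    exact measure_mono_null hN1 hω
  -- constants
  set B : ℝ := ∑ l, (|a l| + |b l|) + |c| + B₀ with hBd
  have hsum : ∀ l, |a l| + |b l| ≤ ∑ l, (|a l| + |b l|) := fun l =>
    Finset.single_le_sum (f := fun l => |a l| + |b l|) (fun i _ => by positivity)
      (Finset.mem_univ l)
  have hsum0 : 0 ≤ ∑ l, (|a l| + |b l|) := Finset.sum_nonneg fun i _ => by positivity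
  have hB1 : ∀ l, |a l| + |b l| + |c| ≤ B := fun l => by
    have := hsum l
    linarith
  have hB2 : ∀ t, |t| ≤ 1 → |Φ t| + |c| ≤ B := fun t ht => by
    have := hB t ht
    have := abs_nonneg c
    linarith
  have hBp : 0 < B := by
    have := abs_nonneg c
    linarith
  set J : ℕ → Yi → ℝ := fun m => jX z h R Φ c κ m with hJ
  have hJm := fun m => hJM z h R m Φ c B κ hR0 hΦ hB2
  have hJlim : ∀ᵐ ω ∂P, ∀ η : ℝ, 0 < η → ∃ m₀ : ℕ, ∀ m, m₀ ≤ m → J m ω ≤ 2 * B₀ / R + η := by
    filter_upwards [hcomp, hmo'] with ω h1 h2 η hη'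
    exact hJL z h R Φ δ B₀ κ ω hh hR0 hΦ hδ hB h1 h2 η hη'
  obtain ⟨m₁, hm₁⟩ := hLM Yi P J B (2 * B₀ / R) (fun m => (hJm m).1) (fun m => (hJm m).2) hJlim
    (η₀ / 20) (by positivity)
  obtain ⟨m₂, hm₂⟩ := exists_nat_gt (160 * B / η₀)
  obtain ⟨M, wt, hM, hwt, hdc⟩ := hDC (Bool × Bool) (h + 1) (max m₁ m₂) (η₀ / (80 * B))
    (η₀ / (80 * B)) (by positivity) (by positivity)
  set I : ℝ := ∑ l, ∫ ξ in F l, fL z h R c a b l ξ ∂PX with hId
  -- the bad sets
  set D : ℕ → Set Yi := fun m => {ω | DcX shY btY flY (h + 1) (η₀ / (80 * B)) (κ ω) m} with hDd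
  have hDm : ∀ m, MeasurableSet (D m) := fun m => hSD κ (h + 1) m (η₀ / (80 * B))
  have hfm : ∀ l, Measurable (fL z h R c a b l) := by
    intro l
    unfold fL gX vR
    have e1 : Measurable fun ξ : Xi => (ξ 0).2 := (measurable_pi_apply 0).snd
    have e2 : ∀ s : ℕ, Measurable fun ξ : Xi => if (ξ 0).2 s then (1 : ℝ) else 0 := by
      intro s
      have e3 : Measurable fun ξ : Xi => (ξ 0).2 s := (measurable_pi_apply s).comp e1
      have e4 : Measurable fun q : Bool => if q then (1 : ℝ) else 0 := measurable_of_countable _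
      exact e4.comp e3
    have e5 : ∀ t : ℤ, Measurable fun ξ : Xi => (vl z (ξ t).1 : ℝ) := by
      intro t
      have e6 : Measurable fun ξ : Xi => (ξ t).1 := (measurable_pi_apply t).fst
      have e7 : Measurable fun q : Bool × Bool => (vl z q : ℝ) := measurable_of_countable _
      exact e7.comp e6
    exact (((Finset.measurable_sum _ fun s _ => e2 s).div_const _)).mul
      (((measurable_const.mul ((e5 1).mul (e5 (1 + h)))).add measurable_const).sub
        measurable_const)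
  have hvR : ∀ q, 0 ≤ vR R q ∧ vR R q ≤ 1 := by
    intro q
    unfold vR
    have h1 : ∑ s ∈ range R, (if q s then (1 : ℝ) else 0) ≤ R := by
      calc _ ≤ ∑ s ∈ range R, (1 : ℝ) := Finset.sum_le_sum fun s _ => by split_ifs <;> norm_num
        _ = R := by simp
    have h2 : 0 ≤ ∑ s ∈ range R, (if q s then (1 : ℝ) else 0) :=
      Finset.sum_nonneg fun s _ => by split_ifs <;> norm_num
    exact ⟨by positivity, (div_le_one hRr).2 h1⟩
  have hvl : ∀ q, |(vl z q : ℝ)| ≤ 1 := by
    intro q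
    unfold vl
    split_ifs <;> simp
  have hfb : ∀ l ξ, |fL z h R c a b l ξ| ≤ B := by
    intro l ξ
    unfold fL
    rw [abs_mul, abs_of_nonneg (hvR _).1]
    have h1 : |a l * gX z h ξ + b l - c| ≤ |a l| + |b l| + |c| := by
      have h2 : |gX z h ξ| ≤ 1 := by
        unfold gX
        rw [abs_mul]
        exact mul_le_one₀ (hvl _) (abs_nonneg _) (hvl _)
      calc |a l * gX z h ξ + b l - c| ≤ |a l * gX z h ξ| + |b l| + |c| := by
            refine (abs_sub _ _).trans ?_
            have := abs_add_le (a l * gX z h ξ) (b l)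
            linarith
        _ ≤ |a l| + |b l| + |c| := by
            rw [abs_mul]
            have := mul_le_mul_of_nonneg_left h2 (abs_nonneg (a l))
            linarith
    calc _ ≤ 1 * (|a l| + |b l| + |c|) :=
          mul_le_mul (hvR _).2 h1 (abs_nonneg _) zero_le_one
      _ ≤ B := by
          have := hB1 l
          linarith
  have key : ∀ m ∈ M, I ≤ 3 * (η₀ / 20) + 2 * (η₀ / 20) + 2 * B * P.real (D m)ᶜ := by
    intro m hm
    obtain ⟨hmm, hne, -⟩ := hM m hm
    obtain ⟨hAm, hAe⟩ := hEQ PX P κ L m F (fL z h R c a b) hpX hP hdis hF.meas hfm ⟨B, hfb⟩ hne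
    obtain ⟨hXm, ⟨C, hXb⟩, hXi⟩ := hEX PX P κ h m hP hdis hne
    set A : Yi → ℝ := fun ω => avgP 2 m (fun p => ∑ l, p *
      ∫ ω' in flY p ∩ xiY p ⁻¹' (F l), fL z h R c a b l (xiY p ω') ∂(κ ω)) with hAd
    set X : Yi → ℝ := fun ω => avgP 2 m (fun p =>
      p * (κ ω).real (flY p ∩ (ExY p 1 ∪ ExY p (h + 1)))) with hXd
    have hX0 : ∀ ω, 0 ≤ X ω := by
      intro ω
      simp only [hXd, avgP]
      exact div_nonneg (Finset.sum_nonneg fun p _ => by positivity) (Nat.cast_nonneg _)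
    have hle : ∀ᵐ ω ∂P, A ω ≤ J m ω + (4 * B * (η₀ / (80 * B)) + 4 * B * X ω +
        (D m)ᶜ.indicator (fun _ => 2 * B) ω) := by
      filter_upwards [hcomp] with ω hω
      have hlb := hLV (κ ω) hω
      have hlb' : ∃ lb : ℕ → ℕ → Bool, ∀ p : ℕ, p.Prime →
          ∀ᵐ ω' ∂(κ ω), (xiY p ω' 0).2 = lb p := by
        choose! lb hlb using hlb
        exact ⟨lb, hlb⟩
      obtain ⟨lb, hlb⟩ := hlb'
      have hJe : J m ω = avgP 2 m (fun p => vR R (lb p) * (Φ (gC z (κ ω) (p * h)) - c)) := by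
        simp only [hJ, jX, avgP]
        congr 1
        refine Finset.sum_congr rfl fun p hp => ?_
        have hpp : p.Prime := by
          unfold Pset at hp
          exact (Finset.mem_filter.1 hp).2.1
        congr 1
        have e1 : (fun ω' => vR R (xiY p ω' 0).2) =ᵐ[κ ω] fun _ => vR R (lb p) := by
          filter_upwards [hlb p hpp] with ω' hω'
          rw [hω']
        rw [integral_congr_ae e1]
        simp
      by_cases hD : ω ∈ D m
      · have h1 := hCI z h R L m Φ c (η₀ / 20) (η₀ / (80 * B)) B a b F (κ ω) lb hR0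
          (by positivity) hLin hF hB1 hB2 hω hlb hne hD
        rw [← hJe] at h1
        have h2 : (D m)ᶜ.indicator (fun _ => 2 * B) ω = 0 := by
          rw [Set.indicator_of_notMem]
          simpa using hD
        rw [h2]
        show A ω ≤ _
        linarith
      · have h1 := hCB z h R L m c B a b F (κ ω) hR0 hF hB1 hω hne
        have h2 : (D m)ᶜ.indicator (fun _ => 2 * B) ω = 2 * B := by
          rw [Set.indicator_of_mem]
          exact hD
        rw [h2]
        have h3 := (abs_le.1 h1).2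
        have h4 := (abs_le.1 ((hJm m).2 ω)).1
        have h5 : 0 ≤ 4 * B * (η₀ / (80 * B)) := by positivity
        have h6 : 0 ≤ 4 * B * X ω := by
          have := hX0 ω
          positivity
        show A ω ≤ _
        have h7 : -B ≤ J m ω := h4
        have h8 : A ω ≤ B := h3
        linarith
    have hAi : Integrable A P := by
      refine Integrable.of_bound hAm.aestronglyMeasurable B ?_
      filter_upwards [hcomp] with ω hω
      rw [Real.norm_eq_abs]
      exact hCB z h R L m c B a b F (κ ω) hR0 hF hB1 hω hne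
    have hJi : Integrable (J m) P :=
      Integrable.of_bound (hJm m).1.aestronglyMeasurable B
        (Eventually.of_forall fun ω => by rw [Real.norm_eq_abs]; exact (hJm m).2 ω)
    have hXI : Integrable X P :=
      Integrable.of_bound hXm.aestronglyMeasurable C
        (Eventually.of_forall fun ω => by rw [Real.norm_eq_abs]; exact hXb ω)
    have hDi : Integrable ((D m)ᶜ.indicator (fun _ => 2 * B)) P :=
      (integrable_const _).indicator (hDm m).compl
    have i2 : Integrable (fun ω => 4 * B * X ω) P := hXI.const_mul _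
    have i1 : Integrable (fun _ : Yi => 4 * B * (η₀ / (80 * B))) P := integrable_const _
    have i12 : Integrable (fun ω => 4 * B * (η₀ / (80 * B)) + 4 * B * X ω) P := i1.add i2
    have i123 : Integrable (fun ω => 4 * B * (η₀ / (80 * B)) + 4 * B * X ω +
        (D m)ᶜ.indicator (fun _ => 2 * B) ω) P := i12.add hDi
    have h1 : I ≤ ∫ ω, (J m ω + (4 * B * (η₀ / (80 * B)) + 4 * B * X ω +
        (D m)ᶜ.indicator (fun _ => 2 * B) ω)) ∂P := by
      rw [hId, hAe]
      exact integral_mono_ae hAi (hJi.add i123) hle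
    rw [integral_add hJi i123, integral_add i12 hDi, integral_add i1 i2,
      integral_const_mul (μ := P) (4 * B) X, integral_indicator (hDm m).compl, setIntegral_const] at h1
    simp only [integral_const, probReal_univ, smul_eq_mul, one_mul] at h1
    have h2 := hm₁ m ((le_max_left _ _).trans hmm)
    have h3 : 4 * B * (η₀ / (80 * B)) = η₀ / 20 := by
      field_simp
      ring
    have h4 : 4 * B * ∫ ω, X ω ∂P ≤ η₀ / 20 := by
      have h5 : (m₂ : ℝ) ≤ m := by exact_mod_cast (le_max_right _ _).trans hmm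
      have h6 : (m : ℝ) ≤ 2 ^ m := by exact_mod_cast Nat.lt_two_pow_self.le
      have h7 : 160 * B / η₀ ≤ 2 ^ m := hm₂.le.trans (h5.trans h6)
      have h8 : (0 : ℝ) < 2 ^ m := by positivity
      have h9 : 4 * B * (2 / 2 ^ m) ≤ η₀ / 20 := by
        rw [div_le_iff₀ hη] at h7
        rw [← mul_div_assoc, div_le_iff₀ h8]
        linarith
      exact (mul_le_mul_of_nonneg_left hXi (by positivity)).trans h9
    have h10 : ∫ ω, J m ω ∂P ≤ 2 * B₀ / R + η₀ / 20 := h2
    rw [h3] at h1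
    have h11 : P.real (D m)ᶜ * (2 * B) = 2 * B * P.real (D m)ᶜ := by ring
    linarith
  -- sum over the scales
  have hws := hWS Yi P D M wt (η₀ / (80 * B)) hDm (fun m hm => (hM m hm).2.2) (by
    filter_upwards [hcomp] with ω hω B' hB' hB''
    have hfl : ∀ p, MeasurableSet (flY p) := by
      intro p
      have e1 : Measurable fun ω : Yi => (ω 0).2.1 p :=
        (measurable_pi_apply p).comp ((measurable_pi_apply 0).snd.fst)
      exact e1 (MeasurableSet.singleton true)
    have hbt : Measurable btY := (measurable_pi_apply 0).fst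
    have hpr := hω.prob
    exact hdc Yi (κ ω) shY btY flY hω.erg hbt hfl (fun p hp => hω.per p hp.pos) B' hB'
      fun m hm => hB'' m hm)
  have hfin : I ≤ 5 * (η₀ / 20) + 2 * B * (η₀ / (80 * B)) := by
    have h1 : ∑ m ∈ M, wt m * I = I := by
      rw [← Finset.sum_mul, hwt, one_mul]
    have h2 : ∑ m ∈ M, wt m * I ≤ ∑ m ∈ M, (wt m * (5 * (η₀ / 20)) +
        2 * B * (wt m * P.real (D m)ᶜ)) := by
      refine Finset.sum_le_sum fun m hm => ?_
      have h3 := mul_le_mul_of_nonneg_left (key m hm) (hM m hm).2.2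
      calc wt m * I ≤ _ := h3
        _ = _ := by ring
    rw [h1, Finset.sum_add_distrib, ← Finset.sum_mul, hwt, ← Finset.mul_sum, one_mul] at h2
    have h4 := mul_le_mul_of_nonneg_left hws (by positivity : (0 : ℝ) ≤ 2 * B)
    linarith
  have h5 : 2 * B * (η₀ / (80 * B)) = η₀ / 40 := by
    field_simp
    ring
  rw [h5] at hfin
  have h6 : η₀ - η₀ / 20 ≤ I := hI
  linarith

end Pool.Agent.H83.X
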