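import Pool.Agent.H83.V.Hand
import Pool.Agent.H83.X.FinX

/-!
Theorem X in terms of Mathlib's functions.
-/

set_option autoImplicit false

open Finset Filter Topology

namespace Pool.Agent.H83.X.Hand

open Pool.Agent.H83.V (vl fz)
open Pool.Agent.H83.V.Hand (f f_eq)

theorem aH_eq (z : Bool) (h H n : ℕ) :
    aH z h H n = (∑ m ∈ Ioc n (n + H), ((f z m * f z (m + h) : ℤ) : ℝ)) / H := by
  unfold aH
  congr 1
  have e : Ioc n (n + H) = (range H).map ⟨fun j => n + j + 1, fun a b hab => by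
      simp only at hab; omega⟩ := by
    ext m
    simp only [Finset.mem_Ioc, Finset.mem_map, Finset.mem_range, Function.Embedding.coeFn_mk]
    constructor
    · rintro ⟨h1, h2⟩
      exact ⟨m - n - 1, by omega, by omega⟩
    · rintro ⟨j, h1, h2⟩
      omega
  rw [e, sum_map]
  refine sum_congr rfl fun j _ => ?_
  simp only [Function.Embedding.coeFn_mk]
  rw [f_eq z (n + j + 1) (by omega), f_eq z (n + j + 1 + h) (by omega)]

open Classical in
/-- Theorem X, from the statement for `fz` -/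
theorem main_of (hX : ∀ (z : Bool) (h : ℕ) (Φ : ℝ → ℝ) (δ : ℝ), 0 < h → ConvexOn ℝ Set.univ Φ →
    DnX z h δ → ThmX z h Φ δ) (z : Bool) (h : ℕ) (hh : 0 < h) (δ : ℝ)
    (hδ : Tendsto (fun N : ℕ => (#{n ∈ Icc 1 N | f z n * f z (n + h) ≠ 0} : ℝ) / N) atTop (𝓝 δ))
    (Φ : ℝ → ℝ) (hΦ : ConvexOn ℝ Set.univ Φ) (ε ρ : ℝ) (hε : 0 < ε) (hρ : 0 < ρ) :
    ∃ K : ℕ, ∀ H x y : ℕ, K ≤ H → H ≤ x → K * x ≤ y →
      ∑ N ∈ (Icc x y).filter (fun N => (∫ t in (-1 : ℝ)..1, Φ (δ * t)) / 2 + ε <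
        (∑ n ∈ Icc 1 N, Φ ((∑ m ∈ Ioc n (n + H), ((f z m * f z (m + h) : ℤ) : ℝ)) / H)) / N),
        (1 : ℝ) / N ≤ ρ * Real.log ((y : ℝ) / x) := by
  have hδ' : DnX z h δ := by
    unfold DnX
    refine hδ.congr fun N => ?_
    congr 2
    refine congrArg card ?_
    refine filter_congr fun n hn => ?_
    have h1 : 0 < n := (mem_Icc.1 hn).1
    rw [f_eq z n h1, f_eq z (n + h) (by omega)]
  obtain ⟨K, hK⟩ := hX z h Φ δ hh hΦ hδ' ε ρ hε hρ
  refine ⟨K, fun H x y h1 h2 h3 => ?_⟩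
  have h4 := hK H x y h1 h2 h3
  unfold mH cU at h4
  simp only [aH_eq] at h4
  exact h4

end Pool.Agent.H83.X.Hand
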