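import Pool.Agent.H83.X.T2
import Pool.Agent.H75.X.MTV

/-!
Row SPX: spectral measures and the masses of their atoms.
-/

set_option autoImplicit false

open MeasureTheory ProbabilityTheory Filter Topology Finset
open scoped Nat ENNReal ComplexConjugate

namespace Pool.Agent.H83.X.SP

open Pool.Agent.H24.AG (ee PDf zp zp_add zp_natCast measurable_zp mp_zp)
open Pool.Agent.H75.X (ee_norm geom_mean ee_nat_mul ee_eq_one)

theorem ee_meas : Measurable ee := by
  unfold ee
  fun_prop

theorem ee_conj (x : ℝ) : conj (ee x) = ee (-x) := by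
  unfold ee
  rw [← Complex.exp_conj]
  congr 1
  rw [map_mul, map_mul, map_mul, Complex.conj_I, Complex.conj_ofReal, Complex.conj_ofReal]
  have h2 : (starRingEnd ℂ) 2 = 2 := Complex.conj_ofNat 2
  rw [h2]
  push_cast
  ring

/-- correlations of a bounded function define a positive definite sequence -/
theorem pdf {Ω : Type} [MeasurableSpace Ω] (P : Measure Ω) [IsProbabilityMeasure P] (T : Ω ≃ᵐ Ω)
    (f : Ω → ℝ) (hT : MeasurePreserving T P P) (hf : Measurable f) (hf2 : ∀ ω, |f ω| ≤ 2) :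
    PDf (fun n : ℤ => ∫ ω, f (zp T n ω) * f ω ∂P) := by
  set r : ℤ → ℝ := fun n => ∫ ω, f (zp T n ω) * f ω ∂P with hr
  have hzm : ∀ n, Measurable fun ω => f (zp T n ω) := fun n => hf.comp (measurable_zp T n)
  have hcorr : ∀ i j : ℤ, ∫ ω, f (zp T i ω) * f (zp T j ω) ∂P = r (i - j) := by
    intro i j
    have h1 := (mp_zp hT j).map_eq
    have h2 : r (i - j) = ∫ ω, f (zp T (i - j) ω) * f ω ∂(P.map (zp T j)) := by rw [h1]
    have h3 := integral_map (μ := P) (measurable_zp T j).aemeasurable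
      (f := fun ω => f (zp T (i - j) ω) * f ω) ((hzm _).mul hf).aestronglyMeasurable
    rw [h2, h3]
    apply integral_congr_ae
    filter_upwards with ω
    rw [← zp_add]
    have : i - j + j = i := by ring
    rw [this]
  have hint : ∀ m n : ℤ, Integrable (fun ω => f (zp T m ω) * f (zp T n ω)) P := by
    intro m n
    refine Integrable.of_bound (C := 4) ((hzm m).mul (hzm n)).aestronglyMeasurable ?_
    filter_upwards with ω
    rw [Real.norm_eq_abs, abs_mul]
    have h1 := hf2 (zp T m ω)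
    have h2 := hf2 (zp T n ω)
    calc |f (zp T m ω)| * |f (zp T n ω)| ≤ 2 * 2 :=
          mul_le_mul h1 h2 (abs_nonneg _) (by norm_num)
      _ = 4 := by norm_num
  refine ⟨fun n => ?_, fun s c => ?_⟩
  · have h1 := hcorr 0 n
    have h2 := hcorr n 0
    rw [zero_sub] at h1
    rw [sub_zero] at h2
    rw [← h1, ← h2]
    apply integral_congr_ae
    filter_upwards with ω
    ring
  · have e : ∑ i ∈ s, ∑ j ∈ s, c i * c j * r (i - j) =
        ∫ ω, (∑ i ∈ s, c i * f (zp T i ω)) ^ 2 ∂P := by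
      have e1 : (fun ω => (∑ i ∈ s, c i * f (zp T i ω)) ^ 2) =
          fun ω => ∑ i ∈ s, ∑ j ∈ s, c i * c j * (f (zp T i ω) * f (zp T j ω)) := by
        funext ω
        rw [sq, Finset.sum_mul_sum]
        apply Finset.sum_congr rfl
        intro i _
        apply Finset.sum_congr rfl
        intro j _
        ring
      rw [e1, integral_finsetSum]
      · apply Finset.sum_congr rfl
        intro i _
        rw [integral_finsetSum]
        · apply Finset.sum_congr rfl
          intro j _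
          rw [integral_const_mul, hcorr]
        · intro j _
          exact (hint _ _).const_mul _
      · intro i _
        apply integrable_finsetSum
        intro j _
        exact (hint _ _).const_mul _
    rw [e]
    apply integral_nonneg
    intro ω
    positivity

/-- limits of integrals from the convergence in the mean square -/
theorem l2lim {Ω : Type} [MeasurableSpace Ω] (P : Measure Ω) [IsProbabilityMeasure P]
    (u g : Ω → ℂ) (M : ℕ → Ω → ℂ) (hu : Measurable u) (hg : Measurable g)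
    (hM : ∀ N, Measurable (M N)) (u2 : ∀ ω, ‖u ω‖ ≤ 2) (g2 : ∀ ω, ‖g ω‖ ≤ 2)
    (M2 : ∀ N ω, ‖M N ω‖ ≤ 2)
    (hl : Tendsto (fun N => ∫ ω, ‖M N ω - g ω‖ ^ 2 ∂P) atTop (𝓝 0)) :
    Tendsto (fun N => ∫ ω, u ω * M N ω ∂P) atTop (𝓝 (∫ ω, u ω * g ω ∂P)) := by
  rw [Metric.tendsto_atTop] at hl ⊢
  intro ε hε
  obtain ⟨N₀, hN₀⟩ := hl (ε ^ 2 / 4) (by positivity)
  refine ⟨N₀, fun N hN => ?_⟩
  have h1 := hN₀ N hN
  rw [Real.dist_eq, sub_zero, abs_of_nonneg (integral_nonneg fun ω => by positivity)] at h1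
  have i1 : Integrable (fun ω => u ω * M N ω) P := by
    refine Integrable.of_bound (C := 4) (hu.mul (hM N)).aestronglyMeasurable ?_
    filter_upwards with ω
    rw [norm_mul]
    calc ‖u ω‖ * ‖M N ω‖ ≤ 2 * 2 := mul_le_mul (u2 ω) (M2 N ω) (norm_nonneg _) (by norm_num)
      _ = 4 := by norm_num
  have i2 : Integrable (fun ω => u ω * g ω) P := by
    refine Integrable.of_bound (C := 4) (hu.mul hg).aestronglyMeasurable ?_
    filter_upwards with ω
    rw [norm_mul]
    calc ‖u ω‖ * ‖g ω‖ ≤ 2 * 2 := mul_le_mul (u2 ω) (g2 ω) (norm_nonneg _) (by norm_num)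
      _ = 4 := by norm_num
  have i3 : Integrable (fun ω => ‖M N ω - g ω‖ ^ 2) P := by
    refine Integrable.of_bound (C := 16) (((hM N).sub hg).norm.pow_const 2).aestronglyMeasurable ?_
    filter_upwards with ω
    rw [Real.norm_eq_abs, abs_of_nonneg (by positivity)]
    have h2 : ‖M N ω - g ω‖ ≤ 4 := by
      refine (norm_sub_le _ _).trans ?_
      linarith [M2 N ω, g2 ω]
    nlinarith [norm_nonneg (M N ω - g ω)]
  rw [dist_eq_norm, ← integral_sub i1 i2]
  have h4 : ‖∫ ω, (u ω * M N ω - u ω * g ω) ∂P‖ ≤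
      ∫ ω, (ε / 2 + 2 / ε * ‖M N ω - g ω‖ ^ 2) ∂P := by
    refine (norm_integral_le_integral_norm _).trans ?_
    apply integral_mono_ae (i1.sub i2).norm
    · exact (integrable_const _).add (i3.const_mul _)
    · filter_upwards with ω
      have e : u ω * M N ω - u ω * g ω = u ω * (M N ω - g ω) := by ring
      rw [Pi.sub_apply, e, norm_mul]
      set d := ‖M N ω - g ω‖ with hd
      have hd0 : 0 ≤ d := norm_nonneg _
      have h5 : ‖u ω‖ * d ≤ 2 * d := mul_le_mul_of_nonneg_right (u2 ω) hd0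
      have h6 : 2 * d ≤ ε / 2 + 2 / ε * d ^ 2 := by
        have h7 : 2 / ε * d ^ 2 = (2 * d ^ 2) / ε := by ring
        have h8 : 2 * d - ε / 2 ≤ (2 * d ^ 2) / ε := by
          rw [le_div_iff₀ hε]
          nlinarith [sq_nonneg (2 * d - ε)]
        linarith
      linarith
  refine lt_of_le_of_lt h4 ?_
  rw [integral_add (integrable_const _) (i3.const_mul _), integral_const_mul]
  simp only [integral_const, probReal_univ, smul_eq_mul, one_mul]
  have h10 : 2 / ε * ∫ ω, ‖M N ω - g ω‖ ^ 2 ∂P < 2 / ε * (ε ^ 2 / 4) := by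
    apply mul_lt_mul_of_pos_left h1
    positivity
  have h11 : 2 / ε * (ε ^ 2 / 4) = ε / 2 := by
    field_simp
    norm_num
  linarith

/-- the mean of the characters -/
theorem chr_mean (θ x : ℝ) (h0 : 0 ≤ θ) (h1 : θ < 1) (x0 : 0 ≤ x) (x1 : x < 1) :
    Tendsto (fun N : ℕ => (∑ n ∈ range N, ee (-(n * θ)) * ee (x * n)) / N) atTop
      (𝓝 (if x = θ then 1 else 0)) := by
  have e : ∀ n : ℕ, ee (-(n * θ)) * ee (x * n) = ee (x - θ) ^ n := by
    intro n
    rw [← ee_add, ← ee_nat_mul]
    congr 1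
    ring
  simp only [e]
  split_ifs with h
  · subst h
    rw [sub_self, ee_zero]
    refine tendsto_const_nhds.congr' ?_
    filter_upwards [eventually_gt_atTop 0] with N hN
    have h5 : (N : ℂ) ≠ 0 := by exact_mod_cast hN.ne'
    simp only [one_pow, sum_const, card_range, nsmul_eq_mul, mul_one]
    rw [div_self h5]
  · refine geom_mean (ee_norm _) ?_
    intro h2
    obtain ⟨l, hl⟩ := ee_eq_one h2
    have h3 : (l : ℝ) < 1 := by linarith
    have h4 : (-1 : ℝ) < l := by linarith
    have h5 : l < 1 := by exact_mod_cast h3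
    have h6 : -1 < l := by exact_mod_cast h4
    have h7 : l = 0 := by omega
    rw [h7] at hl
    apply h
    push_cast at hl
    linarith

end Pool.Agent.H83.X.SP

namespace Pool.Agent.H83.X

open Pool.Agent.H24.AG (ee PDf zp zp_add zp_natCast measurable_zp mp_zp)
open Pool.Agent.H75.X (ee_norm geom_mean ee_nat_mul ee_eq_one)
open Pool.Agent.H83.X.SP

theorem pf_SPX (h : Pool.Agent.H24.AG.T_VHG) : T_SPX := by
  intro Ω _ P _ T f hT hf hf2
  obtain ⟨ν, hν, hνr⟩ := h _ (pdf P T f hT hf hf2)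
  have hcor : ∀ n : ℕ, ((∫ ω, f ω * f (T^[n] ω) ∂P : ℝ) : ℂ) = ∫ x, ee ((x : ℝ) * n) ∂ν := by
    intro n
    have h1 := hνr n
    have h2 : (fun x : Set.Ico (0 : ℝ) 1 => ee ((x : ℝ) * ((n : ℤ) : ℝ))) =
        fun x : Set.Ico (0 : ℝ) 1 => ee ((x : ℝ) * n) := by
      funext x
      push_cast
      rfl
    rw [h2] at h1
    rw [h1]
    congr 1
    apply integral_congr_ae
    filter_upwards with ω
    rw [zp_natCast, mul_comm]
  refine ⟨ν, hν, hcor, fun θ g h0 h1 hE => ?_⟩
  have hfm : ∀ n : ℕ, Measurable fun ω => f (T^[n] ω) := fun n => hf.comp (T.measurable.iterate n)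
  -- the means
  set M : ℕ → Ω → ℂ := fun N ω => (∑ n ∈ range N, ee (-(n * θ)) * (f (T^[n] ω) : ℂ)) / N with hM
  have hMm : ∀ N, Measurable (M N) := by
    intro N
    apply Measurable.div_const
    apply Finset.measurable_sum
    intro n _
    exact ((Complex.measurable_ofReal.comp (hfm n)).const_mul _)
  have hM2 : ∀ N ω, ‖M N ω‖ ≤ 2 := by
    intro N ω
    simp only [hM]
    rw [norm_div, Complex.norm_natCast]
    have h3 : ‖∑ n ∈ range N, ee (-(n * θ)) * (f (T^[n] ω) : ℂ)‖ ≤ N * 2 := by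
      refine (norm_sum_le _ _).trans ?_
      refine (Finset.sum_le_sum fun n _ => ?_).trans (b := ∑ _n ∈ range N, (2 : ℝ)) ?_
      · rw [norm_mul, ee_norm, one_mul, Complex.norm_real]
        exact hf2 _
      · rw [sum_const, card_range, nsmul_eq_mul]
    rcases Nat.eq_zero_or_pos N with hN | hN
    · subst hN
      simp
    · have hN' : (0 : ℝ) < N := by exact_mod_cast hN
      rw [div_le_iff₀ hN']
      linarith
  have hfC : Measurable fun ω => ((f ω : ℝ) : ℂ) := Complex.measurable_ofReal.comp hf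
  have hfC2 : ∀ ω, ‖((f ω : ℝ) : ℂ)‖ ≤ 2 := fun ω => by
    rw [Complex.norm_real]
    exact hf2 ω
  -- first limit
  have L1 : Tendsto (fun N => ∫ ω, ((f ω : ℝ) : ℂ) * M N ω ∂P) atTop
      (𝓝 (∫ ω, ((f ω : ℝ) : ℂ) * g ω ∂P)) :=
    l2lim P _ g M hfC hE.meas hMm hfC2 hE.bd hM2 hE.lim
  -- second limit
  have hgc : Measurable fun ω => conj (g ω) := Complex.continuous_conj.measurable.comp hE.meas
  have L2 : Tendsto (fun N => ∫ ω, g ω * conj (M N ω) ∂P) atTop
      (𝓝 (∫ ω, g ω * conj (g ω) ∂P)) := by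
    refine l2lim P g (fun ω => conj (g ω)) (fun N ω => conj (M N ω)) hE.meas hgc
      (fun N => Complex.continuous_conj.measurable.comp (hMm N)) hE.bd (fun ω => ?_)
      (fun N ω => ?_) ?_
    · rw [RCLike.norm_conj]
      exact hE.bd ω
    · rw [RCLike.norm_conj]
      exact hM2 N ω
    · refine hE.lim.congr fun N => ?_
      apply integral_congr_ae
      filter_upwards with ω
      rw [← map_sub, RCLike.norm_conj]
  -- invariance
  have hgT : ∀ n : ℕ, ∀ᵐ ω ∂P, g (T^[n] ω) = ee (n * θ) * g ω := by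
    intro n
    induction n with
    | zero =>
      filter_upwards with ω
      simp [ee_zero]
    | succ n ih =>
      have h3 := (hT.iterate n).quasiMeasurePreserving.ae hE.eq
      filter_upwards [ih, h3] with ω h4 h5
      rw [Function.iterate_succ_apply', h5, h4, ← mul_assoc, ← ee_add]
      congr 2
      push_cast
      ring
  have ifg : ∀ n : ℕ, Integrable (fun ω => g (T^[n] ω) * ((f (T^[n] ω) : ℝ) : ℂ)) P := by
    intro n
    refine Integrable.of_bound (C := 4) (((hE.meas.comp (T.measurable.iterate n)).mul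
      (Complex.measurable_ofReal.comp (hfm n))).aestronglyMeasurable) ?_
    filter_upwards with ω
    rw [norm_mul]
    calc ‖g (T^[n] ω)‖ * ‖((f (T^[n] ω) : ℝ) : ℂ)‖ ≤ 2 * 2 :=
          mul_le_mul (hE.bd _) (hfC2 _) (norm_nonneg _) (by norm_num)
      _ = 4 := by norm_num
  have hinv : ∀ n : ℕ, ∫ ω, g (T^[n] ω) * ((f (T^[n] ω) : ℝ) : ℂ) ∂P =
      ∫ ω, g ω * ((f ω : ℝ) : ℂ) ∂P := by
    intro n
    have h3 := (hT.iterate n).map_eq
    have h4 := integral_map (μ := P) (T.measurable.iterate n).aemeasurable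
      (f := fun ω => g ω * ((f ω : ℝ) : ℂ)) (hE.meas.mul hfC).aestronglyMeasurable
    rw [h3] at h4
    exact h4.symm
  have hMc : ∀ N : ℕ, 0 < N → ∫ ω, g ω * conj (M N ω) ∂P = ∫ ω, g ω * ((f ω : ℝ) : ℂ) ∂P := by
    intro N hN
    have hN' : (N : ℂ) ≠ 0 := by exact_mod_cast hN.ne'
    have h3 : ∀ᵐ ω ∂P, g ω * conj (M N ω) =
        (∑ n ∈ range N, g (T^[n] ω) * ((f (T^[n] ω) : ℝ) : ℂ)) / N := by
      have h4 : ∀ᵐ ω ∂P, ∀ n : ℕ, g (T^[n] ω) = ee (n * θ) * g ω := ae_all_iff.2 hgT
      filter_upwards [h4] with ω h5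
      simp only [hM]
      rw [map_div₀, map_sum, ← mul_div_assoc, mul_sum, Complex.conj_natCast]
      congr 1
      refine sum_congr rfl fun n _ => ?_
      rw [h5 n, map_mul, ee_conj, neg_neg, Complex.conj_ofReal]
      ring
    rw [integral_congr_ae h3, integral_div, integral_finsetSum _ fun n _ => ifg n]
    simp only [hinv]
    rw [sum_const, card_range, nsmul_eq_mul, mul_div_cancel_left₀ _ hN']
  have E1 : ∫ ω, g ω * conj (g ω) ∂P = ∫ ω, g ω * ((f ω : ℝ) : ℂ) ∂P := by
    refine tendsto_nhds_unique L2 ?_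
    refine tendsto_const_nhds.congr' ?_
    filter_upwards [eventually_gt_atTop 0] with N hN
    exact (hMc N hN).symm
  have E2 : ∫ ω, g ω * conj (g ω) ∂P = ((∫ ω, ‖g ω‖ ^ 2 ∂P : ℝ) : ℂ) := by
    rw [← integral_complex_ofReal]
    apply integral_congr_ae
    filter_upwards with ω
    rw [Complex.mul_conj, Complex.normSq_eq_norm_sq]
  -- the means on the side of the spectral measure
  have E3 : ∀ N : ℕ, ∫ ω, ((f ω : ℝ) : ℂ) * M N ω ∂P =
      ∫ x : Set.Ico (0 : ℝ) 1, (∑ n ∈ range N, ee (-(n * θ)) * ee ((x : ℝ) * n)) / N ∂ν := by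
    intro N
    have iff' : ∀ n : ℕ, Integrable (fun ω => ((f ω : ℝ) : ℂ) * ((f (T^[n] ω) : ℝ) : ℂ)) P := by
      intro n
      refine Integrable.of_bound (C := 4) ((hfC.mul
        (Complex.measurable_ofReal.comp (hfm n))).aestronglyMeasurable) ?_
      filter_upwards with ω
      rw [norm_mul]
      calc ‖((f ω : ℝ) : ℂ)‖ * ‖((f (T^[n] ω) : ℝ) : ℂ)‖ ≤ 2 * 2 :=
            mul_le_mul (hfC2 _) (hfC2 _) (norm_nonneg _) (by norm_num)
        _ = 4 := by norm_num
    have ix : ∀ n : ℕ, Integrable (fun x : Set.Ico (0 : ℝ) 1 => ee ((x : ℝ) * n)) ν := by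
      intro n
      refine Integrable.of_bound (C := 1) ((ee_meas.comp
        (measurable_subtype_coe.mul_const _)).aestronglyMeasurable) ?_
      filter_upwards with x
      rw [ee_norm]
    have e1 : (fun ω => ((f ω : ℝ) : ℂ) * M N ω) = fun ω => (∑ n ∈ range N, ee (-(n * θ)) *
        (((f ω : ℝ) : ℂ) * ((f (T^[n] ω) : ℝ) : ℂ))) / N := by
      funext ω
      simp only [hM]
      rw [← mul_div_assoc, mul_sum]
      congr 1
      refine sum_congr rfl fun n _ => ?_
      ring
    rw [e1, integral_div, integral_finsetSum _ fun n _ => (iff' n).const_mul _, integral_div,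
      integral_finsetSum _ fun n _ => (ix n).const_mul _]
    congr 1
    refine sum_congr rfl fun n _ => ?_
    rw [integral_const_mul, integral_const_mul, ← hcor n, ← integral_complex_ofReal]
    congr 1
    apply integral_congr_ae
    filter_upwards with ω
    push_cast
    rfl
  have L3 : Tendsto (fun N : ℕ => ∫ x : Set.Ico (0 : ℝ) 1,
      (∑ n ∈ range N, ee (-(n * θ)) * ee ((x : ℝ) * n)) / N ∂ν) atTop
      (𝓝 (∫ x : Set.Ico (0 : ℝ) 1, (if (x : ℝ) = θ then (1 : ℂ) else 0) ∂ν)) := by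
    apply tendsto_integral_of_dominated_convergence (fun _ => (1 : ℝ))
    · intro N
      apply Measurable.aestronglyMeasurable
      apply Measurable.div_const
      apply Finset.measurable_sum
      intro n _
      exact ((ee_meas.comp (measurable_subtype_coe.mul_const _)).const_mul _)
    · exact integrable_const _
    · intro N
      filter_upwards with x
      rw [norm_div, Complex.norm_natCast]
      refine div_le_one_of_le₀ ?_ (Nat.cast_nonneg _)
      refine (norm_sum_le _ _).trans ?_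
      refine (Finset.sum_le_sum fun n _ => ?_).trans (b := ∑ _n ∈ range N, (1 : ℝ)) ?_
      · rw [norm_mul, ee_norm, ee_norm, one_mul]
      · rw [sum_const, card_range, nsmul_eq_mul, mul_one]
    · filter_upwards with x
      exact chr_mean θ x h0 h1 x.2.1 x.2.2
  have E4 : ∫ x : Set.Ico (0 : ℝ) 1, (if (x : ℝ) = θ then (1 : ℂ) else 0) ∂ν =
      ((ν.real {x | (x : ℝ) = θ} : ℝ) : ℂ) := by
    have hms : MeasurableSet {x : Set.Ico (0 : ℝ) 1 | (x : ℝ) = θ} :=
      measurable_subtype_coe (measurableSet_singleton θ)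
    have e1 : (fun x : Set.Ico (0 : ℝ) 1 => (if (x : ℝ) = θ then (1 : ℂ) else 0)) =
        Set.indicator {x : Set.Ico (0 : ℝ) 1 | (x : ℝ) = θ} (fun _ => (1 : ℂ)) := by
      funext x
      rw [Set.indicator_apply]
      rfl
    rw [e1, integral_indicator hms, setIntegral_const]
    simp
  have E5 : ∫ ω, ((f ω : ℝ) : ℂ) * g ω ∂P = ((ν.real {x | (x : ℝ) = θ} : ℝ) : ℂ) := by
    rw [← E4]
    refine tendsto_nhds_unique L1 ?_
    simp only [E3]
    exact L3
  have E6 : ∫ ω, ((f ω : ℝ) : ℂ) * g ω ∂P = ∫ ω, g ω * ((f ω : ℝ) : ℂ) ∂P := by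
    apply integral_congr_ae
    filter_upwards with ω
    ring
  rw [E6, ← E1, E2] at E5
  exact_mod_cast E5.symm

end Pool.Agent.H83.X
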