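import Pool.Agent.H83.X.T1
import Pool.Agent.H75.X.MTV

/-!
Row TPX: trigonometric polynomials along the primes.
-/

set_option autoImplicit false

open MeasureTheory ProbabilityTheory Filter Topology Finset
open scoped Nat ENNReal

namespace Pool.Agent.H83.X.TP

open Pool.Agent.H24.T2 (Pset)
open Pool.Agent.H24.AG (ee)
open Pool.Agent.H67.AG (avgP)
open Pool.Agent.H83.X
open Pool.Agent.H75.X (ee_norm ev_single)

theorem sum_split (L N : ℕ) (hL : 0 < L) (F : ℕ → ℝ) :
    ∑ n ∈ range (L * N), F n = ∑ r ∈ range L, ∑ m ∈ range N, F (r + L * m) := by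
  rw [← sum_product']
  symm
  refine sum_nbij' (fun q => q.1 + L * q.2) (fun n => (n % L, n / L)) ?_ ?_ ?_ ?_ ?_
  · rintro ⟨r, m⟩ h
    simp only [mem_product, mem_range] at h ⊢
    calc r + L * m < L + L * m := by omega
      _ = L * (m + 1) := by ring
      _ ≤ L * N := Nat.mul_le_mul_left L h.2
  · intro n h
    simp only [mem_product, mem_range] at h ⊢
    exact ⟨Nat.mod_lt _ hL, Nat.div_lt_of_lt_mul h⟩
  · rintro ⟨r, m⟩ h
    simp only [mem_product, mem_range] at h ⊢
    rw [Nat.add_mul_mod_self_left, Nat.mod_eq_of_lt h.1, Nat.add_mul_div_left _ _ hL,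
      Nat.div_eq_of_lt h.1, zero_add]
  · intro n _
    exact Nat.mod_add_div n L
  · rintro ⟨r, m⟩ _
    rfl

/-- the mean along `L N` -/
theorem mean_split (L : ℕ) (hL : 0 < L) (F : ℕ → ℝ) (g : ℕ → ℝ) (γ : ℝ)
    (h1 : Tendsto (fun N : ℕ => (∑ n ∈ range N, F n) / N) atTop (𝓝 γ))
    (h2 : ∀ r ∈ range L, Tendsto (fun N : ℕ => (∑ m ∈ range N, F (r + L * m)) / N) atTop
      (𝓝 (g r))) : γ = (∑ r ∈ range L, g r) / L := by
  have ht : Tendsto (fun N : ℕ => L * N) atTop atTop :=
    tendsto_atTop_mono (fun N => Nat.le_mul_of_pos_left N hL) tendsto_id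
  have h3 : Tendsto (fun N : ℕ => (∑ n ∈ range (L * N), F n) / ((L * N : ℕ) : ℝ)) atTop (𝓝 γ) :=
    h1.comp ht
  have h4 : Tendsto (fun N : ℕ => (∑ r ∈ range L, (∑ m ∈ range N, F (r + L * m)) / N) / L) atTop
      (𝓝 ((∑ r ∈ range L, g r) / L)) := (tendsto_finset_sum _ h2).div_const _
  refine tendsto_nhds_unique h3 (h4.congr fun N => ?_)
  rw [sum_split L N hL F, ← sum_div, div_div]
  push_cast
  rw [mul_comm (N : ℝ) L]

theorem ee_int (m : ℤ) : ee (m : ℝ) = 1 := by
  unfold ee
  rw [Complex.exp_eq_one_iff]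
  exact ⟨m, by push_cast; ring⟩

/-- multiples of the coordinates -/
def kk {a : ℕ} (q : ℕ) (k : ℝ → Fin a → ℤ) (β : ℝ) : Fin a → ℤ := fun i => (q : ℤ) * k β i

open Classical in
/-- the coefficients in one class -/
noncomputable def cr {a : ℕ} (S : Finset ℝ) (c : ℝ → ℂ) (q : ℕ) (k : ℝ → Fin a → ℤ) (r : ℕ)
    (v : Fin a → ℤ) : ℂ := ∑ β ∈ S.filter (fun β => kk q k β = v), c β * ee (r * β)

open Classical in
theorem cr_zero {a : ℕ} (S : Finset ℝ) (c : ℝ → ℂ) (q : ℕ) (k : ℝ → Fin a → ℤ) (r : ℕ)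
    (v : Fin a → ℤ) (hv : v ∉ S.image (kk q k)) : cr S c q k r v = 0 := by
  unfold cr
  rw [filter_eq_empty_iff.2, sum_empty]
  intro β hβ h
  exact hv (mem_image.2 ⟨β, hβ, h⟩)

open Classical in
theorem tv_b {a : ℕ} (α : Fin a → ℝ) (S : Finset ℝ) (c : ℝ → ℂ) (q Q : ℕ) (k : ℝ → Fin a → ℤ)
    (l : ℝ → ℤ) (hk : ∀ β ∈ S, Q * β = l β + ∑ i, (k β i : ℝ) * α i) (r m : ℕ) :
    tv α (S.image (kk q k)) (cr S c q k r) m =
      ∑ β ∈ S, c β * ee (((r + q * Q * m : ℕ) : ℝ) * β) := by
  unfold tv cr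
  have e1 : ∀ v ∈ S.image (kk q k),
      (∑ β ∈ S.filter (fun β => kk q k β = v), c β * ee (r * β)) *
        ee (m * ∑ i, (v i : ℝ) * α i) =
      ∑ β ∈ S.filter (fun β => kk q k β = v), c β * ee (((r + q * Q * m : ℕ) : ℝ) * β) := by
    intro v _
    rw [sum_mul]
    refine sum_congr rfl fun β hβ => ?_
    rw [mem_filter] at hβ
    rw [mul_assoc]
    congr 1
    have h1 : (((r + q * Q * m : ℕ) : ℝ) * β) =
        ((m * q * l β : ℤ) : ℝ) + (r * β + m * ∑ i, (v i : ℝ) * α i) := by
      have h2 : ∑ i, (v i : ℝ) * α i = q * ∑ i, (k β i : ℝ) * α i := by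
        rw [← hβ.2, mul_sum]
        refine sum_congr rfl fun i _ => ?_
        unfold kk
        push_cast
        ring
      rw [h2]
      have h3 := hk β hβ.1
      have h4 : ∑ i, (k β i : ℝ) * α i = Q * β - l β := by linarith
      rw [h4]
      push_cast
      ring
    rw [h1, ee_add, ee_int, one_mul, ee_add]
  rw [sum_congr rfl e1]
  exact sum_fiberwise_of_maps_to (fun β hβ => mem_image_of_mem _ hβ) _

theorem zero_nmem {a : ℕ} (α : Fin a → ℝ) (S : Finset ℝ) (q Q : ℕ) (k : ℝ → Fin a → ℤ)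
    (l : ℝ → ℤ) (hk : ∀ β ∈ S, Q * β = l β + ∑ i, (k β i : ℝ) * α i) (hq : 0 < q) (hQ : 0 < Q)
    (hS : ∀ β ∈ S, Irrational β) [DecidableEq (Fin a → ℤ)] : 0 ∉ S.image (kk q k) := by
  intro h
  obtain ⟨β, hβ, h1⟩ := mem_image.1 h
  have h2 : ∀ i, k β i = 0 := by
    intro i
    have h3 := congrFun h1 i
    unfold kk at h3
    simp only [Pi.zero_apply] at h3
    rcases mul_eq_zero.1 h3 with h4 | h4
    · exact absurd h4 (by exact_mod_cast hq.ne')
    · exact h4
  have h3 := hk β hβ
  simp only [h2, Int.cast_zero, zero_mul, sum_const_zero, add_zero] at h3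
  have hQ' : (Q : ℝ) ≠ 0 := by exact_mod_cast hQ.ne'
  apply hS β hβ
  refine ⟨(l β : ℚ) / Q, ?_⟩
  push_cast
  rw [div_eq_iff hQ', ← h3]
  ring

open Classical in
/-- the correlation of two trigonometric polynomials -/
theorem corr (hM : T_MTV) {a : ℕ} (α : Fin a → ℝ) (hI : Ind α) (s : Finset (Fin a → ℤ))
    (c₁ c₂ : (Fin a → ℤ) → ℂ) (h1 : ∀ k, k ∉ s → c₁ k = 0)
    (r1 : ∀ n, ∃ r : ℝ, |r| ≤ 1 ∧ tv α s c₁ n = r) (r2 : ∀ n, ∃ r : ℝ, |r| ≤ 1 ∧ tv α s c₂ n = r)
    (n : ℕ) : ∃ g : ℝ, ((g : ℝ) : ℂ) =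
      ∑ k ∈ s, c₁ (-k) * c₂ k * ee (n * ∑ i, (k i : ℝ) * α i) ∧
      Tendsto (fun N : ℕ => (∑ m ∈ range N, (tv α s c₁ m).re * (tv α s c₂ (m + n)).re) / N) atTop
        (𝓝 g) := by
  set x : AddMonoidAlgebra ℂ (Fin a → ℤ) := ∑ l ∈ s, ∑ k ∈ s,
    AddMonoidAlgebra.single (l + k) (c₁ l * c₂ k * ee (n * ∑ i, (k i : ℝ) * α i)) with hx
  have e1 : ∀ m : ℕ, ev α m x = tv α s c₁ m * tv α s c₂ (m + n) := by
    intro m
    rw [hx, map_sum]
    unfold tv
    rw [sum_mul_sum]
    refine sum_congr rfl fun l _ => ?_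
    rw [map_sum]
    refine sum_congr rfl fun k _ => ?_
    rw [ev_single]
    have h2 : ee (m * ∑ i, (((l + k : Fin a → ℤ) i : ℤ) : ℝ) * α i) =
        ee (m * ∑ i, (l i : ℝ) * α i) * ee (m * ∑ i, (k i : ℝ) * α i) := by
      rw [← ee_add]
      congr 1
      rw [← mul_add, ← sum_add_distrib]
      congr 1
      refine sum_congr rfl fun i _ => ?_
      rw [Pi.add_apply]
      push_cast
      ring
    have h3 : ee (((m + n : ℕ) : ℝ) * ∑ i, (k i : ℝ) * α i) =
        ee (m * ∑ i, (k i : ℝ) * α i) * ee (n * ∑ i, (k i : ℝ) * α i) := by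
      rw [← ee_add]
      congr 1
      push_cast
      ring
    rw [h2, h3]
    ring
  have e2 : x.coeff 0 = ∑ k ∈ s, c₁ (-k) * c₂ k * ee (n * ∑ i, (k i : ℝ) * α i) := by
    rw [hx, sum_comm, AddMonoidAlgebra.coeff_sum, Finsupp.finsetSum_apply]
    refine sum_congr rfl fun k _ => ?_
    rw [AddMonoidAlgebra.coeff_sum, Finsupp.finsetSum_apply]
    have h2 : ∀ l ∈ s, (AddMonoidAlgebra.single (l + k)
        (c₁ l * c₂ k * ee (n * ∑ i, (k i : ℝ) * α i))).coeff 0 =
        if l = -k then c₁ (-k) * c₂ k * ee (n * ∑ i, (k i : ℝ) * α i) else 0 := by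
      intro l _
      rw [AddMonoidAlgebra.coeff_single, Finsupp.single_apply]
      by_cases h : l = -k
      · subst h
        rw [if_pos (by simp), if_pos rfl]
      · rw [if_neg h, if_neg]
        intro h3
        exact h (eq_neg_of_add_eq_zero_left h3)
    rw [sum_congr rfl h2, sum_ite_eq']
    split_ifs with h
    · rfl
    · rw [h1 _ h]
      ring
  have h3 := hM a α x hI
  have h4 : ∀ N : ℕ, (∑ m ∈ range N, ev α m x) / (N : ℂ) =
      (((∑ m ∈ range N, (tv α s c₁ m).re * (tv α s c₂ (m + n)).re) / N : ℝ) : ℂ) := by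
    intro N
    push_cast
    congr 1
    refine sum_congr rfl fun m _ => ?_
    rw [e1]
    obtain ⟨u, _, hu⟩ := r1 m
    obtain ⟨v, _, hv⟩ := r2 (m + n)
    rw [hu, hv]
    simp
  simp only [h4] at h3
  have h5 : Tendsto (fun N : ℕ => (∑ m ∈ range N, (tv α s c₁ m).re * (tv α s c₂ (m + n)).re) / N)
      atTop (𝓝 (x.coeff 0).re) := by
    have h6 := (Complex.continuous_re.tendsto _).comp h3
    refine h6.congr fun N => ?_
    simp only [Function.comp_apply, Complex.ofReal_re]
  have h7 : (x.coeff 0).im = 0 := by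
    have h6 := (Complex.continuous_im.tendsto _).comp h3
    have h8 : Tendsto (fun _ : ℕ => (0 : ℝ)) atTop (𝓝 (x.coeff 0).im) := by
      refine h6.congr fun N => ?_
      simp only [Function.comp_apply, Complex.ofReal_im]
    exact (tendsto_nhds_unique h8 tendsto_const_nhds)
  refine ⟨(x.coeff 0).re, ?_, h5⟩
  rw [← e2]
  exact Complex.ext (by simp) (by simp [h7])

theorem avg_mono (m : ℕ) (F G : ℕ → ℝ) (h : ∀ p, F p ≤ G p) : avgP 2 m F ≤ avgP 2 m G := by
  unfold avgP
  gcongr
  exact h _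

theorem avg_one (m : ℕ) : avgP 2 m (fun _ => 1) ≤ 1 := by
  unfold avgP
  rw [sum_const, nsmul_eq_mul, mul_one]
  exact div_self_le_one _

theorem per {q : ℕ} {e : ℕ → ℝ} (he : ∀ n, e (n + q) = e n) (t n : ℕ) : e (n + q * t) = e n := by
  induction t with
  | zero => simp
  | succ t ih =>
    rw [Nat.mul_succ, ← Nat.add_assoc, he, ih]

theorem conv_mul {Φ : ℝ → ℝ} (hΦ : ConvexOn ℝ Set.univ Φ) (δ : ℝ) :
    ConvexOn ℝ Set.univ (fun t => Φ (δ * t)) := by
  refine ⟨convex_univ, fun x _ y _ a b ha hb hab => ?_⟩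
  have h := hΦ.2 (Set.mem_univ (δ * x)) (Set.mem_univ (δ * y)) ha hb hab
  simp only [smul_eq_mul] at h ⊢
  have e : δ * (a * x + b * y) = a * (δ * x) + b * (δ * y) := by ring
  rw [e]
  exact h

theorem sum_class (L : ℕ) (hL : 0 < L) (p h : ℕ) (F : ℕ → ℝ) :
    ∑ r ∈ range L, (if p * h ≡ r [MOD L] then F r else 0) = F ((p * h) % L) := by
  rw [sum_eq_single ((p * h) % L)]
  · rw [if_pos]
    exact (Nat.mod_modEq _ _).symm
  · intro r hr hne
    rw [if_neg]
    intro h1
    unfold Nat.ModEq at h1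
    rw [Nat.mod_eq_of_lt (mem_range.1 hr)] at h1
    exact hne h1.symm
  · intro h1
    exact absurd (mem_range.2 (Nat.mod_lt _ hL)) h1

end Pool.Agent.H83.X.TP

namespace Pool.Agent.H83.X

open Pool.Agent.H24.T2 (Pset)
open Pool.Agent.H24.AG (ee)
open Pool.Agent.H67.AG (avgP)
open Pool.Agent.H83.X.TP

open Classical in
theorem pf_TPX (h1 : T_BAS) (h2 : T_RSG) (h3 : T_PRC) (h4 : T_MTV) : T_TPX := by
  intro S c q e γ δ Φ w h M u η hS hb hq he heq hδ hγ hΦ hw hh hM hη
  obtain ⟨a, α, Q, k, l, hI, hQ, hk⟩ := h1 S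
  set s := S.image (kk q k) with hs
  have hs0 : (0 : Fin a → ℤ) ∉ s := zero_nmem α S q Q k l hk hq hQ hS
  set L := q * Q with hL
  have hL0 : 0 < L := Nat.mul_pos hq hQ
  have hL' : (0 : ℝ) < L := by exact_mod_cast hL0
  have tb : ∀ r m : ℕ, tv α s (cr S c q k r) m =
      ∑ β ∈ S, c β * ee (((r + L * m : ℕ) : ℝ) * β) := fun r m => tv_b α S c q Q k l hk r m
  have rb : ∀ r m : ℕ, ∃ t : ℝ, |t| ≤ 1 ∧ tv α s (cr S c q k r) m = t := fun r m => by
    rw [tb]
    exact hb _
  have hcorr := fun (r r' n' : ℕ) => corr h4 α hI s (cr S c q k r) (cr S c q k (r + r'))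
    (fun v hv => cr_zero S c q k r v hv) (rb r) (rb (r + r')) n'
  choose g hg hgl using hcorr
  have heL : ∀ r m : ℕ, e (r + L * m) = e r := by
    intro r m
    rw [hL, Nat.mul_assoc]
    exact per heq _ _
  have he0 : ∀ r, 0 ≤ e r := fun r => by rcases he r with h5 | h5 <;> rw [h5] <;> norm_num
  have hγg : ∀ r' n' : ℕ, γ (r' + L * n') = (∑ r ∈ range L, e r * g r r' n') / L := by
    intro r' n'
    refine mean_split L hL0 _ _ _ (hγ (r' + L * n')) fun r hr => ?_
    refine ((hgl r r' n').const_mul (e r)).congr fun N => ?_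
    rw [← mul_div_assoc, mul_sum]
    congr 1
    refine sum_congr rfl fun m _ => ?_
    rw [tb, tb, heL]
    have e3 : r + r' + L * (m + n') = r + L * m + (r' + L * n') := by ring
    rw [e3]
    ring
  have hδg : δ = (∑ r ∈ range L, e r) / L := by
    refine mean_split L hL0 _ _ _ hδ fun r hr => ?_
    refine tendsto_const_nhds.congr' ?_
    filter_upwards [eventually_gt_atTop 0] with N hN
    have hN' : (N : ℝ) ≠ 0 := by exact_mod_cast hN.ne'
    simp only [heL, sum_const, card_range, nsmul_eq_mul]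
    field_simp
  have hdm : ∀ n : ℕ, n % L + L * (n / L) = n := fun n => Nat.mod_add_div n L
  set Kf := ∑ r ∈ range L, e r with hKf
  have hK0 : 0 ≤ Kf := sum_nonneg fun r _ => he0 r
  rcases hK0.eq_or_lt with hK | hK
  · -- the density vanishes
    have hz : ∀ r ∈ range L, e r = 0 := (sum_eq_zero_iff_of_nonneg fun r _ => he0 r).1 hK.symm
    have hγ0 : ∀ n, γ n = 0 := by
      intro n
      rw [← hdm n, hγg, sum_eq_zero, zero_div]
      intro r hr
      rw [hz r hr, zero_mul]
    have hδ0 : δ = 0 := by rw [hδg, ← hK, zero_div]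
    refine ⟨0, fun m _ => ?_⟩
    have e5 : cU Φ δ = Φ 0 := by
      rw [hδ0]
      unfold cU
      simp only [zero_mul, intervalIntegral.integral_const]
      norm_num
    have e6 : (fun p => if p ≡ u [MOD M] then w p * (Φ (γ (p * h)) - cU Φ δ) else 0) =
        fun _ => (0 : ℝ) := by
      funext p
      rw [hγ0, e5, sub_self, mul_zero, ite_self]
    rw [e6]
    unfold avgP
    simp only [sum_const_zero, zero_div]
    exact hη.le
  · -- the main case
    have hJ : ∀ r' n' : ℕ, Φ (γ (r' + L * n')) ≤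
        ∑ r ∈ range L, e r / Kf * Φ (δ * g r r' n') := by
      intro r' n'
      have h5 := hΦ.map_sum_le (t := range L) (w := fun r => e r / Kf)
        (p := fun r => δ * g r r' n') (fun r _ => div_nonneg (he0 r) hK.le)
        (by rw [← sum_div]; exact div_self hK.ne') (fun r _ => Set.mem_univ _)
      simp only [smul_eq_mul] at h5
      have e7 : γ (r' + L * n') = ∑ r ∈ range L, e r / Kf * (δ * g r r' n') := by
        rw [hγg, sum_div]
        refine sum_congr rfl fun r _ => ?_
        rw [hδg]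
        field_simp
      rw [e7]
      exact h5
    have eU : cU (fun t => Φ (δ * t)) 1 = cU Φ δ := by
      unfold cU
      simp only [one_mul]
    have hR := fun r r' : ℕ => h2 a α s (cr S c q k r) (cr S c q k (r + r'))
      (fun t => Φ (δ * t)) (η / 4) (g r r') hI hs0 (fun v hv => cr_zero S c q k r v hv)
      (fun v hv => cr_zero S c q k (r + r') v hv) (conv_mul hΦ δ) (by positivity) (rb r)
      (rb (r + r')) (hg r r')
    choose s₂ d hd0 hdc hdb using hR
    have hP : ∀ᶠ m in atTop, ∀ r ∈ range L, ∀ r' ∈ range L,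
        |avgP 2 m (fun p => if p ≡ u [MOD M] ∧ p * h ≡ r' [MOD L] then
          w p * (tv α (s₂ r r') (d r r') ((p * h - r') / L)).re else 0) -
        (d r r' 0).re * avgP 2 m (fun p => if p ≡ u [MOD M] ∧ p * h ≡ r' [MOD L] then w p
          else 0)| ≤ η / (2 * L) := by
      rw [eventually_all_finset]
      intro r _
      rw [eventually_all_finset]
      intro r' hr'
      exact eventually_atTop.2 (h3 a α (s₂ r r') (d r r') w h L r' M u (η / (2 * L)) hI (hd0 r r')
        hw hh hL0 hM (mem_range.1 hr') (by positivity))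
    obtain ⟨m₀, hm₀⟩ := eventually_atTop.1 hP
    refine ⟨m₀, fun m hm => ?_⟩
    have hP' := hm₀ m hm
    -- the classes
    set A : ℕ → ℝ := fun r' =>
      avgP 2 m (fun p => if p ≡ u [MOD M] ∧ p * h ≡ r' [MOD L] then w p else 0) with hA
    set B : ℕ → ℕ → ℝ := fun r r' =>
      avgP 2 m (fun p => if p ≡ u [MOD M] ∧ p * h ≡ r' [MOD L] then
          w p * (tv α (s₂ r r') (d r r') ((p * h - r') / L)).re else 0) with hB
    have hA0 : ∀ r', 0 ≤ A r' := by
      intro r'
      simp only [hA]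
      unfold avgP
      refine div_nonneg (sum_nonneg fun p _ => ?_) (Nat.cast_nonneg _)
      split_ifs
      · exact hw.nn p
      · exact le_rfl
    have hA1 : ∑ r' ∈ range L, A r' ≤ 1 := by
      have e8 : ∑ r' ∈ range L, A r' = avgP 2 m (fun p => ∑ r' ∈ range L,
          if p ≡ u [MOD M] ∧ p * h ≡ r' [MOD L] then w p else 0) := by
        simp only [hA]
        unfold avgP
        rw [← sum_div, sum_comm]
      rw [e8]
      refine le_trans (avg_mono m _ (fun _ => 1) fun p => ?_) (avg_one m)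
      by_cases hpu : p ≡ u [MOD M]
      · simp only [hpu, true_and]
        rw [sum_class L hL0 p h (fun _ => w p)]
        exact hw.le p
      · simp only [hpu, false_and, if_false, sum_const_zero]
        norm_num
    have hpt : ∀ p : ℕ, (if p ≡ u [MOD M] then w p * (Φ (γ (p * h)) - cU Φ δ) else 0) ≤
        ∑ r' ∈ range L, (∑ r ∈ range L, e r / Kf *
          (if p ≡ u [MOD M] ∧ p * h ≡ r' [MOD L] then
            w p * (tv α (s₂ r r') (d r r') ((p * h - r') / L)).re else 0) +
          (η / 4 - cU Φ δ) * (if p ≡ u [MOD M] ∧ p * h ≡ r' [MOD L] then w p else 0)) := by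
      intro p
      by_cases hpu : p ≡ u [MOD M]
      · simp only [hpu, true_and, if_true]
        have e9 : ∀ r' ∈ range L, (∑ r ∈ range L, e r / Kf *
            (if p * h ≡ r' [MOD L] then
              w p * (tv α (s₂ r r') (d r r') ((p * h - r') / L)).re else 0) +
            (η / 4 - cU Φ δ) * (if p * h ≡ r' [MOD L] then w p else 0)) =
            if p * h ≡ r' [MOD L] then (∑ r ∈ range L, e r / Kf *
              (w p * (tv α (s₂ r r') (d r r') ((p * h - r') / L)).re) +
              (η / 4 - cU Φ δ) * w p) else 0 := by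
          intro r' _
          split_ifs
          · rfl
          · simp
        rw [sum_congr rfl e9, sum_class L hL0 p h]
        set r₀ := (p * h) % L with hr₀
        have e10 : (p * h - r₀) / L = p * h / L := by
          have h6 := hdm (p * h)
          have : p * h - r₀ = L * (p * h / L) := by omega
          rw [this, Nat.mul_div_cancel_left _ hL0]
        rw [e10]
        set n' := p * h / L with hn'
        have e11 : p * h = r₀ + L * n' := (hdm (p * h)).symm
        have h7 : Φ (γ (p * h)) ≤ ∑ r ∈ range L, e r / Kf *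
            ((tv α (s₂ r r₀) (d r r₀) n').re + η / 4) := by
          rw [e11]
          refine le_trans (hJ r₀ n') (sum_le_sum fun r _ => ?_)
          refine mul_le_mul_of_nonneg_left ?_ (div_nonneg (he0 r) hK.le)
          have h8 := hdb r r₀ n'
          have h9 := le_trans (Complex.abs_re_le_norm _) h8
          simp only [Complex.sub_re, Complex.ofReal_re] at h9
          have h10 := (abs_le.1 h9).2
          linarith
        have h8 : ∑ r ∈ range L, e r / Kf * ((tv α (s₂ r r₀) (d r r₀) n').re + η / 4) =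
            ∑ r ∈ range L, e r / Kf * (tv α (s₂ r r₀) (d r r₀) n').re + η / 4 := by
          simp only [mul_add]
          rw [sum_add_distrib, ← sum_mul, ← sum_div, div_self hK.ne', one_mul]
        have h9 : ∑ r ∈ range L, e r / Kf * (w p * (tv α (s₂ r r₀) (d r r₀) n').re) =
            w p * ∑ r ∈ range L, e r / Kf * (tv α (s₂ r r₀) (d r r₀) n').re := by
          rw [mul_sum]
          refine sum_congr rfl fun r _ => ?_
          ring
        rw [h9]
        have h10 : w p * (Φ (γ (p * h)) - cU Φ δ) ≤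
            w p * (∑ r ∈ range L, e r / Kf * (tv α (s₂ r r₀) (d r r₀) n').re + η / 4 -
              cU Φ δ) := by
          refine mul_le_mul_of_nonneg_left ?_ (hw.nn p)
          linarith
        refine le_trans h10 (le_of_eq ?_)
        ring
      · simp only [hpu, false_and, if_false, mul_zero, sum_const_zero, add_zero]
        exact le_rfl
    have hlin : avgP 2 m (fun p => ∑ r' ∈ range L, (∑ r ∈ range L, e r / Kf *
          (if p ≡ u [MOD M] ∧ p * h ≡ r' [MOD L] then
            w p * (tv α (s₂ r r') (d r r') ((p * h - r') / L)).re else 0) +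
          (η / 4 - cU Φ δ) * (if p ≡ u [MOD M] ∧ p * h ≡ r' [MOD L] then w p else 0))) =
        ∑ r' ∈ range L, (∑ r ∈ range L, e r / Kf * B r r' + (η / 4 - cU Φ δ) * A r') := by
      simp only [hA, hB]
      unfold avgP
      rw [sum_comm, sum_div]
      refine sum_congr rfl fun r' _ => ?_
      rw [sum_add_distrib, add_div, sum_comm, sum_div, ← mul_sum, mul_div_assoc]
      congr 1
      refine sum_congr rfl fun r _ => ?_
      rw [← mul_sum, mul_div_assoc]
    refine le_trans (avg_mono m _ _ hpt) ?_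
    rw [hlin]
    have hfin : ∀ r' ∈ range L, (∑ r ∈ range L, e r / Kf * B r r' + (η / 4 - cU Φ δ) * A r') ≤
        η / 2 * A r' + η / (2 * L) := by
      intro r' hr'
      have h5 : ∑ r ∈ range L, e r / Kf * B r r' ≤
          ∑ r ∈ range L, e r / Kf * ((cU Φ δ + η / 4) * A r' + η / (2 * L)) := by
        refine sum_le_sum fun r hr => ?_
        refine mul_le_mul_of_nonneg_left ?_ (div_nonneg (he0 r) hK.le)
        have h6 := (abs_le.1 (hP' r hr r' hr')).2
        have h7 := hdc r r'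
        rw [eU] at h7
        have h8 : (d r r' 0).re * A r' ≤ (cU Φ δ + η / 4) * A r' :=
          mul_le_mul_of_nonneg_right h7 (hA0 r')
        simp only [hA, hB] at h6 h8 ⊢
        linarith
      rw [← sum_mul, ← sum_div, div_self hK.ne', one_mul] at h5
      nlinarith
    refine le_trans (sum_le_sum hfin) ?_
    rw [sum_add_distrib, ← mul_sum, sum_const, card_range, nsmul_eq_mul]
    have h5 : (L : ℝ) * (η / (2 * L)) = η / 2 := by field_simp
    rw [h5]
    nlinarith

end Pool.Agent.H83.X
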