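import Pool.Agent.H83.V.AllV
import Pool.Agent.H96.LF.THC
import Pool.Agent.H83.X.HandX
import Pool.Agent.H1.X.CLP
import Pool.Agent.H1.X.REA
import Pool.Agent.H11.X.EXT
import Pool.Agent.H11.X.XCB
import Pool.Agent.H13.X.XLB
import Pool.Agent.H16.X.XLM
import Pool.Agent.H16.X.XSX
import Pool.Agent.H16.X.XWN
import Pool.Agent.H16.X.XWS
import Pool.Agent.H26.X.PNT
import Pool.Agent.H26.X.XCI
import Pool.Agent.H26.X.XJN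
import Pool.Agent.H32.X.XEX
import Pool.Agent.H34.X.APA
import Pool.Agent.H34.X.PRC
import Pool.Agent.H34.X.VWC
import Pool.Agent.H47.X.DW1
import Pool.Agent.H47.X.DW2
import Pool.Agent.H48.X.BAS
import Pool.Agent.H48.X.EGR
import Pool.Agent.H48.X.EIG
import Pool.Agent.H48.X.FOL
import Pool.Agent.H48.X.XLI
import Pool.Agent.H48.X.XLN
import Pool.Agent.H49.X.SMP
import Pool.Agent.H5.X.KXX
import Pool.Agent.H52.X.CSP
import Pool.Agent.H52.X.XEQ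
import Pool.Agent.H52.X.XJM
import Pool.Agent.H66.X.ERR
import Pool.Agent.H67.X.POL
import Pool.Agent.H67.X.VWT
import Pool.Agent.H67.X.XMO
import Pool.Agent.H70.X.DCX
import Pool.Agent.H74.X.XJL
import Pool.Agent.H75.X.MTV
import Pool.Agent.H75.X.RIE
import Pool.Agent.H79.X.XFS
import Pool.Agent.H82.X.RSG
import Pool.Agent.H83.X.APB
import Pool.Agent.H83.X.APX
import Pool.Agent.H83.X.SPX
import Pool.Agent.H83.X.TPX
import Pool.Agent.H83.X.XWT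
import Pool.Agent.H89.X.SDX
import Pool.Agent.H89.X.XL1
import Pool.Agent.H95.X.AVG
import Pool.Agent.H99.X.DW3
import Pool.Agent.H99.X.KCP

/-!
Theorem X, closed.
-/

set_option autoImplicit false

namespace Pool.Agent.H83.X.AllX

open Pool.Agent.H67.AG.AllF
open Pool.Agent.H83.V
open Pool.Agent.H83.X

theorem x_POL : Pool.Agent.H83.X.T_POL := Pool.Agent.H67.X.pf_POL
theorem x_MAJ : Pool.Agent.H83.X.T_MAJ := Pool.Agent.H67.X.pf_MAJ x_POL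
theorem x_EXT : Pool.Agent.H83.X.T_EXT := Pool.Agent.H11.X.pf_EXT x_MAJ
theorem x_RIE : Pool.Agent.H83.X.T_RIE := Pool.Agent.H75.X.pf_RIE x_EXT
theorem x_MTV : Pool.Agent.H83.X.T_MTV := Pool.Agent.H75.X.pf_MTV
theorem x_SMP : Pool.Agent.H83.X.T_SMP := Pool.Agent.H49.X.pf_SMP
theorem x_REA : Pool.Agent.H83.X.T_REA := Pool.Agent.H1.X.pf_REA x_MTV
theorem x_CLP : Pool.Agent.H83.X.T_CLP := Pool.Agent.H1.X.pf_CLP x_MTV x_REA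
theorem x_RSG : Pool.Agent.H83.X.T_RSG := Pool.Agent.H82.X.pf_RSG x_RIE x_MTV x_SMP x_REA x_CLP
theorem x_BAS : Pool.Agent.H83.X.T_BAS := Pool.Agent.H48.X.pf_BAS
theorem x_VWT : Pool.Agent.H83.X.T_VWT := Pool.Agent.H67.X.pf_VWT c_VIR
theorem x_VWC : Pool.Agent.H83.X.T_VWC := Pool.Agent.H34.X.pf_VWC x_VWT
theorem x_PRC : Pool.Agent.H83.X.T_PRC := Pool.Agent.H34.X.pf_PRC x_VWC
theorem x_TPX : Pool.Agent.H83.X.T_TPX := Pool.Agent.H83.X.pf_TPX x_BAS x_RSG x_PRC x_MTV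
theorem x_EIG : Pool.Agent.H83.X.T_EIG := Pool.Agent.H48.X.pf_EIG
theorem x_EGR : Pool.Agent.H83.X.T_EGR := Pool.Agent.H48.X.pf_EGR
theorem x_SPX : Pool.Agent.H83.X.T_SPX := Pool.Agent.H83.X.pf_SPX c_VHG
theorem x_FOL : Pool.Agent.H83.X.T_FOL := Pool.Agent.H48.X.pf_FOL
theorem x_APA : Pool.Agent.H83.X.T_APA := Pool.Agent.H34.X.pf_APA
theorem x_APB : Pool.Agent.H83.X.T_APB := Pool.Agent.H83.X.pf_APB
theorem x_APX : Pool.Agent.H83.X.T_APX := Pool.Agent.H83.X.pf_APX x_EIG x_EGR x_SPX x_FOL x_APA x_APB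
theorem x_AVG : Pool.Agent.H83.X.T_AVG := Pool.Agent.H95.X.pf_AVG x_VWT
theorem x_CSP : Pool.Agent.H83.X.T_CSP := Pool.Agent.H52.X.pf_CSP
theorem x_ERR : Pool.Agent.H83.X.T_ERR := Pool.Agent.H66.X.pf_ERR x_CSP x_AVG
theorem x_PNT : Pool.Agent.H83.X.T_PNT := Pool.Agent.H26.X.pf_PNT v_BK
theorem x_KXX : Pool.Agent.H83.X.T_KXX := Pool.Agent.H5.X.pf_KXX x_APX x_ERR x_PNT x_TPX
theorem x_DW1 : Pool.Agent.H83.X.T_DW1 := Pool.Agent.H47.X.pf_DW1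
theorem x_DW2 : Pool.Agent.H83.X.T_DW2 := Pool.Agent.H47.X.pf_DW2
theorem x_DW3 : Pool.Agent.H83.X.T_DW3 := Pool.Agent.H99.X.pf_DW3 v_DVS
theorem x_KCP : Pool.Agent.H83.X.T_KCP := Pool.Agent.H99.X.pf_KCP x_KXX x_DW1 x_DW2 x_DW3
theorem x_XWN : Pool.Agent.H83.X.T_XWN := Pool.Agent.H16.X.pf_XWN
theorem x_XWT : Pool.Agent.H83.X.T_XWT := Pool.Agent.H83.X.pf_XWT
theorem x_XL1 : Pool.Agent.H83.X.T_XL1 := Pool.Agent.H89.X.pf_XL1 x_XWT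
theorem x_XLB : Pool.Agent.H83.X.T_XLB := Pool.Agent.H13.X.pf_XLB x_XWN x_XL1 v_LDB
theorem x_XLI : Pool.Agent.H83.X.T_XLI := Pool.Agent.H48.X.pf_XLI
theorem x_XSX : Pool.Agent.H83.X.T_XSX := Pool.Agent.H16.X.pf_XSX v_SHP x_XLI v_LDB
theorem x_XLN : Pool.Agent.H83.X.T_XLN := Pool.Agent.H48.X.pf_XLN
theorem x_XFS : Pool.Agent.H83.X.T_XFS := Pool.Agent.H79.X.pf_XFS v_BK
theorem x_XMO : Pool.Agent.H83.X.T_XMO := Pool.Agent.H67.X.pf_XMO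
theorem x_XMT : Pool.Agent.H83.X.T_XMT := Pool.Agent.H67.X.pf_XMT
theorem x_XEQ : Pool.Agent.H83.X.T_XEQ := Pool.Agent.H52.X.pf_XEQ
theorem x_XEX : Pool.Agent.H83.X.T_XEX := Pool.Agent.H32.X.pf_XEX
theorem x_XJM : Pool.Agent.H83.X.T_XJM := Pool.Agent.H52.X.pf_XJM
theorem x_XJL : Pool.Agent.H83.X.T_XJL := Pool.Agent.H74.X.pf_XJL x_KCP x_XMT v_LBV
theorem x_XCI : Pool.Agent.H83.X.T_XCI := Pool.Agent.H26.X.pf_XCI v_DVS (Pool.Agent.H96.LF.pf_THC v_THV)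
theorem x_XCB : Pool.Agent.H83.X.T_XCB := Pool.Agent.H11.X.pf_XCB v_DVS
theorem x_DCX : Pool.Agent.H83.X.T_DCX := Pool.Agent.H70.X.pf_DCX c_ME
theorem x_SDX : Pool.Agent.H83.X.T_SDX := Pool.Agent.H89.X.pf_SDX
theorem x_XLM : Pool.Agent.H83.X.T_XLM := Pool.Agent.H16.X.pf_XLM
theorem x_XWS : Pool.Agent.H83.X.T_XWS := Pool.Agent.H16.X.pf_XWS
theorem x_XJN : Pool.Agent.H83.X.T_XJN := Pool.Agent.H26.X.pf_XJN

theorem core : ∀ (z : Bool) (h : ℕ) (Φ : ℝ → ℝ) (δ : ℝ), 0 < h → ConvexOn ℝ Set.univ Φ →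
    DnX z h δ → CoreX z h Φ δ :=
  coreX_of x_XLB x_XSX x_XLN x_XFS x_XMO x_XEQ x_XEX x_XJM x_XJL x_XWS x_XCI x_XCB x_DCX x_SDX x_XLM
    v_LBV v_YEX v_YLW v_YRL v_YST v_YSQ v_YMR v_CMP

/-- Theorem X -/
theorem thmX (z : Bool) (h : ℕ) (Φ : ℝ → ℝ) (δ : ℝ) (hh : 0 < h)
    (hΦ : ConvexOn ℝ Set.univ Φ) (hδ : DnX z h δ) : ThmX z h Φ δ :=
  x_XJN z h Φ δ hΦ (core z h Φ δ hh hΦ hδ)

end Pool.Agent.H83.X.AllX
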