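import Pool.Agent.H83.X.Defs

/-!
Theorem X: targets for the sections 1-4 (page `H83_X.md`): residues modulo a prime, trigonometric
polynomials, primes.
-/

set_option autoImplicit false

open MeasureTheory ProbabilityTheory Filter Topology Finset
open scoped Nat ENNReal

namespace Pool.Agent.H83.X

open Pool.Agent.H24.T2 (Pset)
open Pool.Agent.H24.AG (ee)
open Pool.Agent.H67.AG (avgP ul Inv Rt Av)

/-! ### Section 1: residues modulo a prime -/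

open Classical in
/-- POL: the theorem of Pollard. -/
def T_POL : Prop := ∀ (p : ℕ) [Fact p.Prime] (A B : Finset (ZMod p)) (t : ℕ), t ≤ A.card →
  t ≤ B.card → t * min p (A.card + B.card - t) ≤
    ∑ x : ZMod p, min t ((A ×ˢ B).filter fun q => q.1 + q.2 = x).card

open Classical in
/-- MAJ: majorization for sets (from `T_POL`). -/
def T_MAJ : Prop := ∀ (p m : ℕ) [Fact p.Prime] (A B : Finset (ZMod p)) (ph : ℝ → ℝ),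
  p = 2 * m + 1 → A.card = m → B.card = m → ConvexOn ℝ Set.univ ph →
  ∑ x : ZMod p, ph (((A ×ˢ B).filter fun q => q.1 + x = q.2).card : ℝ) ≤
    ∑ r ∈ range m, 2 * ph (r : ℝ) + ph (m : ℝ)

/-- EXT: majorization for functions (from `T_MAJ`). -/
def T_EXT : Prop := ∀ (p m : ℕ) [Fact p.Prime] (a b : ZMod p → ℝ) (ph : ℝ → ℝ),
  p = 2 * m + 1 → (∀ x, 0 ≤ a x ∧ a x ≤ 1) → (∀ x, 0 ≤ b x ∧ b x ≤ 1) → ∑ x, a x = m →
  ∑ x, b x = m → ConvexOn ℝ Set.univ ph →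
  ∑ x : ZMod p, ph (∑ y, a y * b (y + x)) ≤ ∑ r ∈ range m, 2 * ph (r : ℝ) + ph (m : ℝ)

/-- RIE: the inequality in terms of the integral of `Φ` (from `T_EXT`). -/
def T_RIE : Prop := ∀ Φ : ℝ → ℝ, ConvexOn ℝ Set.univ Φ → ∃ C : ℝ, 0 < C ∧
  ∀ (p : ℕ) [Fact p.Prime] (κ : ℝ) (f g : ZMod p → ℝ), 2 < p → 0 ≤ κ → (∀ x, |f x| ≤ 1) →
    (∀ x, |g x| ≤ 1) → |∑ x, f x| ≤ κ * p → |∑ x, g x| ≤ κ * p →
    (∑ x : ZMod p, Φ ((∑ y, f y * g (y + x)) / p)) / p ≤ cU Φ 1 + C * (κ + 1 / p)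

/-! ### Section 2: trigonometric polynomials -/

/-- MTV: the mean is the constant coefficient. -/
def T_MTV : Prop := ∀ (a : ℕ) (α : Fin a → ℝ) (x : AddMonoidAlgebra ℂ (Fin a → ℤ)), Ind α →
  Tendsto (fun N : ℕ => (∑ n ∈ range N, ev α n x) / N) atTop (𝓝 (x.coeff 0))

/-- SMP: the mean over the residues modulo `P` is the constant coefficient. -/
def T_SMP : Prop := ∀ (a : ℕ) (F : Finset (AddMonoidAlgebra ℂ (Fin a → ℤ))), ∃ B P₀ : ℕ,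
  0 < P₀ ∧ ∀ P : ℕ, P₀ ≤ P → ∀ x ∈ F,
    (∑ j ∈ range P, ev (fun i : Fin a => (B : ℝ) ^ (i : ℕ) / P) j x) / P = x.coeff 0

/-- REA: a trigonometric polynomial which is real on one generic orbit is real (from `T_MTV`). -/
def T_REA : Prop := ∀ (a : ℕ) (α α' : Fin a → ℝ) (x : AddMonoidAlgebra ℂ (Fin a → ℤ)), Ind α →
  (∀ n : ℕ, (ev α n x).im = 0) → ∀ n : ℕ, (ev α' n x).im = 0

/-- CLP: a trigonometric polynomial with values in `[-1, 1]` on a generic orbit is nearly in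
`[-1, 1]` on the residues modulo `P` (from `T_MTV`, `T_SMP`). -/
def T_CLP : Prop := ∀ (a : ℕ) (α : Fin a → ℝ) (x : AddMonoidAlgebra ℂ (Fin a → ℤ)) (η : ℝ),
  Ind α → 0 < η → (∀ n : ℕ, ∃ r : ℝ, |r| ≤ 1 ∧ ev α n x = r) →
  ∃ F : Finset (AddMonoidAlgebra ℂ (Fin a → ℤ)), ∀ (P : ℕ) (α' : Fin a → ℝ), 0 < P →
    (∀ y ∈ F, (∑ j ∈ range P, ev α' j y) / P = y.coeff 0) →
    (∑ j ∈ range P, max 0 (|(ev α' j x).re| - 1)) / P ≤ η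

/-- RSG: the correlation of two bounded trigonometric polynomials without constant term (from
`T_RIE`, `T_MTV`, `T_SMP`, `T_REA`, `T_CLP`). -/
def T_RSG : Prop := ∀ (a : ℕ) (α : Fin a → ℝ) (s : Finset (Fin a → ℤ)) (c c' : (Fin a → ℤ) → ℂ)
  (Φ : ℝ → ℝ) (η : ℝ) (γ : ℕ → ℝ), Ind α → 0 ∉ s → (∀ k, k ∉ s → c k = 0) →
  (∀ k, k ∉ s → c' k = 0) → ConvexOn ℝ Set.univ Φ → 0 < η →
  (∀ n, ∃ r : ℝ, |r| ≤ 1 ∧ tv α s c n = r) → (∀ n, ∃ r : ℝ, |r| ≤ 1 ∧ tv α s c' n = r) →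
  (∀ n : ℕ, (γ n : ℂ) = ∑ k ∈ s, c (-k) * c' k * ee (n * ∑ i, (k i : ℝ) * α i)) →
  ∃ (s₂ : Finset (Fin a → ℤ)) (d : (Fin a → ℤ) → ℂ), 0 ∈ s₂ ∧ (d 0).re ≤ cU Φ 1 + η ∧
    ∀ n : ℕ, ‖((Φ (γ n) : ℝ) : ℂ) - tv α s₂ d n‖ ≤ η

/-- BAS: coordinates of finitely many frequencies. -/
def T_BAS : Prop := ∀ S : Finset ℝ, ∃ (a : ℕ) (α : Fin a → ℝ) (Q : ℕ) (k : ℝ → Fin a → ℤ)
  (l : ℝ → ℤ), Ind α ∧ 0 < Q ∧ ∀ β ∈ S, Q * β = l β + ∑ i, (k β i : ℝ) * α i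

/-! ### Section 3: primes -/

/-- VWT: exponential sums over primes with admissible weights (from `T_VIR`). -/
def T_VWT : Prop := ∀ w : ℕ → ℝ, Wt w → ∀ θ : ℝ, Irrational θ →
  Tendsto (fun m => ‖∑ p ∈ Pset 2 m, (w p : ℂ) * ee (θ * p)‖ / (Pset 2 m).card) atTop (𝓝 0)

/-- VWC: the same with a periodic factor (from `T_VWT`). -/
def T_VWC : Prop := ∀ (w : ℕ → ℝ) (M : ℕ) (B : ℕ → ℝ) (θ : ℝ), Wt w → 0 < M →
  (∀ n, B (n + M) = B n) → Irrational θ →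
  Tendsto (fun m => ‖∑ p ∈ Pset 2 m, (w p : ℂ) * (B p : ℂ) * ee (θ * p)‖ / (Pset 2 m).card)
    atTop (𝓝 0)

/-- PRC: one class of primes (from `T_VWC`). -/
def T_PRC : Prop := ∀ (a : ℕ) (α : Fin a → ℝ) (s : Finset (Fin a → ℤ)) (d : (Fin a → ℤ) → ℂ)
  (w : ℕ → ℝ) (h L r M u : ℕ) (η : ℝ), Ind α → 0 ∈ s → Wt w → 0 < h → 0 < L → 0 < M → r < L →
  0 < η → ∃ m₀ : ℕ, ∀ m, m₀ ≤ m →
    |avgP 2 m (fun p => if p ≡ u [MOD M] ∧ p * h ≡ r [MOD L] then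
        w p * (tv α s d ((p * h - r) / L)).re else 0) -
      (d 0).re * avgP 2 m (fun p => if p ≡ u [MOD M] ∧ p * h ≡ r [MOD L] then w p else 0)| ≤ η

/-- TPX: trigonometric polynomials along the primes (from `T_BAS`, `T_RSG`, `T_PRC`). -/
def T_TPX : Prop := ∀ (S : Finset ℝ) (c : ℝ → ℂ) (q : ℕ) (e γ : ℕ → ℝ) (δ : ℝ) (Φ : ℝ → ℝ)
  (w : ℕ → ℝ) (h M u : ℕ) (η : ℝ), (∀ β ∈ S, Irrational β) →
  (∀ n : ℕ, ∃ r : ℝ, |r| ≤ 1 ∧ ∑ β ∈ S, c β * ee (n * β) = r) → 0 < q →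
  (∀ n, e n = 0 ∨ e n = 1) → (∀ n, e (n + q) = e n) →
  Tendsto (fun N : ℕ => (∑ m ∈ range N, e m) / N) atTop (𝓝 δ) →
  (∀ n : ℕ, Tendsto (fun N : ℕ => (∑ m ∈ range N, e m * (∑ β ∈ S, c β * ee (m * β)).re *
    (∑ β ∈ S, c β * ee ((m + n : ℕ) * β)).re) / N) atTop (𝓝 (γ n))) →
  ConvexOn ℝ Set.univ Φ → Wt w → 0 < h → 0 < M → 0 < η →
  ∃ m₀ : ℕ, ∀ m, m₀ ≤ m →
    avgP 2 m (fun p => if p ≡ u [MOD M] then w p * (Φ (γ (p * h)) - cU Φ δ) else 0) ≤ η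

end Pool.Agent.H83.X
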