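import Pool.Agent.H83.X.T1

/-!
Theorem X: targets for the sections 5-6 (page `H83_X.md`): ergodic systems, components.
-/

set_option autoImplicit false

open MeasureTheory ProbabilityTheory Filter Topology Finset
open scoped Nat ENNReal

namespace Pool.Agent.H83.X

open Pool.Agent.H24.T2 (Pset)
open Pool.Agent.H24.AG (ee)
open Pool.Agent.H67.AG (avgP ul Inv Rt Av)
open Pool.Agent.H28.LF (lt ng SS ptS LX Xi LY Yi shX shY lX lY btY flY xiY SysX SysY CompY LwY ExY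
  Wa DcO)
open Pool.Agent.H83.V (vl fz)

/-! ### Section 4: ergodic systems -/

/-- EIG: the projections to the eigenfunctions exist. -/
def T_EIG : Prop := ∀ (Ω : Type) [MeasurableSpace Ω] (P : Measure Ω) [IsProbabilityMeasure P]
  (T : Ω ≃ᵐ Ω) (f : Ω → ℝ) (θ : ℝ), MeasurePreserving T P P → Measurable f →
  (∀ ω, |f ω| ≤ 2) → ∃ g : Ω → ℂ, Eig P T f θ g

/-- EGR: no rational eigenvalues. -/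
def T_EGR : Prop := ∀ (Ω : Type) [MeasurableSpace Ω] (P : Measure Ω) [IsProbabilityMeasure P]
  (T : Ω ≃ᵐ Ω) (f : Ω → ℝ) (θ : ℝ) (g : Ω → ℂ), MeasurePreserving T P P → Measurable f →
  (∀ ω, |f ω| ≤ 2) → (∀ W : ℕ, 0 < W → P[f | Inv T W] =ᵐ[P] 0) → ¬ Irrational θ →
  Eig P T f θ g → ∀ᵐ ω ∂P, g ω = 0

/-- SPX: the spectral measure and its atoms (from `T_VHG`). -/
def T_SPX : Prop := ∀ (Ω : Type) [MeasurableSpace Ω] (P : Measure Ω) [IsProbabilityMeasure P]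
  (T : Ω ≃ᵐ Ω) (f : Ω → ℝ), MeasurePreserving T P P → Measurable f → (∀ ω, |f ω| ≤ 2) →
  ∃ σ : Measure (Set.Ico (0 : ℝ) 1), IsFiniteMeasure σ ∧
    (∀ n : ℕ, ((∫ ω, f ω * f (T^[n] ω) ∂P : ℝ) : ℂ) = ∫ x, ee ((x : ℝ) * n) ∂σ) ∧
    ∀ (θ : ℝ) (g : Ω → ℂ), 0 ≤ θ → θ < 1 → Eig P T f θ g →
      σ.real {x | (x : ℝ) = θ} = ∫ ω, ‖g ω‖ ^ 2 ∂P

/-- FOL: kernels with coefficients near `1` at given frequencies. -/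
def T_FOL : Prop := ∀ (S : Finset ℝ) (η : ℝ), 0 < η → ∃ (A : Finset ℝ) (k : ℝ → ℝ),
  (∀ γ ∈ A, 0 ≤ γ ∧ γ < 1) ∧ 0 ∈ A ∧ k 0 = 1 ∧ (∀ γ ∈ A, 0 ≤ k γ ∧ k γ ≤ 1) ∧
  (∀ β ∈ S, Int.fract β ∈ A ∧ 1 - η ≤ k (Int.fract β)) ∧
  ∀ n : ℕ, ∃ r : ℝ, 0 ≤ r ∧ ∑ γ ∈ A, (k γ : ℂ) * ee (n * γ) = r

/-- `F` is a bounded approximation of `s` by finitely many eigenfunctions, up to `η` in the
atoms of the spectral measure -/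
structure Apx {Ω : Type} [MeasurableSpace Ω] (P : Measure Ω) (T : Ω ≃ᵐ Ω) (s F : Ω → ℝ)
    (η : ℝ) : Prop where
  meas : Measurable F
  bd : ∀ ω, |F ω| ≤ 1
  eig : ∃ (S : Finset ℝ) (g : ℝ → Ω → ℂ), (∀ β ∈ S, Irrational β) ∧
    (∀ β ∈ S, ∀ᵐ ω ∂P, g β (T ω) = ee β * g β ω) ∧ ∀ᵐ ω ∂P, (F ω : ℂ) = ∑ β ∈ S, g β ω
  atm : ∃ σ : Measure (Set.Ico (0 : ℝ) 1), IsFiniteMeasure σ ∧
    (∀ n : ℕ, ((∫ ω, (s ω - F ω) * (s (T^[n] ω) - F (T^[n] ω)) ∂P : ℝ) : ℂ) =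
      ∫ x, ee ((x : ℝ) * n) ∂σ) ∧
    ∀ A : Finset ℝ, σ.real {x | (x : ℝ) ∈ A} ≤ η

/-- APA: the bounded function of a kernel. -/
def T_APA : Prop := ∀ (Ω : Type) [MeasurableSpace Ω] (P : Measure Ω) [IsProbabilityMeasure P]
  (T : Ω ≃ᵐ Ω) (s : Ω → ℝ) (A : Finset ℝ) (k : ℝ → ℝ) (g : ℝ → Ω → ℂ),
  MeasurePreserving T P P → Measurable s → (∀ ω, |s ω| ≤ 1) →
  (∀ γ ∈ A, 0 ≤ γ ∧ γ < 1) → 0 ∈ A → k 0 = 1 →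
  (∀ n : ℕ, ∃ r : ℝ, 0 ≤ r ∧ ∑ γ ∈ A, (k γ : ℂ) * ee (n * γ) = r) →
  (∀ γ ∈ A, Eig P T s γ (g γ)) →
  ∃ F : Ω → ℝ, Measurable F ∧ (∀ ω, |F ω| ≤ 1) ∧ ∀ᵐ ω ∂P, (F ω : ℂ) = ∑ γ ∈ A, (k γ : ℂ) * g γ ω

open Classical in
/-- APB: the projections of `s - F`. -/
def T_APB : Prop := ∀ (Ω : Type) [MeasurableSpace Ω] (P : Measure Ω) [IsProbabilityMeasure P]
  (T : Ω ≃ᵐ Ω) (s F : Ω → ℝ) (A : Finset ℝ) (k : ℝ → ℝ) (g : ℝ → Ω → ℂ) (θ : ℝ),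
  MeasurePreserving T P P → Measurable s → (∀ ω, |s ω| ≤ 1) → Measurable F → (∀ ω, |F ω| ≤ 1) →
  (∀ γ ∈ A, 0 ≤ γ ∧ γ < 1 ∧ 0 ≤ k γ ∧ k γ ≤ 1) → (∀ γ ∈ A, Eig P T s γ (g γ)) →
  (∀ᵐ ω ∂P, (F ω : ℂ) = ∑ γ ∈ A, (k γ : ℂ) * g γ ω) → 0 ≤ θ → θ < 1 → Eig P T s θ (g θ) →
  Eig P T (fun ω => s ω - F ω) θ (fun ω => if θ ∈ A then (1 - (k θ : ℂ)) * g θ ω else g θ ω)

/-- APX: the approximation exists (from `T_EIG`, `T_EGR`, `T_SPX`, `T_FOL`, `T_APA`, `T_APB`). -/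
def T_APX : Prop := ∀ (Ω : Type) [MeasurableSpace Ω] (P : Measure Ω) [IsProbabilityMeasure P]
  (T : Ω ≃ᵐ Ω) (s : Ω → ℝ) (η : ℝ), Ergodic T P → Measurable s → (∀ ω, |s ω| ≤ 1) →
  (∀ W : ℕ, 0 < W → P[s | Inv T W] =ᵐ[P] 0) → 0 < η → ∃ F : Ω → ℝ, Apx P T s F η

/-- AVG: mean squares along the differences of primes (from `T_VWT`). -/
def T_AVG : Prop := ∀ (σ : Measure (Set.Ico (0 : ℝ) 1)) [IsFiniteMeasure σ] (t η : ℝ) (h : ℕ),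
  (∀ A : Finset ℝ, σ.real {x | (x : ℝ) ∈ A} ≤ t) → 0 < h → 0 < η → ∃ m₀ : ℕ, ∀ m, m₀ ≤ m →
  (∑ p ∈ Pset 2 m, ∑ p' ∈ Pset 2 m, ‖∫ x, ee ((x : ℝ) * (((p : ℝ) - p') * h)) ∂σ‖ ^ 2) /
    ((Pset 2 m).card : ℝ) ^ 2 ≤ t * σ.real Set.univ + η

/-- CSP: the inequality of Cauchy and Schwarz along the primes. -/
def T_CSP : Prop := ∀ (Ω : Type) [MeasurableSpace Ω] (P : Measure Ω) [IsProbabilityMeasure P]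
  (T : Ω ≃ᵐ Ω) (a b : Ω → ℝ) (h m : ℕ), MeasurePreserving T P P → Measurable a →
  Measurable b → (∀ ω, |a ω| ≤ 1) → (∀ ω, |b ω| ≤ 2) →
  (avgP 2 m fun p => |∫ ω, a ω * b (T^[p * h] ω) ∂P|) ^ 4 ≤
    (∑ p ∈ Pset 2 m, ∑ p' ∈ Pset 2 m, (∫ ω, b (T^[p * h] ω) * b (T^[p' * h] ω) ∂P) ^ 2) /
      ((Pset 2 m).card : ℝ) ^ 2

/-- ERR: the error terms (from `T_CSP`, `T_AVG`): the part `s - F` does not contribute. -/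
def T_ERR : Prop := ∀ (Ω : Type) [MeasurableSpace Ω] (P : Measure Ω) [IsProbabilityMeasure P]
  (T : Ω ≃ᵐ Ω) (s F : Ω → ℝ) (E : Set Ω) (q h : ℕ) (t : ℝ), MeasurePreserving T P P →
  Measurable s → (∀ ω, |s ω| ≤ 1) → MeasurableSet E → 0 < q →
  (∀ᵐ ω ∂P, T^[q] ω ∈ E ↔ ω ∈ E) → 0 < h → 0 < t → Apx P T s F (t ^ 4 / 16) →
  ∃ m₀ : ℕ, ∀ m, m₀ ≤ m → (avgP 2 m fun p =>
    |∫ ω in E, s ω * s (T^[p * h] ω) ∂P - ∫ ω in E, F ω * F (T^[p * h] ω) ∂P|) ≤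
      4 * ((q : ℝ) + 2) * t

/-- PNT: a point of the system for the trigonometric polynomials (from `T_BK`). -/
def T_PNT : Prop := ∀ (Ω : Type) [MeasurableSpace Ω] (P : Measure Ω) [IsProbabilityMeasure P]
  (T : Ω ≃ᵐ Ω) (s F : Ω → ℝ) (E : Set Ω) (q : ℕ) (η : ℝ), Ergodic T P → MeasurableSet E →
  0 < q → (∀ᵐ ω ∂P, T^[q] ω ∈ E ↔ ω ∈ E) → Apx P T s F η →
  ∃ (S : Finset ℝ) (c : ℝ → ℂ) (e : ℕ → ℝ), (∀ β ∈ S, Irrational β) ∧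
    (∀ n : ℕ, ∃ r : ℝ, |r| ≤ 1 ∧ ∑ β ∈ S, c β * ee (n * β) = r) ∧ (∀ n, e n = 0 ∨ e n = 1) ∧
    (∀ n, e (n + q) = e n) ∧
    Tendsto (fun N : ℕ => (∑ m ∈ range N, e m) / N) atTop (𝓝 (P.real E)) ∧
    ∀ n : ℕ, Tendsto (fun N : ℕ => (∑ m ∈ range N, e m * (∑ β ∈ S, c β * ee (m * β)).re *
      (∑ β ∈ S, c β * ee ((m + n : ℕ) * β)).re) / N) atTop
      (𝓝 (∫ ω in E, F ω * F (T^[n] ω) ∂P))

/-- KXX: the theorem for ergodic systems (from `T_APX`, `T_ERR`, `T_PNT`, `T_TPX`). -/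
def T_KXX : Prop := ∀ (Ω : Type) [MeasurableSpace Ω] (P : Measure Ω) [IsProbabilityMeasure P]
  (T : Ω ≃ᵐ Ω) (s : Ω → ℝ) (E : Set Ω) (q : ℕ) (Φ : ℝ → ℝ) (w : ℕ → ℝ) (h M u : ℕ) (η : ℝ),
  Ergodic T P → Measurable s → (∀ ω, |s ω| ≤ 1) → (∀ W : ℕ, 0 < W → P[s | Inv T W] =ᵐ[P] 0) →
  MeasurableSet E → 0 < q → (∀ᵐ ω ∂P, T^[q] ω ∈ E ↔ ω ∈ E) → ConvexOn ℝ Set.univ Φ → Wt w →
  0 < h → 0 < M → 0 < η → ∃ m₀ : ℕ, ∀ m, m₀ ≤ m →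
    avgP 2 m (fun p => if p ≡ u [MOD M] then
      w p * (Φ (∫ ω in E, s ω * s (T^[p * h] ω) ∂P) - cU Φ (P.real E)) else 0) ≤ η

/-! ### Section 5: components -/

/-- DW1: multiplication by a prime. -/
def T_DW1 : Prop := ∀ w h p : ℕ, p.Prime → w < p → Dw w (p * h) = Dw w h

/-- DW2: the densities. -/
def T_DW2 : Prop := (∀ (h : ℕ) (δ : ℝ), DnX true h δ → δ = 1) ∧
  ∀ (h : ℕ) (δ : ℝ) (w : ℕ), 0 < w → DnX false h δ → |δ - Dw w h| ≤ 4 / w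

/-- DW3: squarefree numbers on a component. -/
def T_DW3 : Prop := ∀ (ν : Measure Yi) (w : ℕ), 0 < w → CompY ν →
  ∃ E : ℕ → Set Yi, (∀ n, MeasurableSet (E n)) ∧ (∀ n, E (n + Qw w) = E n) ∧
    (∀ n, ∀ᵐ ω ∂ν, shY^[Qw w] ω ∈ E n ↔ ω ∈ E n) ∧ (∀ n, ν.real (E n) = Dw w n) ∧
    ∀ n, |gC false ν n - ∫ ω in E n, Pool.Agent.H28.LF.sg (btY ω).1 *
      Pool.Agent.H28.LF.sg (btY (shY^[n] ω)).1 ∂ν| ≤ 4 / w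

/-- KCP: the theorem for components (from `T_KXX`, `T_DW1`, `T_DW2`, `T_DW3`). -/
def T_KCP : Prop := ∀ (z : Bool) (h : ℕ) (Φ : ℝ → ℝ) (δ : ℝ) (ν : Measure Yi) (w : ℕ → ℝ)
  (η : ℝ), 0 < h → ConvexOn ℝ Set.univ Φ → DnX z h δ → CompY ν → Wt w → 0 < η →
  ∃ m₀ : ℕ, ∀ m, m₀ ≤ m → avgP 2 m (fun p => w p * (Φ (gC z ν (p * h)) - cU Φ δ)) ≤ η

end Pool.Agent.H83.X
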