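import Pool.Agent.H83.X.T3

/-!
Row XWT: the weight of a set of scales on one window.
-/

set_option autoImplicit false

open Finset

namespace Pool.Agent.H83.X

/-- the weight of the scales above `n` -/
noncomputable def wD (S : Finset ℕ) (n : ℕ) : ℝ := ∑ N ∈ S.filter (fun N => n ≤ N), 1 / (N : ℝ) ^ 2

theorem wD_nonneg (S : Finset ℕ) (n : ℕ) : 0 ≤ wD S n :=
  sum_nonneg fun _ _ => by positivity

theorem wD_anti (S : Finset ℕ) {m n : ℕ} (h : m ≤ n) : wD S n ≤ wD S m := by
  refine sum_le_sum_of_subset_of_nonneg (fun N hN => ?_) fun _ _ _ => by positivity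
  rw [mem_filter] at hN ⊢
  exact ⟨hN.1, le_trans h hN.2⟩

theorem wtail {n : ℕ} (hn : 0 < n) (M : ℕ) : ∑ N ∈ Icc n M, 1 / (N : ℝ) ^ 2 ≤ 2 / (n : ℝ) := by
  have h := sum_Ioo_inv_sq_le (α := ℝ) (n - 1) (M + 1)
  have e : Ioo (n - 1) (M + 1) = Icc n M := by
    ext k
    simp only [mem_Ioo, mem_Icc]
    omega
  rw [e] at h
  have e2 : ((n - 1 : ℕ) : ℝ) + 1 = n := by
    rw [Nat.cast_sub hn]
    simp
  rw [e2] at h
  simpa only [one_div] using h

theorem wD_le (S : Finset ℕ) {n : ℕ} (hn : 0 < n) : wD S n ≤ 2 / (n : ℝ) := by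
  refine le_trans (sum_le_sum_of_subset_of_nonneg (t := Icc n (S.sup id)) (fun N hN => ?_)
    fun _ _ _ => by positivity) (wtail hn _)
  rw [mem_filter] at hN
  exact mem_Icc.2 ⟨hN.2, le_sup (f := id) hN.1⟩

theorem wD_sub (S : Finset ℕ) {b n : ℕ} (hb : 0 < b) (h : b ≤ n) :
    wD S b - wD S n ≤ ((n : ℝ) - b) / (b : ℝ) ^ 2 := by
  have hb' : (0 : ℝ) < b := by exact_mod_cast hb
  have e : wD S b = wD S n + ∑ N ∈ S.filter (fun N => b ≤ N ∧ N < n), 1 / (N : ℝ) ^ 2 := by
    unfold wD
    rw [← sum_union]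
    · refine sum_congr ?_ fun _ _ => rfl
      ext N
      simp only [mem_filter, mem_union]
      constructor
      · rintro ⟨h1, h2⟩
        by_cases h3 : n ≤ N
        · exact Or.inl ⟨h1, h3⟩
        · exact Or.inr ⟨h1, h2, by omega⟩
      · rintro (⟨h1, h2⟩ | ⟨h1, h2, h3⟩)
        · exact ⟨h1, by omega⟩
        · exact ⟨h1, h2⟩
    · rw [disjoint_left]
      intro N h1 h2
      simp only [mem_filter] at h1 h2
      omega
  have h2 : ∑ N ∈ S.filter (fun N => b ≤ N ∧ N < n), 1 / (N : ℝ) ^ 2 ≤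
      ∑ N ∈ Ico b n, 1 / (b : ℝ) ^ 2 := by
    refine le_trans (sum_le_sum_of_subset_of_nonneg (t := Ico b n) (fun N hN => ?_)
      fun _ _ _ => by positivity) (sum_le_sum fun N hN => ?_)
    · rw [mem_filter] at hN
      exact mem_Ico.2 hN.2
    · have h3 : (b : ℝ) ≤ N := by exact_mod_cast (mem_Ico.1 hN).1
      gcongr
  have h3 : ∑ N ∈ Ico b n, 1 / (b : ℝ) ^ 2 = ((n : ℝ) - b) / (b : ℝ) ^ 2 := by
    rw [sum_const, Nat.card_Ico, nsmul_eq_mul, Nat.cast_sub h]
    ring
  linarith

/-- the weight, constant on blocks -/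
noncomputable def wv (S : Finset ℕ) (H n : ℕ) : ℝ :=
  ((H * (n / H) : ℕ) : ℝ) * wD S (H * (n / H)) / 2

theorem wv_nonneg (S : Finset ℕ) (H n : ℕ) : 0 ≤ wv S H n := by
  unfold wv
  have := wD_nonneg S (H * (n / H))
  positivity

theorem bD_le (S : Finset ℕ) (b : ℕ) : (b : ℝ) * wD S b ≤ 2 := by
  rcases Nat.eq_zero_or_pos b with rfl | hb
  · simp
  · have h1 := wD_le S hb
    have hb' : (0 : ℝ) < b := by exact_mod_cast hb
    calc (b : ℝ) * wD S b ≤ b * (2 / b) := by gcongr
      _ = 2 := by field_simp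

theorem wv_le (S : Finset ℕ) (H n : ℕ) : wv S H n ≤ 1 := by
  unfold wv
  have := bD_le S (H * (n / H))
  linarith

theorem blk_le (H n : ℕ) : H * (n / H) ≤ n := Nat.mul_div_le n H

theorem blk_lt {H : ℕ} (hH : 0 < H) (n : ℕ) : n < H * (n / H) + H := by
  have := Nat.lt_mul_div_succ n hH
  rwa [Nat.mul_add, Nat.mul_one] at this

theorem blk_pos {H n : ℕ} (hH : 0 < H) (h : H ≤ n) : 0 < H * (n / H) :=
  Nat.mul_pos hH (Nat.div_pos h hH)

theorem card_small (x y K : ℕ) : ∑ n ∈ Icc x y, (if n < K then (1 : ℝ) else 0) ≤ K := by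
  rw [sum_ite, sum_const_zero, add_zero, sum_const, nsmul_eq_mul, mul_one]
  have : ((Icc x y).filter (fun n => n < K)).card ≤ (range K).card := by
    refine card_le_card fun n hn => ?_
    rw [mem_filter] at hn
    exact mem_range.2 hn.2
  rw [card_range] at this
  exact_mod_cast this

theorem tail_if (x y K : ℕ) (c : ℝ) (hc : 0 ≤ c) (hK : 0 < K) :
    ∑ n ∈ Icc x y, (if K ≤ n then c / (n : ℝ) ^ 2 else 0) ≤ c * (2 / K) := by
  rw [sum_ite, sum_const_zero, add_zero]
  have h1 : ∑ n ∈ (Icc x y).filter (fun n => K ≤ n), c / (n : ℝ) ^ 2 ≤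
      ∑ n ∈ Icc K y, c / (n : ℝ) ^ 2 := by
    refine sum_le_sum_of_subset_of_nonneg (fun n hn => ?_) fun _ _ _ => by positivity
    rw [mem_filter, mem_Icc] at hn
    exact mem_Icc.2 ⟨hn.2, hn.1.2⟩
  refine le_trans h1 ?_
  have h2 : ∑ n ∈ Icc K y, c / (n : ℝ) ^ 2 = c * ∑ n ∈ Icc K y, 1 / (n : ℝ) ^ 2 := by
    rw [mul_sum]
    refine sum_congr rfl fun n _ => ?_
    ring
  rw [h2]
  exact mul_le_mul_of_nonneg_left (wtail hK y) hc

theorem swap_eq (S : Finset ℕ) (x y : ℕ) (hS : S ⊆ Icc x y) (g : ℕ → ℝ) :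
    ∑ N ∈ S, (1 : ℝ) / N * ((∑ n ∈ Icc 1 N, g n) / N) = ∑ n ∈ Icc 1 y, g n * wD S n := by
  have e1 : ∀ N ∈ S, (1 : ℝ) / N * ((∑ n ∈ Icc 1 N, g n) / N) =
      ∑ n ∈ Icc 1 y, if n ≤ N then g n * (1 / (N : ℝ) ^ 2) else 0 := by
    intro N hN
    have hy := (mem_Icc.1 (hS hN)).2
    rw [← sum_filter]
    have e : (Icc 1 y).filter (fun n => n ≤ N) = Icc 1 N := by
      ext n
      simp only [mem_filter, mem_Icc]
      omega
    rw [e, ← sum_mul]
    ring
  rw [sum_congr rfl e1, sum_comm]
  refine sum_congr rfl fun n _ => ?_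
  unfold wD
  rw [← sum_filter, mul_sum]

theorem wbd (S : Finset ℕ) {H n : ℕ} (hH : 0 < H) (hn : 0 < n) :
    |wD S n / 2 - wv S H n / n| ≤ (if n < H then (1 : ℝ) else 0) +
      (if H ≤ n then (2 * H : ℝ) / (n : ℝ) ^ 2 else 0) := by
  have hn' : (0 : ℝ) < n := by exact_mod_cast hn
  have hn1 : (1 : ℝ) ≤ n := by exact_mod_cast hn
  by_cases h : n < H
  · rw [if_pos h, if_neg (by omega)]
    have e : wv S H n = 0 := by
      unfold wv
      rw [Nat.div_eq_of_lt h]
      simp
    rw [e, zero_div, sub_zero, abs_of_nonneg (by have := wD_nonneg S n; positivity), add_zero]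
    have h1 := wD_le S hn
    have h2 : (2 : ℝ) / n ≤ 2 := by
      rw [div_le_iff₀ hn']
      linarith
    linarith
  · rw [if_neg h, if_pos (by omega), zero_add]
    have hHn : H ≤ n := by omega
    set b := H * (n / H) with hb
    have hb0 : 0 < b := blk_pos hH hHn
    have hbn : b ≤ n := blk_le H n
    have hbl : n < b + H := blk_lt hH n
    have hb' : (0 : ℝ) < b := by exact_mod_cast hb0
    have hbn' : (b : ℝ) ≤ n := by exact_mod_cast hbn
    have hbl' : (n : ℝ) - b ≤ H := by
      have : (n : ℝ) < b + H := by exact_mod_cast hbl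
      linarith
    have hH' : (0 : ℝ) < H := by exact_mod_cast hH
    have hHb : (H : ℝ) ≤ b := by
      have : H ≤ b := by
        rw [hb]
        exact Nat.le_mul_of_pos_right H (Nat.div_pos hHn hH)
      exact_mod_cast this
    have h2b : (n : ℝ) ≤ 2 * b := by linarith
    have h1 := wD_le S hn
    have h2 := wD_sub S hb0 hbn
    have h3 := wD_anti S hbn
    have h4 := wD_nonneg S n
    have e : wv S H n = b * wD S b / 2 := rfl
    rw [e]
    have e2 : wD S n / 2 - b * wD S b / 2 / n =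
        (((n : ℝ) - b) * wD S n - b * (wD S b - wD S n)) / (2 * n) := by
      field_simp
      ring
    rw [e2, abs_div, abs_of_pos (by positivity : (0 : ℝ) < 2 * n), div_le_div_iff₀ (by positivity)
      (by positivity)]
    have h5 : |((n : ℝ) - b) * wD S n - b * (wD S b - wD S n)| ≤ 4 * H / n := by
      have h6 : ((n : ℝ) - b) * wD S n ≤ 2 * H / n := by
        calc ((n : ℝ) - b) * wD S n ≤ H * (2 / n) :=
              mul_le_mul hbl' h1 h4 hH'.le
          _ = 2 * H / n := by ring
      have h7 : (b : ℝ) * (wD S b - wD S n) ≤ 2 * H / n := by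
        calc (b : ℝ) * (wD S b - wD S n) ≤ b * (((n : ℝ) - b) / (b : ℝ) ^ 2) := by gcongr
          _ = ((n : ℝ) - b) / b := by field_simp
          _ ≤ H / b := by gcongr
          _ ≤ 2 * H / n := by
              rw [div_le_div_iff₀ hb' hn']
              nlinarith
      have h8 : 0 ≤ ((n : ℝ) - b) * wD S n := mul_nonneg (by linarith) h4
      have h9 : 0 ≤ (b : ℝ) * (wD S b - wD S n) := mul_nonneg hb'.le (by linarith)
      have h10 : 0 ≤ 2 * (H : ℝ) / n := by positivity
      have h11 : 4 * (H : ℝ) / n = 2 * H / n + 2 * H / n := by ring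
      rw [abs_le]
      constructor <;> linarith
    calc |((n : ℝ) - b) * wD S n - b * (wD S b - wD S n)| * (n : ℝ) ^ 2 ≤
          (4 * (H : ℝ) / n) * (n : ℝ) ^ 2 := by gcongr
      _ = 2 * (H : ℝ) * (2 * n) := by field_simp; ring

theorem wsh (S : Finset ℕ) {H n i : ℕ} (hH : 0 < H) (hn : 0 < n) (hi : i ≤ H) :
    |wv S H n / n - wv S H (n + i) / ((n + i : ℕ) : ℝ)| ≤ (if n < 2 * H then (1 : ℝ) else 0) +
      (if 2 * H ≤ n then (4 * H : ℝ) / (n : ℝ) ^ 2 else 0) := by
  have hn' : (0 : ℝ) < n := by exact_mod_cast hn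
  have hn1 : (1 : ℝ) ≤ n := by exact_mod_cast hn
  have hH' : (0 : ℝ) < H := by exact_mod_cast hH
  have hi' : (i : ℝ) ≤ H := by exact_mod_cast hi
  have hi0 : (0 : ℝ) ≤ i := Nat.cast_nonneg i
  have hv1 := wv_le S H n
  have hv0 := wv_nonneg S H n
  have hw1 := wv_le S H (n + i)
  have hw0 := wv_nonneg S H (n + i)
  have hm : ((n + i : ℕ) : ℝ) = n + i := by push_cast; rfl
  have hm0 : (0 : ℝ) < n + i := by positivity
  rw [hm]
  by_cases h : n < 2 * H
  · rw [if_pos h, if_neg (by omega), add_zero]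
    have h1 : wv S H n / n ≤ 1 := by
      rw [div_le_one hn']
      linarith
    have h2 : wv S H (n + i) / (n + i) ≤ 1 := by
      rw [div_le_one hm0]
      linarith
    have h3 : 0 ≤ wv S H n / n := by positivity
    have h4 : 0 ≤ wv S H (n + i) / ((n : ℝ) + i) := by positivity
    rw [abs_le]
    constructor <;> linarith
  · rw [if_neg h, if_pos (by omega), zero_add]
    have hHn : 2 * H ≤ n := by omega
    have hHn' : 2 * (H : ℝ) ≤ n := by exact_mod_cast hHn
    set b := H * (n / H) with hb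
    set d := H * ((n + i) / H) with hd
    have hb0 : 0 < b := blk_pos hH (by omega)
    have hbl : n < b + H := blk_lt hH n
    have hbd : b ≤ d := Nat.mul_le_mul_left H (Nat.div_le_div_right (Nat.le_add_right n i))
    have hdb : d ≤ b + H := by
      rw [hb, hd, ← Nat.mul_succ]
      refine Nat.mul_le_mul_left H ?_
      calc (n + i) / H ≤ (n + H) / H := Nat.div_le_div_right (by omega)
        _ = n / H + 1 := Nat.add_div_right n hH
    have hb' : (0 : ℝ) < b := by exact_mod_cast hb0
    have hbd' : (b : ℝ) ≤ d := by exact_mod_cast hbd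
    have hd' : (0 : ℝ) < d := lt_of_lt_of_le hb' hbd'
    have hdb' : (d : ℝ) - b ≤ H := by
      have : (d : ℝ) ≤ b + H := by exact_mod_cast hdb
      linarith
    have hbl' : (n : ℝ) < b + H := by exact_mod_cast hbl
    have h2b : (n : ℝ) ≤ 2 * b := by linarith
    have h1 := wD_le S (lt_of_lt_of_le hb0 hbd)
    have h2 := wD_sub S hb0 hbd
    have h3 := wD_anti S hbd
    have h4 := wD_nonneg S d
    have e : wv S H n = b * wD S b / 2 := rfl
    have e' : wv S H (n + i) = d * wD S d / 2 := rfl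
    -- the difference of the weights
    have h5 : |wv S H n - wv S H (n + i)| ≤ 3 * H / n := by
      rw [e, e']
      have h6 : ((d : ℝ) - b) * wD S d ≤ 2 * H / b := by
        calc ((d : ℝ) - b) * wD S d ≤ H * (2 / d) := mul_le_mul hdb' h1 h4 hH'.le
          _ ≤ H * (2 / b) := by gcongr
          _ = 2 * H / b := by ring
      have h7 : (b : ℝ) * (wD S b - wD S d) ≤ H / b := by
        calc (b : ℝ) * (wD S b - wD S d) ≤ b * (((d : ℝ) - b) / (b : ℝ) ^ 2) := by gcongr
          _ = ((d : ℝ) - b) / b := by field_simp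
          _ ≤ H / b := by gcongr
      have h8 : 0 ≤ ((d : ℝ) - b) * wD S d := mul_nonneg (by linarith) h4
      have h9 : 0 ≤ (b : ℝ) * (wD S b - wD S d) := mul_nonneg hb'.le (by linarith)
      have h10 : (H : ℝ) / b ≤ 2 * H / n := by
        rw [div_le_div_iff₀ hb' hn']
        nlinarith
      have h11 : 2 * (H : ℝ) / b = 2 * (H / b) := by ring
      have h12 : 3 * (H : ℝ) / n = (3 / 2) * (2 * H / n) := by ring
      have e3 : b * wD S b / 2 - d * wD S d / 2 =
          (b * (wD S b - wD S d) - ((d : ℝ) - b) * wD S d) / 2 := by ring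
      have h13 : 0 ≤ (H : ℝ) / b := by positivity
      rw [e3, abs_le]
      constructor <;> linarith
    have e4 : wv S H n / n - wv S H (n + i) / (n + i) =
        (wv S H n - wv S H (n + i)) / n + wv S H (n + i) * (i / (n * (n + i))) := by
      field_simp
      ring
    rw [e4]
    refine le_trans (abs_add_le _ _) ?_
    have h14 : |(wv S H n - wv S H (n + i)) / n| ≤ 3 * H / (n : ℝ) ^ 2 := by
      rw [abs_div, abs_of_pos hn', div_le_div_iff₀ hn' (by positivity)]
      calc |wv S H n - wv S H (n + i)| * (n : ℝ) ^ 2 ≤ (3 * (H : ℝ) / n) * (n : ℝ) ^ 2 := by gcongr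
        _ = 3 * (H : ℝ) * n := by field_simp
    have h15 : |wv S H (n + i) * (i / (n * (n + i)))| ≤ H / (n : ℝ) ^ 2 := by
      rw [abs_of_nonneg (by positivity)]
      calc wv S H (n + i) * (i / (n * (n + i))) ≤ 1 * (H / (n * n)) := by
            gcongr
            linarith
        _ = H / (n : ℝ) ^ 2 := by ring
    have h16 : 4 * (H : ℝ) / (n : ℝ) ^ 2 = 3 * H / (n : ℝ) ^ 2 + H / (n : ℝ) ^ 2 := by ring
    linarith

theorem shift_eq (x y i : ℕ) (F : ℕ → ℝ) :
    ∑ n ∈ (Icc x y).filter (fun n => x + i ≤ n), F n =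
      ∑ n ∈ (Icc x y).filter (fun n => n + i ≤ y), F (n + i) := by
  refine sum_nbij' (fun n => n - i) (fun n => n + i) ?_ ?_ ?_ ?_ ?_
  · intro n hn
    simp only [mem_filter, mem_Icc] at hn ⊢
    omega
  · intro n hn
    simp only [mem_filter, mem_Icc] at hn ⊢
    omega
  · intro n hn
    simp only [mem_filter, mem_Icc] at hn ⊢
    omega
  · intro n hn
    simp only [mem_filter, mem_Icc] at hn ⊢
    omega
  · intro n hn
    simp only [mem_filter, mem_Icc] at hn
    congr 1
    omega

theorem pf_XWT : T_XWT := by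
  intro H x y S hH hx hxy hS
  have hH' : (0 : ℝ) < H := by exact_mod_cast hH
  have hx' : (0 : ℝ) < x := by exact_mod_cast hx
  refine ⟨wv S H, fun n => ⟨wv_nonneg S H n, wv_le S H n⟩, ?_, ?_, ?_, ?_⟩
  · intro n hn
    unfold wv
    rw [Nat.succ_div_of_not_dvd hn]
  · intro B g hB hg
    rw [swap_eq S x y hS g]
    have e1 : Icc 1 y = Ico 1 x ∪ Icc x y := by
      ext n
      simp only [mem_union, mem_Icc, mem_Ico]
      omega
    have hd : Disjoint (Ico 1 x) (Icc x y) := by
      rw [disjoint_left]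
      intro n h1 h2
      simp only [mem_Icc, mem_Ico] at h1 h2
      omega
    rw [e1, sum_union hd]
    have hA : |∑ n ∈ Ico 1 x, g n * wD S n| ≤ 2 * B := by
      have hDx : ∀ n ∈ Ico 1 x, |g n * wD S n| ≤ B * (2 / x) := by
        intro n hn
        rw [abs_mul, abs_of_nonneg (wD_nonneg S n)]
        refine mul_le_mul (hg n) ?_ (wD_nonneg S n) hB
        refine le_trans ?_ (wD_le S hx)
        refine sum_le_sum_of_subset_of_nonneg (fun N hN => ?_) fun _ _ _ => by positivity
        rw [mem_filter] at hN ⊢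
        exact ⟨hN.1, (mem_Icc.1 (hS hN.1)).1⟩
      calc |∑ n ∈ Ico 1 x, g n * wD S n| ≤ ∑ n ∈ Ico 1 x, |g n * wD S n| := abs_sum_le_sum_abs _ _
        _ ≤ ∑ n ∈ Ico 1 x, B * (2 / x) := sum_le_sum hDx
        _ = ((x - 1 : ℕ) : ℝ) * (B * (2 / x)) := by
            rw [sum_const, Nat.card_Ico, nsmul_eq_mul]
        _ ≤ (x : ℝ) * (B * (2 / x)) := by
            gcongr
            omega
        _ = 2 * B := by field_simp
    have hC : |∑ n ∈ Icc x y, g n * (wD S n / 2 - wv S H n / n)| ≤ B * (H + 4) := by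
      calc |∑ n ∈ Icc x y, g n * (wD S n / 2 - wv S H n / n)|
          ≤ ∑ n ∈ Icc x y, |g n * (wD S n / 2 - wv S H n / n)| := abs_sum_le_sum_abs _ _
        _ ≤ ∑ n ∈ Icc x y, B * ((if n < H then (1 : ℝ) else 0) +
            (if H ≤ n then (2 * H : ℝ) / (n : ℝ) ^ 2 else 0)) := by
            refine sum_le_sum fun n hn => ?_
            rw [abs_mul]
            have hn0 : 0 < n := lt_of_lt_of_le hx (mem_Icc.1 hn).1
            exact mul_le_mul (hg n) (wbd S hH hn0) (abs_nonneg _) hB
        _ = B * (∑ n ∈ Icc x y, (if n < H then (1 : ℝ) else 0) +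
            ∑ n ∈ Icc x y, (if H ≤ n then (2 * H : ℝ) / (n : ℝ) ^ 2 else 0)) := by
            rw [← sum_add_distrib, mul_sum]
        _ ≤ B * (H + 2 * H * (2 / H)) := by
            refine mul_le_mul_of_nonneg_left (add_le_add (card_small x y H)
              (tail_if x y H (2 * H) (by positivity) hH)) hB
        _ = B * (H + 4) := by
            field_simp
            ring
    have e2 : ∑ n ∈ Icc x y, g n * (wD S n / 2 - wv S H n / n) =
        (∑ n ∈ Icc x y, g n * wD S n) / 2 - ∑ n ∈ Icc x y, wv S H n * g n / n := by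
      rw [sum_div, ← sum_sub_distrib]
      refine sum_congr rfl fun n _ => ?_
      ring
    rw [e2] at hC
    have e3 : (∑ n ∈ Ico 1 x, g n * wD S n + ∑ n ∈ Icc x y, g n * wD S n) / 2 -
        ∑ n ∈ Icc x y, wv S H n * g n / n = (∑ n ∈ Ico 1 x, g n * wD S n) / 2 +
        ((∑ n ∈ Icc x y, g n * wD S n) / 2 - ∑ n ∈ Icc x y, wv S H n * g n / n) := by ring
    rw [e3]
    refine le_trans (abs_add_le _ _) ?_
    rw [abs_div, abs_of_pos (by norm_num : (0 : ℝ) < 2)]
    have : B * (H + 4) = B * H + 4 * B := by ring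
    have h0 : 0 ≤ B * H := by positivity
    linarith
  · intro B g i hB hg hi
    have hi' : (i : ℝ) ≤ H := by exact_mod_cast hi
    -- split
    have s1 : ∑ n ∈ Icc x y, wv S H n * g (n + i) / n =
        ∑ n ∈ (Icc x y).filter (fun n => n + i ≤ y), wv S H n * g (n + i) / n +
        ∑ n ∈ (Icc x y).filter (fun n => ¬ n + i ≤ y), wv S H n * g (n + i) / n :=
      (sum_filter_add_sum_filter_not _ _ _).symm
    have s2 : ∑ n ∈ Icc x y, wv S H n * g n / n =
        ∑ n ∈ (Icc x y).filter (fun n => x + i ≤ n), wv S H n * g n / n +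
        ∑ n ∈ (Icc x y).filter (fun n => ¬ x + i ≤ n), wv S H n * g n / n :=
      (sum_filter_add_sum_filter_not _ _ _).symm
    have s3 := shift_eq x y i (fun n => wv S H n * g n / n)
    have tri : ∀ n ∈ Icc x y, ∀ j : ℕ, |wv S H n * g j / n| ≤ B := by
      intro n hn j
      have hn0 : 0 < n := lt_of_lt_of_le hx (mem_Icc.1 hn).1
      have hn' : (1 : ℝ) ≤ n := by exact_mod_cast hn0
      rw [abs_div, abs_mul, abs_of_nonneg (wv_nonneg S H n), abs_of_pos (by linarith : (0 : ℝ) < n)]
      rw [div_le_iff₀ (by linarith : (0 : ℝ) < n)]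
      calc wv S H n * |g j| ≤ 1 * B := mul_le_mul (wv_le S H n) (hg j) (abs_nonneg _) (by norm_num)
        _ ≤ B * n := by nlinarith
    have p1 : |∑ n ∈ (Icc x y).filter (fun n => ¬ n + i ≤ y), wv S H n * g (n + i) / n| ≤ B * i := by
      calc |∑ n ∈ (Icc x y).filter (fun n => ¬ n + i ≤ y), wv S H n * g (n + i) / n|
          ≤ ∑ n ∈ (Icc x y).filter (fun n => ¬ n + i ≤ y), |wv S H n * g (n + i) / n| :=
            abs_sum_le_sum_abs _ _
        _ ≤ ∑ n ∈ (Icc x y).filter (fun n => ¬ n + i ≤ y), B :=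
            sum_le_sum fun n hn => tri n (mem_filter.1 hn).1 _
        _ = ((Icc x y).filter (fun n => ¬ n + i ≤ y)).card * B := by
            rw [sum_const, nsmul_eq_mul]
        _ ≤ i * B := by
            have : ((Icc x y).filter (fun n => ¬ n + i ≤ y)).card ≤ (Ioc (y - i) y).card := by
              refine card_le_card fun n hn => ?_
              simp only [mem_filter, mem_Icc, mem_Ioc] at hn ⊢
              omega
            rw [Nat.card_Ioc] at this
            gcongr
            omega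
        _ = B * i := by ring
    have p2 : |∑ n ∈ (Icc x y).filter (fun n => ¬ x + i ≤ n), wv S H n * g n / n| ≤ B * i := by
      calc |∑ n ∈ (Icc x y).filter (fun n => ¬ x + i ≤ n), wv S H n * g n / n|
          ≤ ∑ n ∈ (Icc x y).filter (fun n => ¬ x + i ≤ n), |wv S H n * g n / n| :=
            abs_sum_le_sum_abs _ _
        _ ≤ ∑ n ∈ (Icc x y).filter (fun n => ¬ x + i ≤ n), B :=
            sum_le_sum fun n hn => tri n (mem_filter.1 hn).1 _
        _ = ((Icc x y).filter (fun n => ¬ x + i ≤ n)).card * B := by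
            rw [sum_const, nsmul_eq_mul]
        _ ≤ i * B := by
            have : ((Icc x y).filter (fun n => ¬ x + i ≤ n)).card ≤ (Ico x (x + i)).card := by
              refine card_le_card fun n hn => ?_
              simp only [mem_filter, mem_Icc, mem_Ico] at hn ⊢
              omega
            rw [Nat.card_Ico] at this
            gcongr
            omega
        _ = B * i := by ring
    have p3 : |∑ n ∈ (Icc x y).filter (fun n => n + i ≤ y),
        g (n + i) * (wv S H n / n - wv S H (n + i) / ((n + i : ℕ) : ℝ))| ≤ B * (2 * H + 4) := by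
      calc |∑ n ∈ (Icc x y).filter (fun n => n + i ≤ y),
          g (n + i) * (wv S H n / n - wv S H (n + i) / ((n + i : ℕ) : ℝ))|
          ≤ ∑ n ∈ (Icc x y).filter (fun n => n + i ≤ y),
            |g (n + i) * (wv S H n / n - wv S H (n + i) / ((n + i : ℕ) : ℝ))| :=
            abs_sum_le_sum_abs _ _
        _ ≤ ∑ n ∈ (Icc x y).filter (fun n => n + i ≤ y),
            B * ((if n < 2 * H then (1 : ℝ) else 0) +
              (if 2 * H ≤ n then (4 * H : ℝ) / (n : ℝ) ^ 2 else 0)) := by
            refine sum_le_sum fun n hn => ?_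
            rw [abs_mul]
            have hn0 : 0 < n := lt_of_lt_of_le hx (mem_Icc.1 (mem_filter.1 hn).1).1
            exact mul_le_mul (hg _) (wsh S hH hn0 hi) (abs_nonneg _) hB
        _ ≤ ∑ n ∈ Icc x y,
            B * ((if n < 2 * H then (1 : ℝ) else 0) +
              (if 2 * H ≤ n then (4 * H : ℝ) / (n : ℝ) ^ 2 else 0)) := by
            refine sum_le_sum_of_subset_of_nonneg (filter_subset _ _) fun n _ _ => ?_
            refine mul_nonneg hB (add_nonneg ?_ ?_)
            · split_ifs <;> norm_num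
            · split_ifs <;> positivity
        _ = B * (∑ n ∈ Icc x y, (if n < 2 * H then (1 : ℝ) else 0) +
            ∑ n ∈ Icc x y, (if 2 * H ≤ n then (4 * H : ℝ) / (n : ℝ) ^ 2 else 0)) := by
            rw [← sum_add_distrib, mul_sum]
        _ ≤ B * (((2 * H : ℕ) : ℝ) + 4 * H * (2 / ((2 * H : ℕ) : ℝ))) := by
            refine mul_le_mul_of_nonneg_left (add_le_add (card_small x y (2 * H))
              (tail_if x y (2 * H) (4 * H) (by positivity) (by omega))) hB
        _ = B * (2 * H + 4) := by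
            push_cast
            field_simp
    have e5 : ∑ n ∈ (Icc x y).filter (fun n => n + i ≤ y),
        g (n + i) * (wv S H n / n - wv S H (n + i) / ((n + i : ℕ) : ℝ)) =
        ∑ n ∈ (Icc x y).filter (fun n => n + i ≤ y), wv S H n * g (n + i) / n -
        ∑ n ∈ (Icc x y).filter (fun n => n + i ≤ y),
          wv S H (n + i) * g (n + i) / ((n + i : ℕ) : ℝ) := by
      rw [← sum_sub_distrib]
      refine sum_congr rfl fun n _ => ?_
      ring
    rw [s1, s2, s3]
    rw [e5] at p3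
    have hB4 : B * (2 * H + 4) + B * i + B * i ≤ 10 * B * (H + 1) := by
      have : B * i ≤ B * H := by gcongr
      have h0 : 0 ≤ B * H := by positivity
      nlinarith
    rw [abs_le] at p1 p2 p3 ⊢
    constructor <;> linarith [p1.1, p1.2, p2.1, p2.2, p3.1, p3.2]
  · intro R p p' n hR hp hpp hny hxn h10
    have hp' : 0 < p' := by omega
    have hR' : (0 : ℝ) < R := by exact_mod_cast hR
    have hn2 : 10 * R * (H + 1) ≤ n / p' := by
      rw [Nat.le_div_iff_mul_le hp']
      calc 10 * R * (H + 1) * p' = 10 * R * p' * (H + 1) := by ring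
        _ ≤ n := h10
    have hRH : H ≤ R * H := Nat.le_mul_of_pos_left H hR
    have h10' : 10 * R * (H + 1) = 10 * (R * H) + 10 * R := by ring
    set b₁ := H * ((n / p) / H) with hb1
    set b₂ := H * ((n / p') / H) with hb2
    have hb12 : b₂ ≤ b₁ :=
      Nat.mul_le_mul_left H (Nat.div_le_div_right (Nat.div_le_div_left hpp.le hp))
    have hl2 : n / p' < b₂ + H := blk_lt hH _
    have hb2R : R * H ≤ b₂ := by omega
    have hb20 : 0 < b₂ := by
      have : 0 < R * H := Nat.mul_pos hR hH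
      omega
    have hD := wD_anti S hb12
    have hD2 := wD_le S hb20
    have hpb : p * b₁ ≤ n := le_trans (Nat.mul_le_mul_left p (blk_le H (n / p))) (Nat.mul_div_le n p)
    have hnb : n ≤ p' * (b₂ + H) := by
      have h1 : n < p' * (n / p' + 1) := by
        have := Nat.lt_mul_div_succ n hp'
        simpa using this
      calc n ≤ p' * (n / p' + 1) := h1.le
        _ ≤ p' * (b₂ + H) := Nat.mul_le_mul_left p' hl2
    have hpb' : (p : ℝ) * b₁ ≤ (p' : ℝ) * (b₂ + H) := by exact_mod_cast le_trans hpb hnb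
    have h0 := wD_nonneg S b₁
    have h02 := wD_nonneg S b₂
    have hb2' : (0 : ℝ) < b₂ := by exact_mod_cast hb20
    have hb2R' : (R : ℝ) * H ≤ b₂ := by exact_mod_cast hb2R
    have e1 : wv S H (n / p) = b₁ * wD S b₁ / 2 := rfl
    have e2 : wv S H (n / p') = b₂ * wD S b₂ / 2 := rfl
    rw [e1, e2]
    have hp'' : (0 : ℝ) < p' := by exact_mod_cast hp'
    calc (p : ℝ) * (b₁ * wD S b₁ / 2) = (p * b₁) * wD S b₁ / 2 := by ring
      _ ≤ (p' * (b₂ + H)) * wD S b₂ / 2 := by gcongr
      _ = p' * (b₂ * wD S b₂ / 2) + p' * (H * wD S b₂ / 2) := by ring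
      _ ≤ p' * (b₂ * wD S b₂ / 2) + p' / R := by
          have h3 : H * wD S b₂ / 2 ≤ 1 / R := by
            calc (H : ℝ) * wD S b₂ / 2 ≤ H * (2 / b₂) / 2 := by gcongr
              _ = H / b₂ := by ring
              _ ≤ 1 / R := by
                  rw [div_le_div_iff₀ hb2' hR']
                  linarith
          have h4 : (p' : ℝ) * (H * wD S b₂ / 2) ≤ p' * (1 / R) :=
            mul_le_mul_of_nonneg_left h3 hp''.le
          have h5 : (p' : ℝ) * (1 / R) = p' / R := by ring
          linarith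

end Pool.Agent.H83.X
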